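import Pool.Agent.N782.GN.StmT

/-!
# Project GN (helper782), stage 2: the same theorem for `l + i m` in a residue class modulo a fixed `q₀`.  Statements.

For `q₀ = 1` these are the statements of `StmB`, `StmT`.
-/

set_option autoImplicit false

namespace Pool.Agent.N782.GN

open Finset Filter Topology
open Pool.Agent.H304R3.HK (UH bb LamK)

open Classical in
/-- `be g w` for `w ≡ w₀` modulo `q₀` -/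
noncomputable def bec (q0 g : ℕ) (w0 w : ZI) : ℝ := if ((q0 : ℕ) : ZI) ∣ w - w0 then be g w else 0

/-- (TX) the dispersion for the Moebius function in a class modulo `q₀` -/
def S_TX : Prop := ∀ (ε : ℝ) (A B q0 : ℕ), 0 < ε → 1 ≤ q0 → ∃ C : ℝ, 0 < C ∧ ∀ (M L R P D : ℝ) (g : ℕ) (w0 : ZI)
  (lam : ℤ → ℝ), 3 ≤ M → 1 ≤ L → L ≤ M ^ (1 - ε) → M / L * M ^ ε ≤ R → R ^ 2 ≤ M ^ (1 - ε) →
  M / (Real.log M) ^ B ≤ R * P → R * P ≤ M → 1 ≤ D → D ≤ (Real.log M) ^ B → 1 ≤ g → (g : ℝ) ≤ (Real.log M) ^ B →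
  Lm L lam →
  ∑ v ∈ bl (9 * P ^ 2), Phi (Real.sqrt (nz v) / P) * (∑ w ∈ (bl (4 * R ^ 2)).filter (fun w => R ^ 2 < nz w),
    bec q0 g w0 w * lam (w * v).re * psi D (Real.sqrt (nz (w * v)) / M)) ^ 2 ≤ C * L ^ 2 * R ^ 2 / (Real.log M) ^ A

open Classical in
/-- (IIX) the bilinear sums over classes -/
def S_IIX : Prop := ∀ (ε : ℝ) (A q0 : ℕ), 0 < ε → 1 ≤ q0 → ∃ C : ℝ, 0 < C ∧ ∀ (M L Y W : ℝ) (b0 v0 : ZI)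
  (lam : ℤ → ℝ), 3 ≤ M → IsCoprime b0 ((q0 : ℕ) : ZI) →
  M ^ (1 / 2 + ε) ≤ L → L ≤ M ^ (1 - ε) → (M / L) ^ 2 * M ^ (3 * ε) ≤ Y → M ^ (1 + ε) ≤ W → Lm L lam →
  |∑ b ∈ (bl (2 * M ^ 2)).filter (fun b => Y < nz b ∧ ((q0 : ℕ) : ZI) ∣ b - b0),
    ∑ v ∈ (bl (2 * M ^ 2)).filter (fun v => ((q0 : ℕ) : ZI) ∣ v - v0), mu b * aW W v * Fz lam M (b * v)| ≤
    C * L * M / (Real.log M) ^ A

open Classical in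
/-- the number of the `m ≡ m₀ (mod q₀)`, `|m| ≤ M`, with `a ∣ l + i m` -/
noncomputable def nmx (q0 : ℕ) (m0 : ℤ) (M : ℝ) (a : ZI) (l : ℤ) : ℝ :=
  (((Icc ⌈-M⌉ ⌊M⌋).filter (fun m : ℤ => (q0 : ℤ) ∣ m - m0 ∧ a ∣ (⟨l, m⟩ : ZI))).card : ℝ)

open Classical in
/-- the same with the weight `log m²` -/
noncomputable def nmlx (q0 : ℕ) (m0 : ℤ) (M : ℝ) (a : ZI) (l : ℤ) : ℝ :=
  ∑ m ∈ (Icc ⌈-M⌉ ⌊M⌋).filter (fun m : ℤ => (q0 : ℤ) ∣ m - m0 ∧ m ≠ 0 ∧ a ∣ (⟨l, m⟩ : ZI)), 2 * Real.log |(m : ℝ)|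

open Classical in
/-- (TIX) linear sums in a class -/
def S_TIX : Prop := ∀ (ε : ℝ) (q0 : ℕ), 0 < ε → 1 ≤ q0 → ∃ C : ℝ, 0 < C ∧ ∀ (M L D : ℝ) (m0 : ℤ) (lam : ℤ → ℝ), 2 ≤ M →
  1 ≤ L → L ≤ M ^ (1 - ε) → 1 ≤ D → D ≤ L * M ^ (1 - ε) → Lm L lam →
  ∑ a ∈ (bl D).filter (fun a => IsCoprime a ((q0 : ℕ) : ZI)), |∑ l ∈ Icc 1 ⌊L⌋, lam l *
    (nmx q0 m0 M a l - 2 * M / q0 * (kap l a / nz a))| ≤ C * L * M ^ (1 - ε / 10)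

open Classical in
/-- (TILX) linear sums in a class with a logarithmic weight -/
def S_TILX : Prop := ∀ (ε : ℝ) (q0 : ℕ), 0 < ε → 1 ≤ q0 → ∃ C : ℝ, 0 < C ∧ ∀ (M L D : ℝ) (m0 : ℤ) (lam : ℤ → ℝ),
  2 ≤ M → 1 ≤ L → L ≤ M ^ (1 - ε) → 1 ≤ D → D ≤ L * M ^ (1 - ε) → Lm L lam →
  ∑ a ∈ (bl D).filter (fun a => IsCoprime a ((q0 : ℕ) : ZI)), |∑ l ∈ Icc 1 ⌊L⌋, lam l *
    (nmlx q0 m0 M a l - 4 * M * (Real.log M - 1) / q0 * (kap l a / nz a))| ≤ C * L * M ^ (1 - ε / 20)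

/-- the factor of the singular series for a class modulo `q₀` -/
noncomputable def gq (q0 : ℕ) (l : ℤ) : ℝ := (q0 : ℝ) / (Nat.totient q0 : ℝ) /
  ∏ p ∈ q0.primeFactors.filter (fun p : ℕ => p ≠ 2 ∧ ¬ (p : ℤ) ∣ l),
    (1 - ((ZMod.χ₄ (p : ZMod 4) : ℤ) : ℝ) / ((p : ℝ) - 1))

open Classical in
/-- (MT1X) sums of the Moebius function with the densities, coprime to `q₀` -/
def S_MT1X : Prop := ∀ A q0 : ℕ, 1 ≤ q0 → ∃ C : ℝ, 0 < C ∧ ∀ (L y : ℝ), 1 ≤ L → 3 ≤ y →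
  ∑ l ∈ Icc 1 ⌊L⌋, |∑ b ∈ (bl y).filter (fun b => IsCoprime b ((q0 : ℕ) : ZI)), mu b * (kap l b / nz b)| ≤
    C * L / (Real.log y) ^ A ∧
  ∑ l ∈ Icc 1 ⌊L⌋, |1 / 4 * ∑ b ∈ (bl y).filter (fun b => IsCoprime b ((q0 : ℕ) : ZI)),
    mu b * (kap l b / nz b) * Real.log (nz b) + gq q0 l * SS l| ≤ C * L / (Real.log y) ^ A

open Classical in
/-- (MT2X) the sums with `Λ`, coprime to `q₀` -/
def S_MT2X : Prop := ∀ A q0 : ℕ, 1 ≤ q0 → ∃ C : ℝ, 0 < C ∧ ∀ (L y w : ℝ), 1 ≤ L → 3 ≤ y → 3 ≤ w →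
  ∑ l ∈ Icc 1 ⌊L⌋, |∑ b ∈ (bl y).filter (fun b => IsCoprime b ((q0 : ℕ) : ZI)),
    ∑ c ∈ (bl w).filter (fun c => IsCoprime c ((q0 : ℕ) : ZI)),
      mu b * LamK c * (kap l (b * c) / nz (b * c))| ≤ C * L * Real.log w / (Real.log y) ^ A

/-- (MAINX) the theorem on average over `l ≤ L`, in the class of `l₀ + i m₀` modulo `q₀` -/
def S_MAINX : Prop := ∀ (ε : ℝ) (A q0 : ℕ), 0 < ε → 1 ≤ q0 → ∃ C : ℝ, 0 < C ∧ ∀ (M L : ℝ) (l0 m0 : ℤ), 3 ≤ M →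
  IsCoprime (⟨l0, m0⟩ : ZI) ((q0 : ℕ) : ZI) → M ^ (2 / 3 + ε) ≤ L → L ≤ M ^ (1 - ε) →
  ∑ l ∈ (Icc 1 ⌊L⌋).filter (fun l => (q0 : ℤ) ∣ l - l0),
    |∑ m ∈ (Icc ⌈-M⌉ ⌊M⌋).filter (fun m => (q0 : ℤ) ∣ m - m0),
      ArithmeticFunction.vonMangoldt (l ^ 2 + m ^ 2).natAbs - 2 * M / q0 * (gq q0 l * SS l)| ≤
    C * L * M / (Real.log M) ^ A

end Pool.Agent.N782.GN
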