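import Pool.Agent.N782.GN.Defs

/-!
# Project GN (helper782), part V: the Moebius function of `ℤ[i]` in narrow sectors.  Statements.
-/

set_option autoImplicit false

namespace Pool.Agent.N782.GN

open Finset
open Pool.Agent.H304R3.HK (UH bb LamK)

/-- (EL) sums over classes modulo `q`, elementary -/
def S_EL : Prop := ∃ C : ℝ, 0 < C ∧ ∀ (k : ℤ) (τ : ℝ) (q : ℕ) (r : ZI) (Y : ℝ), 1 ≤ q → 1 ≤ Y →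
  ‖∑ t ∈ cls q r Y, ph k τ t - (if k = 0 then ((Real.pi / (q : ℝ) ^ 2 : ℝ) : ℂ) *
    ((Y : ℂ) ^ (1 - (τ : ℂ) * Complex.I) / (1 - (τ : ℂ) * Complex.I)) else 0)‖ ≤
    C * (1 + |(k : ℝ)| + |τ|) * Real.sqrt Y

/-- `exp (i (k arg ζ - 2 τ log |ζ|))` for complex `ζ` -/
noncomputable def Psi (k : ℤ) (τ : ℝ) (ζ : ℂ) : ℂ :=
  Complex.exp (Complex.I * (((k : ℝ) * Complex.arg ζ - 2 * τ * Real.log ‖ζ‖ : ℝ) : ℂ))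

/-- `-2 τ - i k` -/
noncomputable def cc (k : ℤ) (τ : ℝ) : ℂ := -(2 * τ : ℂ) - (k : ℂ) * Complex.I

open Classical in
/-- the good indices `2 κ ≤ j ≤ 3 κ + 1/2`: the real part of `c ω^j / ζ^j` is not small -/
noncomputable def Gj (κ : ℝ) (c ω ζ : ℂ) : Finset ℕ :=
  (Icc 1 (⌈5 * κ⌉₊ + 5)).filter fun j : ℕ => 2 * κ ≤ (j : ℝ) ∧ (j : ℝ) ≤ 3 * κ + 1 / 2 ∧
    1 / 4 * ‖c * ω ^ j / ζ ^ j‖ ≤ |(c * ω ^ j / ζ ^ j).re|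

/-- (LINE) Vinogradov's bound for the sums along a line -/
def S_LINE : Prop := ∃ C : ℕ, ∀ (N : ℕ) (κ : ℝ) (k : ℤ) (τ : ℝ) (ω ζ : ℂ) (J : ℕ), 2 ≤ N → 1 / 2 ≤ κ →
  ‖cc k τ‖ = (N : ℝ) ^ κ → (ω = 1 ∨ ω = Complex.I ∨ ω = 1 + Complex.I) → J ≤ N →
  (∀ n : ℕ, n < J → N * ‖ω‖ ≤ ‖ζ + n * ω‖ ∧ ‖ζ + n * ω‖ ≤ 2 * N * ‖ω‖ ∧
    κ / 16 ≤ ((Gj κ (cc k τ) ω (ζ + n * ω)).card : ℝ)) →
  ‖∑ n ∈ range J, Psi k τ (ζ + n * ω)‖ ≤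
    Real.exp (C * (1 + κ) ^ C) * (N : ℝ) ^ (1 - 1 / 10 ^ 12 / (1 + κ) ^ 2 : ℝ)

/-- (BX) Vinogradov's bound for the sums over squares -/
def S_BX : Prop := ∃ C : ℕ, ∀ (N : ℕ) (κ : ℝ) (k : ℤ) (τ : ℝ) (z₀ : ℂ) (H : ℕ), 2 ≤ N → 1 / 2 ≤ κ →
  ‖cc k τ‖ = (N : ℝ) ^ κ → 29 / 20 * (N : ℝ) ≤ ‖z₀‖ → ‖z₀‖ ≤ 39 / 20 * (N : ℝ) →
  (H : ℝ) ≤ N / (2000 * (κ + 1)) →
  ‖∑ a ∈ range H, ∑ b ∈ range H, Psi k τ (z₀ + a + b * Complex.I)‖ ≤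
    Real.exp (C * (1 + κ) ^ C) * (N : ℝ) ^ (2 - 1 / 10 ^ 12 / (1 + κ) ^ 2 : ℝ)

/-- (E) sums over classes modulo `q`, Vinogradov -/
def S_E : Prop := ∀ B : ℕ, ∃ a b T₀ : ℝ, 0 < a ∧ a < b ∧ b < 1 ∧ 3 ≤ T₀ ∧
  ∀ (T Y : ℝ) (k : ℤ) (τ : ℝ) (q : ℕ) (r : ZI), T₀ ≤ T → Real.exp ((Real.log T) ^ b) ≤ Y → k ≠ 0 →
  |(k : ℝ)| ≤ T → |τ| ≤ T → 1 ≤ q → (q : ℝ) ≤ (Real.log T) ^ B →
  ‖∑ t ∈ cls q r Y, ph k τ t‖ ≤ Y ^ (1 - (Real.log T) ^ (-a) : ℝ)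

/-- (GROW) growth near the line `Re s = 1` of a Dirichlet series with small partial sums -/
def S_GROW : Prop := ∃ C : ℝ, 1 ≤ C ∧ ∀ (f : ℕ → ℂ) (T x₀ η₀ C₀ : ℝ), 3 ≤ T → 3 ≤ x₀ → 0 < η₀ → η₀ ≤ 1 / 10 →
  f 0 = 0 → (∀ n : ℕ, ‖f n‖ ≤ n.divisors.card) → (∀ x : ℝ, 1 ≤ x → ‖ds f x 0‖ ≤ C₀ * x ^ (9 / 10 : ℝ)) →
  (∀ x t : ℝ, x₀ ≤ x → |t| ≤ T → ‖ds f x t‖ ≤ x ^ (1 - η₀)) →
  ∃ L : ℂ → ℂ, DifferentiableOn ℂ L {s | 9 / 10 < s.re} ∧ (∀ s : ℂ, 1 < s.re → L s = LSeries f s) ∧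
    ∀ s : ℂ, 1 - min (η₀ / 2) (1 / Real.log x₀) ≤ s.re → s.re ≤ 3 → |s.im| ≤ T →
      ‖L s‖ ≤ C * ((Real.log x₀) ^ 2 + 1 / η₀)

/-- (INVL) zero free region and bound for the inverse near the height `t` -/
def S_INVL : Prop := ∃ C : ℝ, 1 ≤ C ∧ ∀ (h : ZI →* ℂ), UH h → ∀ (t θ R : ℝ) (L1 L2 : ℂ → ℂ),
  0 < θ → θ ≤ 1 / 20 → 3 ≤ R →
  DifferentiableOn ℂ L1 {s | 1 - 4 * θ < s.re ∧ |s.im - t| < 4 * θ} →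
  (∀ s : ℂ, 1 < s.re → |s.im - t| < 4 * θ → L1 s = LSeries (bb h) s) →
  (∀ s : ℂ, 1 - 4 * θ < s.re → s.re ≤ 3 → |s.im - t| < 4 * θ → ‖L1 s‖ ≤ R) →
  DifferentiableOn ℂ L2 {s | 1 - 4 * θ < s.re ∧ |s.im - 2 * t| < 8 * θ} →
  (∀ s : ℂ, 1 < s.re → |s.im - 2 * t| < 8 * θ → L2 s = LSeries (bb (h * h)) s) →
  (∀ s : ℂ, 1 - 4 * θ < s.re → s.re ≤ 3 → |s.im - 2 * t| < 8 * θ → ‖L2 s‖ ≤ R) →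
  ∀ σ : ℝ, 1 - θ / (C * Real.log (R / θ)) ≤ σ → σ ≤ 2 →
    L1 ⟨σ, t⟩ ≠ 0 ∧ ‖(L1 ⟨σ, t⟩)⁻¹‖ ≤ (R / θ) ^ C

/-- (PER) Perron's formula for the inverse -/
def S_PER : Prop := ∃ C : ℝ, 1 ≤ C ∧ ∀ (h : ZI →* ℂ), UH h → ∀ (T w R x δ : ℝ) (L : ℂ → ℂ), 3 ≤ T → 0 < w →
  w ≤ 1 / 20 → 1 ≤ R → 2 ≤ x → 0 < δ → δ ≤ 1 → DifferentiableOn ℂ L {s | 1 - 2 * w < s.re} →
  (∀ s : ℂ, 1 < s.re → L s = LSeries (bb h) s) →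
  (∀ s : ℂ, 1 - w ≤ s.re → s.re ≤ 3 → |s.im| ≤ T → L s ≠ 0 ∧ ‖(L s)⁻¹‖ ≤ R) →
  ‖∑ n ∈ Icc 1 ⌊x⌋₊, bm h n‖ ≤ C * (δ * x * Real.log x + Real.sqrt x * Real.log x +
    x / δ * (R * x ^ (-w) + ((Real.log x) ^ 2 + R) / T))

/-- real characters modulo `q`, different from the principal one, trivial at `i` -/
structure RChi (q : ℕ) (χ : ZI →* ℂ) : Prop where
  chi : Chi q χ
  real : ∀ a : ZI, (χ a).im = 0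
  unit : χ ⟨0, 1⟩ = 1
  np : ∃ a : ZI, IsCoprime a ((q : ℕ) : ZI) ∧ χ a ≠ 1

/-- `L` is the continuation of the Dirichlet series of `χ` -/
structure IsL (χ : ZI →* ℂ) (L : ℂ → ℂ) : Prop where
  diff : DifferentiableOn ℂ L {s | 9 / 10 < s.re}
  eq : ∀ s : ℂ, 1 < s.re → L s = LSeries (bb χ) s

/-- (NZ) `L(1, χ) ≠ 0` -/
def S_NZ : Prop := ∀ (q : ℕ) (χ : ZI →* ℂ) (L : ℂ → ℂ), 1 ≤ q → RChi q χ → IsL χ L → L 1 ≠ 0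

/-- (SIEG) Siegel's theorem -/
def S_SIEG : Prop := ∀ ε : ℝ, 0 < ε → ∃ c : ℝ, 0 < c ∧ ∀ (q : ℕ) (χ : ZI →* ℂ) (L : ℂ → ℂ), 1 ≤ q →
  RChi q χ → IsL χ L → c * (q : ℝ) ^ (-ε) ≤ (L 1).re

/-- (PK) Moebius function twisted by a character with a frequency `k ≠ 0` -/
def S_PK : Prop := ∀ A B D : ℕ, ∃ C : ℝ, 0 < C ∧ ∀ (Y : ℝ) (q : ℕ) (χ : ZI →* ℂ) (k : ℤ), 2 ≤ Y → 1 ≤ q →
  (q : ℝ) ≤ (Real.log Y) ^ B → Chi q χ → k ≠ 0 → |(k : ℝ)| ≤ Y ^ D →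
  ‖∑ t ∈ bl Y, (mu t : ℂ) * (χ t * ph k 0 t)‖ ≤ C * Y / (Real.log Y) ^ A

/-- (P0A) Moebius function twisted by a nonprincipal character -/
def S_P0A : Prop := ∀ A B : ℕ, ∃ C : ℝ, 0 < C ∧ ∀ (Y : ℝ) (q : ℕ) (χ : ZI →* ℂ), 2 ≤ Y → 1 ≤ q →
  (q : ℝ) ≤ (Real.log Y) ^ B → Chi q χ → (∃ a : ZI, IsCoprime a ((q : ℕ) : ZI) ∧ χ a ≠ 1) →
  ‖∑ t ∈ bl Y, (mu t : ℂ) * χ t‖ ≤ C * Y / (Real.log Y) ^ A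

open Classical in
/-- (P0B) Moebius function and coprimality -/
def S_P0B : Prop := ∀ A B : ℕ, ∃ C : ℝ, 0 < C ∧ ∀ (Y : ℝ) (q : ℕ), 2 ≤ Y → 1 ≤ q → (q : ℝ) ≤ (Real.log Y) ^ B →
  |∑ t ∈ (bl Y).filter (fun t => IsCoprime t ((q : ℕ) : ZI)), mu t| ≤ C * Y / (Real.log Y) ^ A ∧
  |∑ t ∈ (bl Y).filter (fun t => IsCoprime t ((q : ℕ) : ZI)), mu t / nz t| ≤ C / (Real.log Y) ^ A

/-- (PC) Moebius function in the classes modulo `q`, with frequencies -/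
def S_PC : Prop := ∀ A B D : ℕ, ∃ C : ℝ, 0 < C ∧ ∀ (Y : ℝ) (q : ℕ) (r : ZI) (k : ℤ), 2 ≤ Y → 1 ≤ q →
  (q : ℝ) ≤ (Real.log Y) ^ B → IsCoprime r ((q : ℕ) : ZI) → |(k : ℝ)| ≤ Y ^ D →
  ‖∑ t ∈ cls q r Y, (mu t : ℂ) * ph k 0 t‖ ≤ C * Y / (Real.log Y) ^ A

/-- (LSB) the mean value theorem for the frequencies -/
def S_LSB : Prop := ∃ (C : ℝ) (D : ℕ), 0 < C ∧ ∀ (V : ℝ) (K : ℕ) (c : ZI → ℂ), 2 ≤ V → 1 ≤ K →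
  (∀ t, ‖c t‖ ≤ (dv t : ℝ) ^ 2) →
  ∑ k ∈ Icc (-(K : ℤ)) K, ‖∑ t ∈ bl V, c t * ph k 0 t‖ ^ 2 ≤ C * (K + V) * V * (Real.log V) ^ D

open Classical in
/-- the indicator of the sector `x ≤ arg t < x + δ` (modulo `2π`) -/
noncomputable def sc (δ x : ℝ) (t : ZI) : ℝ :=
  if ∃ j : ℤ, x ≤ Complex.arg (t : ℂ) + 2 * Real.pi * j ∧ Complex.arg (t : ℂ) + 2 * Real.pi * j < x + δ then 1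
  else 0

/-- (FT) from sectors to frequencies -/
def S_FT : Prop := ∃ (C : ℝ) (D : ℕ), 0 < C ∧ ∀ (V δ : ℝ) (K : ℕ) (c : ZI → ℝ), 2 ≤ V → 0 < δ → δ ≤ 1 → 1 ≤ K →
  (∀ t, |c t| ≤ (dv t : ℝ) ^ 2) →
  ∫ x in (0 : ℝ)..(2 * Real.pi), (∑ t ∈ bl V, c t * sc δ x t) ^ 2 ≤
    C * (δ ^ 2 * ∑ k ∈ Icc (-(K : ℤ)) K, ‖∑ t ∈ bl V, (c t : ℂ) * ph k 0 t‖ ^ 2 +
      V * (Real.log V) ^ D * (1 / K + V / K ^ 2))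

open Classical in
/-- (MB1) the Moebius function in almost all narrow sectors, in coprime classes -/
def S_MB1 : Prop := ∀ (ε : ℝ) (A B : ℕ), 0 < ε → ∃ C : ℝ, 0 < C ∧ ∀ (V δ Y1 Y2 : ℝ) (q : ℕ) (r : ZI), 2 ≤ V →
  V ^ (-(1 / 2) + ε : ℝ) ≤ δ → δ ≤ 1 → 0 ≤ Y1 → Y1 ≤ Y2 → Y2 ≤ V → 1 ≤ q → (q : ℝ) ≤ (Real.log V) ^ B →
  IsCoprime r ((q : ℕ) : ZI) →
  ∫ x in (0 : ℝ)..(2 * Real.pi), (∑ t ∈ (cls q r Y2).filter (fun t => Y1 < nz t), mu t * sc δ x t) ^ 2 ≤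
    C * δ ^ 2 * V ^ 2 / (Real.log V) ^ A

open Classical in
/-- `μ(w)` for `w` primitive and coprime to `g` -/
noncomputable def be (g : ℕ) (w : ZI) : ℝ :=
  if ct w = 1 ∧ IsCoprime w ((g : ℕ) : ZI) then mu w else 0

open Classical in
/-- (MB) the Moebius function in almost all narrow sectors, in all classes, restricted to primitive numbers coprime
to `g` -/
def S_MB : Prop := ∀ (ε : ℝ) (A B : ℕ), 0 < ε → ∃ C : ℝ, 0 < C ∧ ∀ (V δ Y1 Y2 : ℝ) (q g : ℕ) (r : ZI), 2 ≤ V →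
  V ^ (-(1 / 2) + ε : ℝ) ≤ δ → δ ≤ 1 → 0 ≤ Y1 → Y1 ≤ Y2 → Y2 ≤ V → 1 ≤ q → (q : ℝ) ≤ (Real.log V) ^ B →
  1 ≤ g → (g : ℝ) ≤ (Real.log V) ^ B →
  ∫ x in (0 : ℝ)..(2 * Real.pi), (∑ t ∈ (cls q r Y2).filter (fun t => Y1 < nz t), be g t * sc δ x t) ^ 2 ≤
    C * δ ^ 2 * V ^ 2 / (Real.log V) ^ A

end Pool.Agent.N782.GN
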