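import Pool.Agent.N782.GN.StmT

/-!
# Project GN (helper782): assembly, part A: from sums over `ℤ[i]` to sums over `(l, m)`.
-/

set_option autoImplicit false

namespace Pool.Agent.N782.GN

open Finset Filter Topology
open Pool.Agent.H304R3.HK (UH bb LamK)

theorem one_le_nz {z : ZI} (hz : z ≠ 0) : 1 ≤ nz z := by
  have h1 : 0 ≤ Zsqrtd.norm z := GaussianInt.norm_nonneg z
  have h2 : Zsqrtd.norm z ≠ 0 := by
    intro h
    exact hz (GaussianInt.norm_eq_zero.1 h)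
  have h3 : 1 ≤ Zsqrtd.norm z := by omega
  unfold nz
  exact_mod_cast h3

theorem nz_mul (a b : ZI) : nz (a * b) = nz a * nz b := by
  unfold nz
  rw [Zsqrtd.norm_mul]
  push_cast
  ring

theorem nz_mk (l m : ℤ) : nz (⟨l, m⟩ : ZI) = (l : ℝ) ^ 2 + (m : ℝ) ^ 2 := nz_eq _

theorem mem_box {L : ℝ} {l : ℤ} : l ∈ Icc 1 ⌊L⌋ ↔ 1 ≤ l ∧ (l : ℝ) ≤ L := by
  rw [mem_Icc, Int.le_floor]

theorem mem_box2 {M : ℝ} {m : ℤ} : m ∈ Icc ⌈-M⌉ ⌊M⌋ ↔ |(m : ℝ)| ≤ M := by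
  rw [mem_Icc, Int.le_floor, Int.ceil_le, abs_le]

theorem Lm.zero {L : ℝ} {lam : ℤ → ℝ} (h : Lm L lam) {l : ℤ} (hl : l ∉ Icc 1 ⌊L⌋) : lam l = 0 := by
  apply h.2
  by_contra hc
  push Not at hc
  exact hl (mem_box.2 ⟨by omega, hc.2⟩)

theorem Fz_zero {L M X : ℝ} {lam : ℤ → ℝ} (h : Lm L lam) (hLM : L ≤ M) (hX : 2 * M ^ 2 ≤ X) {z : ZI}
    (hz : X < nz z) : Fz lam M z = 0 := by
  unfold Fz
  split_ifs with h1
  · apply h.zero
    intro h2
    rw [mem_box] at h2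
    have h3 : (1 : ℝ) ≤ z.re := by exact_mod_cast h2.1
    rw [nz_eq] at hz
    have h4 : (z.im : ℝ) ^ 2 ≤ M ^ 2 := by
      rw [← sq_abs]
      exact pow_le_pow_left₀ (abs_nonneg _) h1 2
    have h5 : (z.re : ℝ) ^ 2 ≤ M ^ 2 := pow_le_pow_left₀ (by linarith) (h2.2.trans hLM) 2
    linarith
  · rfl

theorem sum_box {L M : ℝ} {lam : ℤ → ℝ} (h : Lm L lam) (hLM : L ≤ M) (G : ZI → ℝ) :
    ∑ z ∈ bl (2 * M ^ 2), G z * Fz lam M z =
      ∑ l ∈ Icc 1 ⌊L⌋, ∑ m ∈ Icc ⌈-M⌉ ⌊M⌋, lam l * G (⟨l, m⟩ : ZI) := by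
  rw [← Finset.sum_product']
  symm
  apply Finset.sum_of_injOn (fun p : ℤ × ℤ => (⟨p.1, p.2⟩ : ZI))
  · rintro ⟨a, b⟩ - ⟨c, d⟩ - hab
    simp only [Zsqrtd.mk.injEq] at hab
    rw [Prod.mk.injEq]
    exact hab
  · rintro ⟨l, m⟩ hlm
    rw [mem_coe, mem_product] at hlm
    obtain ⟨h1, h2⟩ := hlm
    simp only at h1 h2
    rw [mem_box] at h1
    rw [mem_box2] at h2
    rw [mem_coe, mem_bl]
    constructor
    · intro h0
      have h3 := congrArg Zsqrtd.re h0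
      simp only [Zsqrtd.re_zero] at h3
      omega
    · have h3 : (1 : ℝ) ≤ l := by exact_mod_cast h1.1
      rw [nz_mk]
      have h4 : (m : ℝ) ^ 2 ≤ M ^ 2 := by
        rw [← sq_abs]
        exact pow_le_pow_left₀ (abs_nonneg _) h2 2
      have h5 : (l : ℝ) ^ 2 ≤ M ^ 2 := pow_le_pow_left₀ (by linarith) (h1.2.trans hLM) 2
      linarith
  · intro z hz hne
    have h1 : Fz lam M z = 0 := by
      unfold Fz
      split_ifs with h1
      · apply h.zero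
        intro h2
        apply hne
        refine ⟨(z.re, z.im), ?_, rfl⟩
        rw [mem_coe, mem_product]
        exact ⟨h2, mem_box2.2 h1⟩
      · rfl
    rw [h1, mul_zero]
  · rintro ⟨l, m⟩ hlm
    rw [mem_product] at hlm
    have h2 : |(m : ℝ)| ≤ M := mem_box2.1 hlm.2
    simp only [Fz, h2, if_true]
    ring

open Classical in
theorem sum_dvd {L M : ℝ} {lam : ℤ → ℝ} (h : Lm L lam) (hLM : L ≤ M) {b : ZI} (hb : b ≠ 0) (k : ZI → ℝ) :
    ∑ u ∈ bl (2 * M ^ 2), k (b * u) * Fz lam M (b * u) =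
      ∑ l ∈ Icc 1 ⌊L⌋, lam l * ∑ m ∈ (Icc ⌈-M⌉ ⌊M⌋).filter (fun m : ℤ => b ∣ (⟨l, m⟩ : ZI)), k (⟨l, m⟩ : ZI) := by
  have h1 : ∑ u ∈ bl (2 * M ^ 2), k (b * u) * Fz lam M (b * u) =
      ∑ z ∈ bl (2 * M ^ 2), (if b ∣ z then k z else 0) * Fz lam M z := by
    have h2 : ∑ u ∈ bl (2 * M ^ 2), k (b * u) * Fz lam M (b * u) =
        ∑ u ∈ (bl (2 * M ^ 2)).filter (fun u => nz (b * u) ≤ 2 * M ^ 2), k (b * u) * Fz lam M (b * u) := by
      rw [sum_filter]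
      refine sum_congr rfl fun u _ => ?_
      split_ifs with h3
      · rfl
      · rw [Fz_zero h hLM le_rfl (not_le.1 h3), mul_zero]
    rw [h2]
    apply Finset.sum_of_injOn (fun u => b * u)
    · intro u _ v _ huv
      exact mul_left_cancel₀ hb huv
    · intro u hu
      rw [mem_coe, mem_filter, mem_bl] at hu
      rw [mem_coe, mem_bl]
      exact ⟨mul_ne_zero hb hu.1.1, hu.2⟩
    · intro z hz hne
      rw [mem_bl] at hz
      split_ifs with h3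
      · exfalso
        obtain ⟨u, rfl⟩ := h3
        apply hne
        refine ⟨u, ?_, rfl⟩
        rw [mem_coe, mem_filter, mem_bl]
        have hu : u ≠ 0 := right_ne_zero_of_mul hz.1
        refine ⟨⟨hu, ?_⟩, hz.2⟩
        refine le_trans ?_ hz.2
        rw [nz_mul]
        nlinarith [one_le_nz hb, nz_nonneg u]
      · rw [zero_mul]
    · intro u _
      rw [if_pos (dvd_mul_right b u)]
  rw [h1, sum_box h hLM]
  refine sum_congr rfl fun l _ => ?_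
  rw [mul_sum, sum_filter]
  refine sum_congr rfl fun m _ => ?_
  split_ifs <;> simp

/-- the error of the linear sums -/
noncomputable def er1 (M L : ℝ) (lam : ℤ → ℝ) (a : ZI) : ℝ :=
  ∑ l ∈ Icc 1 ⌊L⌋, lam l * (nm M a l - 2 * M * (kap l a / nz a))

noncomputable def er2 (M L : ℝ) (lam : ℤ → ℝ) (a : ZI) : ℝ :=
  ∑ l ∈ Icc 1 ⌊L⌋, lam l * (nml M a l - 4 * M * (Real.log M - 1) * (kap l a / nz a))

open Classical in
/-- the difference between `log (l² + m²)` and `log m²` -/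
noncomputable def er3 (M L : ℝ) (lam : ℤ → ℝ) (a : ZI) : ℝ :=
  ∑ l ∈ Icc 1 ⌊L⌋, lam l * ∑ m ∈ (Icc ⌈-M⌉ ⌊M⌋).filter (fun m : ℤ => a ∣ (⟨l, m⟩ : ZI)),
    (Real.log (nz (⟨l, m⟩ : ZI)) - 2 * Real.log |(m : ℝ)|)

theorem sum_one {L M : ℝ} {lam : ℤ → ℝ} (h : Lm L lam) (hLM : L ≤ M) {b : ZI} (hb : b ≠ 0) :
    ∑ u ∈ bl (2 * M ^ 2), Fz lam M (b * u) =
      er1 M L lam b + ∑ l ∈ Icc 1 ⌊L⌋, lam l * (2 * M * (kap l b / nz b)) := by
  have h1 := sum_dvd h hLM hb (fun _ => 1)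
  simp only [one_mul] at h1
  rw [h1, er1, ← sum_add_distrib]
  refine sum_congr rfl fun l _ => ?_
  rw [← mul_add]
  congr 1
  unfold nm
  rw [sum_const, nsmul_eq_mul, mul_one]
  ring

theorem sum_log {L M : ℝ} {lam : ℤ → ℝ} (h : Lm L lam) (hLM : L ≤ M) {b : ZI} (hb : b ≠ 0) :
    ∑ u ∈ bl (2 * M ^ 2), Real.log (nz u) * Fz lam M (b * u) =
      er2 M L lam b + er3 M L lam b - Real.log (nz b) * er1 M L lam b +
        ∑ l ∈ Icc 1 ⌊L⌋, lam l * ((kap l b / nz b) *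
          (4 * M * (Real.log M - 1) - 2 * M * Real.log (nz b))) := by
  classical
  have h0 : ∑ u ∈ bl (2 * M ^ 2), Real.log (nz u) * Fz lam M (b * u) =
      ∑ u ∈ bl (2 * M ^ 2), (Real.log (nz (b * u)) - Real.log (nz b)) * Fz lam M (b * u) := by
    refine sum_congr rfl fun u hu => ?_
    rw [mem_bl] at hu
    have h1 := one_le_nz hb
    have h2 := one_le_nz hu.1
    rw [nz_mul, Real.log_mul (by linarith) (by linarith)]
    ring
  rw [h0, sum_dvd h hLM hb (fun z => Real.log (nz z) - Real.log (nz b)), er1, er2, er3, mul_sum,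
    ← sum_add_distrib, ← sum_sub_distrib, ← sum_add_distrib]
  refine sum_congr rfl fun l _ => ?_
  have e1 : ∑ m ∈ (Icc ⌈-M⌉ ⌊M⌋).filter (fun m : ℤ => b ∣ (⟨l, m⟩ : ZI)),
      (Real.log (nz (⟨l, m⟩ : ZI)) - Real.log (nz b)) =
      ∑ m ∈ (Icc ⌈-M⌉ ⌊M⌋).filter (fun m : ℤ => b ∣ (⟨l, m⟩ : ZI)),
        (Real.log (nz (⟨l, m⟩ : ZI)) - 2 * Real.log |(m : ℝ)|) + nml M b l - nm M b l * Real.log (nz b) := by
    have e2 : nml M b l = ∑ m ∈ (Icc ⌈-M⌉ ⌊M⌋).filter (fun m : ℤ => b ∣ (⟨l, m⟩ : ZI)),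
        2 * Real.log |(m : ℝ)| := by
      unfold nml
      rw [sum_filter, sum_filter]
      refine sum_congr rfl fun m _ => ?_
      by_cases hm : m = 0
      · subst hm
        simp
      · by_cases hd : b ∣ (⟨l, m⟩ : ZI) <;> simp [hm, hd]
    rw [e2, ← sum_add_distrib]
    unfold nm
    rw [sum_sub_distrib, sum_const, nsmul_eq_mul]
    congr 1
    refine sum_congr rfl fun m _ => ?_
    ring
  rw [e1]
  ring

end Pool.Agent.N782.GN
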