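import Pool.Agent.N782.GN.FinD
import Pool.Agent.N782.GN.MainA

/-!
# Project GN (helper782): the Hardy–Littlewood formula for the primes `l² + m²` for almost all `l`
-/

set_option autoImplicit false

namespace Pool.Agent.N782.GN

open Finset Filter Topology

theorem sum_int_nat (F : ℤ → ℝ) (t : ℕ) : ∑ m ∈ Icc (1 : ℤ) t, F m = ∑ m ∈ Icc 1 t, F (m : ℤ) := by
  symm
  apply sum_nbij (fun m : ℕ => (m : ℤ))
  · intro m hm
    rw [mem_Icc] at hm ⊢
    omega
  · intro a _ b _ h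
    simpa using h
  · intro m hm
    rw [coe_Icc, Set.mem_Icc] at hm
    refine ⟨m.toNat, ?_, ?_⟩
    · rw [coe_Icc, Set.mem_Icc]
      omega
    · simp only
      omega
  · intro m _
    rfl

/-- the sum of `Λ(l² + m²)`, `1 ≤ m ≤ y` -/
noncomputable def f1 (l : ℤ) (y : ℝ) : ℝ := ∑ m ∈ Icc 1 ⌊y⌋, ArithmeticFunction.vonMangoldt (l ^ 2 + m ^ 2).natAbs

theorem f1_nat (l t : ℕ) : f1 l t = TT (fun _ => 1) l t := by
  unfold f1 TT
  rw [Int.floor_natCast, sum_int_nat]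
  refine sum_congr rfl fun m _ => ?_
  rw [one_mul]
  congr 1

theorem f1_mono (l : ℤ) (y z : ℝ) (h : y ≤ z) : f1 l y ≤ f1 l z := by
  unfold f1
  apply sum_le_sum_of_subset_of_nonneg
  · exact Icc_subset_Icc le_rfl (Int.floor_le_floor h)
  · intro m _ _
    exact ArithmeticFunction.vonMangoldt_nonneg

theorem f1_triv (l : ℤ) (M : ℝ) (hM : 3 ≤ M) (hl1 : 1 ≤ l) (hl : (l : ℝ) ≤ M) : f1 l M ≤ 3 * M * Real.log M := by
  unfold f1
  have hlog : 0 ≤ Real.log M := Real.log_nonneg (by linarith)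
  have h1 : ∀ m ∈ Icc 1 ⌊M⌋, ArithmeticFunction.vonMangoldt (l ^ 2 + m ^ 2).natAbs ≤ 3 * Real.log M := by
    intro m hm
    rw [mem_Icc, Int.le_floor] at hm
    refine ArithmeticFunction.vonMangoldt_le_log.trans ?_
    have hl' : (1 : ℝ) ≤ l := by exact_mod_cast hl1
    have hm' : (1 : ℝ) ≤ m := by exact_mod_cast hm.1
    have h2 : (((l ^ 2 + m ^ 2 : ℤ).natAbs : ℕ) : ℝ) = (l : ℝ) ^ 2 + (m : ℝ) ^ 2 := by
      rw [Nat.cast_natAbs]
      push_cast
      rw [abs_of_nonneg (by positivity)]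
    rw [h2]
    have h3 : (l : ℝ) ^ 2 + (m : ℝ) ^ 2 ≤ M ^ 3 := by
      have h4 : (l : ℝ) ^ 2 ≤ M ^ 2 := pow_le_pow_left₀ (by linarith) hl 2
      have h5 : (m : ℝ) ^ 2 ≤ M ^ 2 := pow_le_pow_left₀ (by linarith) hm.2 2
      nlinarith [sq_nonneg M]
    calc Real.log ((l : ℝ) ^ 2 + (m : ℝ) ^ 2) ≤ Real.log (M ^ 3) := Real.log_le_log (by positivity) h3
      _ = 3 * Real.log M := by
        rw [Real.log_pow]
        push_cast
        ring
  refine (sum_le_sum h1).trans ?_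
  rw [sum_const, nsmul_eq_mul, Int.card_Icc, show ⌊M⌋ + 1 - 1 = ⌊M⌋ by ring]
  have h5 : ((⌊M⌋.toNat : ℕ) : ℤ) = ⌊M⌋ := Int.toNat_of_nonneg (Int.floor_nonneg.2 (by linarith))
  have h6 : ((⌊M⌋.toNat : ℕ) : ℝ) = (⌊M⌋ : ℝ) := by exact_mod_cast h5
  rw [h6]
  calc (⌊M⌋ : ℝ) * (3 * Real.log M) ≤ M * (3 * Real.log M) :=
        mul_le_mul_of_nonneg_right (Int.floor_le M) (by positivity)
    _ = _ := by ring

theorem avg1 (hM : S_MAIN) (hs : S_SSL) : Avg (fun L => Icc 1 ⌊L⌋) f1 SS where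
  mono := f1_mono
  s0 := fun L l hl => by
    rw [mem_box] at hl
    exact (hs l (by omega)).2.le
  triv := ⟨3, by norm_num, fun L M hM3 hLM l hl => by
    rw [mem_box] at hl
    exact f1_triv l M hM3 hl.1 (hl.2.trans hLM)⟩
  avg := fun ε A hε => by
    obtain ⟨C, hC, h⟩ := hM ε A hε
    exact ⟨C, hC, fun M L h1 h2 h3 => h M L h1 h2 h3⟩

open Classical in
/-- **for almost all `l ≤ L`** -/
theorem almost_all (hM : S_MAIN) (hs : S_SSL) (ε : ℝ) (A : ℕ) (hε : 0 < ε) : ∃ L₀ : ℝ, 3 ≤ L₀ ∧ ∀ L : ℝ, L₀ ≤ L →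
    (((Icc 1 ⌊L⌋₊).filter (fun l : ℕ => ¬ ∀ u : ℝ, L ^ (1 + ε) ≤ u → u ≤ L ^ (3 / 2 - ε) →
      |PP (fun _ => 1) l ⌊u⌋₊ - SS l * ∫ t in (2 : ℝ)..u, 1 / (2 * Real.log t)| ≤ u / (Real.log L) ^ A)).card : ℝ) ≤
      L / (Real.log L) ^ A := by
  obtain ⟨L₁, h1⟩ := (avg1 hM hs).grid (ε / 2) (A + 1) (by positivity)
  obtain ⟨L₂, hL₂, h2⟩ := conv ε A 7 hε (by norm_num)
  obtain ⟨L₃, h3⟩ := eventually_atTop.1 (ev_rpow_ge (ε / 2) 2 (by positivity))
  refine ⟨max (max L₁ L₂) L₃, le_trans hL₂ (le_trans (le_max_right _ _) (le_max_left _ _)), fun L hL => ?_⟩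
  have hLL1 : L₁ ≤ L := (le_trans (le_max_left _ _) (le_max_left _ _)).trans hL
  have hLL2 : L₂ ≤ L := (le_trans (le_max_right _ _) (le_max_left _ _)).trans hL
  have hLL3 : L₃ ≤ L := (le_max_right _ _).trans hL
  have hL3 : 3 ≤ L := hL₂.trans hLL2
  have hL0 : 0 < L := by linarith
  have hL1 : 1 ≤ L := by linarith
  have hlog : 1 ≤ Real.log L := by
    rw [Real.le_log_iff_exp_le hL0]
    have := Real.exp_one_lt_d9
    linarith
  have hq := h3 L hLL3
  by_cases hε4 : 1 / 4 < ε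
  · rw [filter_false_of_mem]
    · rw [card_empty]
      push_cast
      positivity
    · intro l _
      rw [not_not]
      intro u h4 h5
      exfalso
      have h6 : L ^ (3 / 2 - ε) < L ^ (1 + ε) := Real.rpow_lt_rpow_of_exponent_lt (by linarith) (by linarith)
      linarith
  push Not at hε4
  have key := h1 L hLL1
  have hsub : (((Icc 1 ⌊L⌋₊).filter (fun l : ℕ => ¬ ∀ u : ℝ, L ^ (1 + ε) ≤ u → u ≤ L ^ (3 / 2 - ε) →
      |PP (fun _ => 1) l ⌊u⌋₊ - SS l * ∫ t in (2 : ℝ)..u, 1 / (2 * Real.log t)| ≤ u / (Real.log L) ^ A)).card : ℝ) ≤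
      ((((fun L : ℝ => Icc (1 : ℤ) ⌊L⌋) L).filter (fun l => ¬ ∀ u : ℝ, L ^ (1 + ε / 2) ≤ u → u ≤ L ^ (3 / 2 - ε / 2) →
        |f1 l u - u * SS l| ≤ u / (Real.log L) ^ (A + 1))).card : ℝ) := by
    rw [Nat.cast_le]
    apply card_le_card_of_injOn (fun l : ℕ => (l : ℤ))
    · intro l hl
      rw [mem_coe, mem_filter, mem_Icc] at hl
      obtain ⟨⟨hl1, hlL⟩, hl⟩ := hl
      rw [Nat.le_floor_iff hL0.le] at hlL
      simp only [mem_coe, mem_filter]
      rw [mem_box]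
      refine ⟨⟨by exact_mod_cast hl1, by exact_mod_cast hlL⟩, ?_⟩
      intro hg
      apply hl
      -- the bound for the singular series
      have hSS := (hs (l : ℤ) (by omega)).2
      set t0 : ℝ := L ^ (1 + ε / 2) with ht0
      have hLt0 : L ≤ t0 := by
        calc L = L ^ (1 : ℝ) := (Real.rpow_one L).symm
          _ ≤ _ := Real.rpow_le_rpow_of_exponent_le hL1 (by linarith)
      have ht03 : 3 ≤ t0 := by linarith
      have hK : SS (l : ℤ) ≤ 7 * Real.log L := by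
        have e1 := hg t0 le_rfl (Real.rpow_le_rpow_of_exponent_le hL1 (by linarith))
        have e2 := f1_triv (l : ℤ) t0 ht03 (by omega) (by
          push_cast
          linarith)
        have e3 : Real.log t0 ≤ 2 * Real.log L := by
          rw [ht0, Real.log_rpow hL0]
          nlinarith
        have e4 : t0 / (Real.log L) ^ (A + 1) ≤ t0 := div_le_self (by linarith) (one_le_pow₀ hlog)
        rw [abs_le] at e1
        have e5 : t0 * SS (l : ℤ) ≤ t0 * (7 * Real.log L) := by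
          have e6 : 3 * t0 * Real.log t0 ≤ 3 * t0 * (2 * Real.log L) := mul_le_mul_of_nonneg_left e3 (by linarith)
          have e7 : t0 ≤ t0 * Real.log L := by nlinarith
          nlinarith [e1.1]
        exact le_of_mul_le_mul_left e5 (by linarith)
      exact h2 L hLL2 l (SS (l : ℤ)) (fun _ => 1) hl1 hlL hSS.le hK (fun _ => by norm_num) (fun t ht1 ht2 => by
        have e1 := hg t ht1 (ht2.trans (Real.rpow_le_rpow_of_exponent_le hL1 (by linarith)))
        rw [f1_nat] at e1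
        exact e1)
    · intro a _ b _ h
      simpa using h
  refine hsub.trans (key.trans ?_)
  apply div_le_div_of_nonneg_left hL0.le (by positivity)
  exact pow_le_pow_right₀ hlog (by omega)

end Pool.Agent.N782.GN
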