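import Pool.Agent.N782.GN.MainXB

/-!
# Project GN (helper782), stage 2: assembly for a class modulo `q₀`, part C: the end of the proof of `S_MAINX`
-/

set_option autoImplicit false

namespace Pool.Agent.N782.GN

open Finset Filter Topology
open Pool.Agent.H304R3.HK (UH bb LamK)

theorem cop_left {q : ℕ} {b0 v0 z0 : ZI} (hc : IsCoprime z0 ((q : ℕ) : ZI)) (hd : ((q : ℕ) : ZI) ∣ b0 * v0 - z0) :
    IsCoprime b0 ((q : ℕ) : ZI) := by
  obtain ⟨c, hc'⟩ := hd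
  have h5 : b0 * v0 = z0 + ((q : ℕ) : ZI) * c := by
    rw [← hc']
    ring
  have h6 : IsCoprime (b0 * v0) ((q : ℕ) : ZI) := by
    rw [h5]
    exact IsCoprime.add_mul_left_left hc c
  exact h6.of_mul_left_left

theorem V3x_le (hii : S_IIX) (ε : ℝ) (A q : ℕ) (hε : 0 < ε) (hq : 1 ≤ q) :
    ∃ C : ℝ, 0 < C ∧ ∀ (M L : ℝ) (l0 m0 : ℤ) (lam : ℤ → ℝ), Pr ε M L → IsCoprime (⟨l0, m0⟩ : ZI) ((q : ℕ) : ZI) →
      Lm L lam → Sl q l0 lam →
      |V3x q m0 M (Yp ε M L) (Wp ε M) lam| ≤ C * (L * M / (Real.log M) ^ A) := by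
  classical
  obtain ⟨C3, hC3, h3⟩ := hii (ε / 8) A q (by positivity) hq
  refine ⟨((q : ℝ) ^ 2 * (q : ℝ) ^ 2 + 1) * C3, by positivity, fun M L l0 m0 lam hP hc hlam hs => ?_⟩
  rw [V3x_eq hq hs hc]
  have hM := hP.hM
  have hlog := hP.hlog
  have hL := hP.hL
  have he0 := hP.e0
  have he1 := hP.e1
  have hX : 0 ≤ L * M / (Real.log M) ^ A := by positivity
  refine (abs_sum_le_sum_abs _ _).trans ?_
  have h4 : ∀ p ∈ ((reps q) ×ˢ (reps q)).filter (fun p : ZI × ZI => ((q : ℕ) : ZI) ∣ p.1 * p.2 - ⟨l0, m0⟩),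
      |∑ b ∈ (bl (2 * M ^ 2)).filter (fun b => Yp ε M L < nz b ∧ ((q : ℕ) : ZI) ∣ b - p.1),
        ∑ v ∈ (bl (2 * M ^ 2)).filter (fun v => ((q : ℕ) : ZI) ∣ v - p.2), mu b * aW (Wp ε M) v * Fz lam M (b * v)| ≤
      C3 * (L * M / (Real.log M) ^ A) := by
    intro p hp
    rw [mem_filter] at hp
    have h5 := h3 M L (Yp ε M L) (Wp ε M) p.1 p.2 lam hP.M3 (cop_left hc hp.2) ?_ ?_ ?_ ?_ hlam
    · refine h5.trans (le_of_eq ?_)
      rw [mul_assoc, mul_div_assoc]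
    · refine le_trans (Real.rpow_le_rpow_of_exponent_le hM ?_) hP.L1
      linarith
    · refine hP.L2.trans (Real.rpow_le_rpow_of_exponent_le hM ?_)
      linarith
    · exact le_rfl
    · exact le_rfl
  refine (sum_le_sum h4).trans ?_
  rw [sum_const, nsmul_eq_mul]
  have h5 : ((((reps q) ×ˢ (reps q)).filter (fun p : ZI × ZI => ((q : ℕ) : ZI) ∣ p.1 * p.2 - ⟨l0, m0⟩)).card : ℝ) ≤
      (q : ℝ) ^ 2 * (q : ℝ) ^ 2 := by
    calc _ ≤ ((((reps q) ×ˢ (reps q)).card : ℕ) : ℝ) := by exact_mod_cast card_filter_le _ _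
      _ = ((reps q).card : ℝ) * ((reps q).card : ℝ) := by
        rw [card_product]
        push_cast
        ring
      _ ≤ _ := mul_le_mul (card_reps q) (card_reps q) (by positivity) (by positivity)
  calc _ ≤ (q : ℝ) ^ 2 * (q : ℝ) ^ 2 * (C3 * (L * M / (Real.log M) ^ A)) :=
        mul_le_mul_of_nonneg_right h5 (by positivity)
    _ ≤ ((q : ℝ) ^ 2 * (q : ℝ) ^ 2 + 1) * (C3 * (L * M / (Real.log M) ^ A)) := by
        refine mul_le_mul_of_nonneg_right (by linarith) (by positivity)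
    _ = _ := by ring

/-- all the errors of Vaughan's identity -/
theorem err_allx (hm : S_MUB) (hd : S_DVB) (hii : S_IIX) (hti : S_TIX) (htil : S_TILX) (ε : ℝ) (A q : ℕ) (hε : 0 < ε)
    (hq : 1 ≤ q) : ∃ C : ℝ, 0 < C ∧ ∀ (M L : ℝ) (l0 m0 : ℤ) (lam : ℤ → ℝ), Pr ε M L →
      IsCoprime (⟨l0, m0⟩ : ZI) ((q : ℕ) : ZI) → Lm L lam → Sl q l0 lam →
      |V0x q m0 M (Wp ε M) lam + 1 / 4 * V1x q m0 M L (Yp ε M L) lam -
        1 / 16 * V2x q m0 M L (Yp ε M L) (Wp ε M) lam +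
        1 / 16 * V3x q m0 M (Yp ε M L) (Wp ε M) lam| ≤ C * (L * M / (Real.log M) ^ A) := by
  classical
  obtain ⟨C3, hC3, h3⟩ := V3x_le hii ε A q hε hq
  obtain ⟨C1, hC1, h1⟩ := hti ε q hε hq
  obtain ⟨C2, hC2, h2⟩ := htil ε q hε hq
  obtain ⟨K, hK, hdv⟩ := hd (ε / 4) (by positivity)
  obtain ⟨C4, hC4, h4⟩ := pow_log (ε / 20) (A + 1) (by positivity)
  refine ⟨C4 * (6 + (C2 + 12 * K + 2 * C1) + 8 * C1) + C3, by positivity, fun M L l0 m0 lam hP hc hlam hs => ?_⟩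
  have hM := hP.hM
  have hL := hP.hL
  have hM0 : 0 < M := by linarith
  have hlog := hP.hlog
  have hM3 := hP.M3
  set W := Wp ε M with hWd
  set Y := Yp ε M L with hYd
  set ℓ := Real.log M with hℓ
  set Q : ℝ := L * M ^ (1 - ε / 20) * ℓ with hQ
  have hQ0 : 0 < Q := by positivity
  have hQA : Q ≤ C4 * (L * M / ℓ ^ A) := by
    have h5 := h4 M hM
    have h6 : ℓ * ℓ ^ A ≤ C4 * M ^ (ε / 20) := by
      refine le_trans (le_of_eq ?_) h5
      rw [pow_succ]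
      ring
    rw [hQ, mul_div_assoc', le_div_iff₀ (by positivity)]
    calc L * M ^ (1 - ε / 20) * ℓ * ℓ ^ A = L * M ^ (1 - ε / 20) * (ℓ * ℓ ^ A) := by ring
      _ ≤ L * M ^ (1 - ε / 20) * (C4 * M ^ (ε / 20)) := mul_le_mul_of_nonneg_left h6 (by positivity)
      _ = C4 * (L * (M ^ (1 - ε / 20) * M ^ (ε / 20))) := by ring
      _ = C4 * (L * M) := by
        rw [← Real.rpow_add hM0, sub_add_cancel, Real.rpow_one]
  have hpw : ∀ a : ℝ, a ≤ 1 - ε / 20 → L * M ^ a * ℓ ≤ Q := by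
    intro a ha
    rw [hQ]
    have : M ^ a ≤ M ^ (1 - ε / 20) := Real.rpow_le_rpow_of_exponent_le hM ha
    gcongr
  have he0 := hP.e0
  have he1 := hP.e1
  have hV0 : |V0x q m0 M W lam| ≤ 6 * Q := by
    refine (V0x_le hm hP.hW hL hlam).trans ?_
    have h5 : Real.sqrt W ≤ M ^ (1 - ε / 20) := by
      rw [hWd, Wp, Real.sqrt_eq_rpow, ← Real.rpow_mul hM0.le]
      apply Real.rpow_le_rpow_of_exponent_le hM
      linarith
    have h6 : 1 ≤ M ^ (1 - ε / 20) := Real.one_le_rpow hM (by linarith)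
    have h7 := hP.hlogW
    have h8 : 0 ≤ Real.log W := Real.log_nonneg hP.hW
    calc L * (2 * Real.sqrt W + 1) * Real.log W ≤ L * (2 * M ^ (1 - ε / 20) + M ^ (1 - ε / 20)) * (2 * ℓ) := by
          gcongr
      _ = 6 * Q := by
        rw [hQ]
        ring
  have hT1 : ∀ D : ℝ, 1 ≤ D → D ≤ L * M ^ (1 - ε) →
      ∑ a ∈ (bl D).filter (fun a => IsCoprime a ((q : ℕ) : ZI)), |er1x q m0 M L lam a| ≤ C1 * L * M ^ (1 - ε / 10) :=
    fun D hD1 hD2 => h1 M L D m0 lam (by linarith) hL hP.L2 hD1 hD2 hlam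
  have hT2 : ∀ D : ℝ, 1 ≤ D → D ≤ L * M ^ (1 - ε) →
      ∑ a ∈ (bl D).filter (fun a => IsCoprime a ((q : ℕ) : ZI)), |er2x q m0 M L lam a| ≤ C2 * L * M ^ (1 - ε / 20) :=
    fun D hD1 hD2 => h2 M L D m0 lam (by linarith) hL hP.L2 hD1 hD2 hlam
  have hV2 : |V2x q m0 M L Y W lam| ≤ 8 * C1 * Q := by
    refine (V2x_le hm hP.hY).trans ?_
    have h5 := hT1 (Y * W) (by nlinarith [hP.hY, hP.hW]) hP.hYW
    have h6 : 0 ≤ ∑ a ∈ (bl (Y * W)).filter (fun a => IsCoprime a ((q : ℕ) : ZI)), |er1x q m0 M L lam a| :=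
      sum_nonneg fun _ _ => abs_nonneg _
    calc 4 * Real.log (Y * W) * ∑ a ∈ (bl (Y * W)).filter (fun a => IsCoprime a ((q : ℕ) : ZI)), |er1x q m0 M L lam a|
        ≤ 4 * (2 * ℓ) * (C1 * L * M ^ (1 - ε / 10)) := by
          refine mul_le_mul ?_ h5 h6 (by positivity)
          linarith [hP.hlogYW]
      _ = 8 * C1 * (L * M ^ (1 - ε / 10) * ℓ) := by ring
      _ ≤ 8 * C1 * Q := mul_le_mul_of_nonneg_left (hpw _ (by linarith)) (by positivity)
  have hV1 : |V1x q m0 M L Y lam| ≤ (C2 + 12 * K + 2 * C1) * Q := by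
    refine (V1x_le hP.hY).trans ?_
    have h5 := hT1 Y hP.hY hP.hYD
    have h6 := hT2 Y hP.hY hP.hYD
    have h7 : ∑ b ∈ bl Y, |er3x q m0 M L lam b| ≤
        (K * (2 * M ^ 2) ^ (ε / 4)) * L * (2 * Real.log L + 4 * L * (1 + Real.log M)) := by
      refine er3x_le hM hL hlam hP.hLM (by positivity) fun z hz hz2 => (hdv z hz).trans ?_
      exact mul_le_mul_of_nonneg_left (Real.rpow_le_rpow (nz_nonneg z) hz2 (by positivity)) hK.le
    have h8 : Real.log L ≤ ℓ := Real.log_le_log (by linarith) hP.hLM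
    have h9 : (2 * M ^ 2) ^ (ε / 4) ≤ M ^ (3 * ε / 4) := by
      have h10 : 2 * M ^ 2 ≤ M ^ (3 : ℝ) := by
        rw [show (3 : ℝ) = ((3 : ℕ) : ℝ) by norm_num, Real.rpow_natCast]
        nlinarith [sq_nonneg M]
      calc (2 * M ^ 2) ^ (ε / 4) ≤ (M ^ (3 : ℝ)) ^ (ε / 4) := Real.rpow_le_rpow (by positivity) h10 (by positivity)
        _ = M ^ (3 * ε / 4) := by
          rw [← Real.rpow_mul hM0.le]
          congr 1
          ring
    have h10 : (K * (2 * M ^ 2) ^ (ε / 4)) * L * (2 * Real.log L + 4 * L * (1 + Real.log M)) ≤ 12 * K * Q := by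
      have h11 : 2 * Real.log L + 4 * L * (1 + Real.log M) ≤ 12 * (M ^ (1 - ε) * ℓ) := by
        have h12 := hP.L2
        have h13 : 1 ≤ M ^ (1 - ε) := Real.one_le_rpow hM (by linarith)
        have h14 : ℓ ≤ M ^ (1 - ε) * ℓ := by nlinarith
        have h15 : L * (1 + ℓ) ≤ M ^ (1 - ε) * (2 * ℓ) := mul_le_mul h12 (by linarith) (by linarith) (by linarith)
        nlinarith
      calc (K * (2 * M ^ 2) ^ (ε / 4)) * L * (2 * Real.log L + 4 * L * (1 + Real.log M))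
          ≤ (K * M ^ (3 * ε / 4)) * L * (12 * (M ^ (1 - ε) * ℓ)) := by
            refine mul_le_mul ?_ h11 ?_ (by positivity)
            · gcongr
            · have := Real.log_nonneg hL
              positivity
        _ = 12 * K * (L * (M ^ (3 * ε / 4) * M ^ (1 - ε)) * ℓ) := by ring
        _ = 12 * K * (L * M ^ (1 - ε / 4) * ℓ) := by
            rw [← Real.rpow_add hM0]
            congr 4
            ring
        _ ≤ 12 * K * Q := mul_le_mul_of_nonneg_left (hpw _ (by linarith)) (by positivity)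
    have h11 : Real.log Y * ∑ b ∈ (bl Y).filter (fun a => IsCoprime a ((q : ℕ) : ZI)), |er1x q m0 M L lam b| ≤
        2 * C1 * Q := by
      have h12 : 0 ≤ ∑ a ∈ (bl Y).filter (fun a => IsCoprime a ((q : ℕ) : ZI)), |er1x q m0 M L lam a| :=
        sum_nonneg fun _ _ => abs_nonneg _
      calc Real.log Y * ∑ b ∈ (bl Y).filter (fun a => IsCoprime a ((q : ℕ) : ZI)), |er1x q m0 M L lam b| ≤
            (2 * ℓ) * (C1 * L * M ^ (1 - ε / 10)) :=
            mul_le_mul hP.hlogY h5 h12 (by positivity)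
        _ = 2 * C1 * (L * M ^ (1 - ε / 10) * ℓ) := by ring
        _ ≤ 2 * C1 * Q := mul_le_mul_of_nonneg_left (hpw _ (by linarith)) (by positivity)
    have h12 : C2 * L * M ^ (1 - ε / 20) ≤ C2 * Q := by
      rw [hQ]
      have : 0 ≤ C2 * (L * M ^ (1 - ε / 20)) := by positivity
      nlinarith
    linarith
  have hV3 : |V3x q m0 M Y W lam| ≤ C3 * (L * M / ℓ ^ A) := h3 M L l0 m0 lam hP hc hlam hs
  have hQ1 : (6 + (C2 + 12 * K + 2 * C1) + 8 * C1) * Q ≤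
      (6 + (C2 + 12 * K + 2 * C1) + 8 * C1) * (C4 * (L * M / ℓ ^ A)) :=
    mul_le_mul_of_nonneg_left hQA (by positivity)
  have hX : 0 ≤ C3 * (L * M / ℓ ^ A) := by positivity
  have e1 := abs_add_le (V0x q m0 M W lam + 1 / 4 * V1x q m0 M L Y lam - 1 / 16 * V2x q m0 M L Y W lam)
    (1 / 16 * V3x q m0 M Y W lam)
  have e2 := abs_sub (V0x q m0 M W lam + 1 / 4 * V1x q m0 M L Y lam) (1 / 16 * V2x q m0 M L Y W lam)
  have e3 := abs_add_le (V0x q m0 M W lam) (1 / 4 * V1x q m0 M L Y lam)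
  have e4 : |1 / 4 * V1x q m0 M L Y lam| = 1 / 4 * |V1x q m0 M L Y lam| := by
    rw [abs_mul, abs_of_pos (by norm_num : (0 : ℝ) < 1 / 4)]
  have e5 : |1 / 16 * V2x q m0 M L Y W lam| = 1 / 16 * |V2x q m0 M L Y W lam| := by
    rw [abs_mul, abs_of_pos (by norm_num : (0 : ℝ) < 1 / 16)]
  have e6 : |1 / 16 * V3x q m0 M Y W lam| = 1 / 16 * |V3x q m0 M Y W lam| := by
    rw [abs_mul, abs_of_pos (by norm_num : (0 : ℝ) < 1 / 16)]
  rw [e4] at e3
  rw [e5] at e2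
  rw [e6] at e1
  have f1 : 0 ≤ |V1x q m0 M L Y lam| := abs_nonneg _
  have f2 : 0 ≤ |V2x q m0 M L Y W lam| := abs_nonneg _
  have f3 : 0 ≤ |V3x q m0 M Y W lam| := abs_nonneg _
  calc _ ≤ |V0x q m0 M W lam| + |V1x q m0 M L Y lam| + |V2x q m0 M L Y W lam| + |V3x q m0 M Y W lam| := by linarith
    _ ≤ 6 * Q + (C2 + 12 * K + 2 * C1) * Q + 8 * C1 * Q + C3 * (L * M / ℓ ^ A) := by linarith
    _ = (6 + (C2 + 12 * K + 2 * C1) + 8 * C1) * Q + C3 * (L * M / ℓ ^ A) := by ring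
    _ ≤ (6 + (C2 + 12 * K + 2 * C1) + 8 * C1) * (C4 * (L * M / ℓ ^ A)) + C3 * (L * M / ℓ ^ A) := by linarith
    _ = _ := by ring

open Classical in
/-- the main term -/
theorem emx_eq (q : ℕ) (l : ℤ) (M Y W : ℝ) : Emx q l M Y W - 2 * M / q * (gq q l * SS l) =
    M * (Real.log M - 1) / q * (∑ b ∈ (bl Y).filter (fun b => IsCoprime b ((q : ℕ) : ZI)), mu b * (kap l b / nz b)) -
    2 * M / q * (1 / 4 * ∑ b ∈ (bl Y).filter (fun b => IsCoprime b ((q : ℕ) : ZI)),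
      mu b * (kap l b / nz b) * Real.log (nz b) + gq q l * SS l) -
    M / (8 * q) * ∑ b ∈ (bl Y).filter (fun b => IsCoprime b ((q : ℕ) : ZI)),
      ∑ c ∈ (bl W).filter (fun c => IsCoprime c ((q : ℕ) : ZI)), mu b * LamK c * (kap l (b * c) / nz (b * c)) := by
  unfold Emx
  have h1 : ∑ b ∈ (bl Y).filter (fun b => IsCoprime b ((q : ℕ) : ZI)), mu b * (kap l b / nz b) *
        (4 * M * (Real.log M - 1) / q - 2 * M / q * Real.log (nz b)) =
      4 * M * (Real.log M - 1) / q * (∑ b ∈ (bl Y).filter (fun b => IsCoprime b ((q : ℕ) : ZI)),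
        mu b * (kap l b / nz b)) -
      2 * M / q * ∑ b ∈ (bl Y).filter (fun b => IsCoprime b ((q : ℕ) : ZI)),
        mu b * (kap l b / nz b) * Real.log (nz b) := by
    rw [mul_sum, mul_sum, ← sum_sub_distrib]
    refine sum_congr rfl fun b _ => ?_
    ring
  rw [h1]
  field_simp
  ring

theorem em_bdx (h1 : S_MT1X) (h2 : S_MT2X) (ε : ℝ) (A q : ℕ) (hε : 0 < ε) (hq : 1 ≤ q) :
    ∃ C : ℝ, 0 < C ∧ ∀ (M L : ℝ), Pr ε M L → 3 ≤ M ^ (3 * (ε / 8)) →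
      ∑ l ∈ Icc 1 ⌊L⌋, |Emx q l M (Yp ε M L) (Wp ε M) - 2 * M / q * (gq q l * SS l)| ≤
        C * (L * M / (Real.log M) ^ A) := by
  classical
  obtain ⟨C1, hC1, h1⟩ := h1 (A + 1) q hq
  obtain ⟨C2, hC2, h2⟩ := h2 (A + 1) q hq
  have hqr : (1 : ℝ) ≤ q := by exact_mod_cast hq
  set c : ℝ := 3 * (ε / 8) with hc
  have hc0 : 0 < c := by positivity
  refine ⟨(C1 + 2 * C1 + C2) / c ^ (A + 1), by positivity, fun M L hP h3 => ?_⟩
  have hM := hP.hM
  have hL := hP.hL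
  have hM0 : 0 < M := by linarith
  have hlog := hP.hlog
  set W := Wp ε M with hWd
  set Y := Yp ε M L with hYd
  set ℓ := Real.log M with hℓ
  have hY3 : 3 ≤ Y := h3.trans hP.hY0
  have hW3 : 3 ≤ W := by
    refine h3.trans ?_
    rw [hWd, Wp]
    apply Real.rpow_le_rpow_of_exponent_le hM
    linarith [hP.e1, hP.e0]
  have hlY : c * ℓ ≤ Real.log Y := by
    have h4 := Real.log_le_log (Real.rpow_pos_of_pos hM0 _) hP.hY0
    rwa [Real.log_rpow hM0] at h4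
  have hcl : 0 < c * ℓ := by positivity
  have h4 : ∀ B : ℝ, 0 ≤ B → B / (Real.log Y) ^ (A + 1) ≤ B / (c ^ (A + 1) * ℓ ^ (A + 1)) := by
    intro B hB
    rw [← mul_pow]
    exact div_le_div_of_nonneg_left hB (by positivity) (pow_le_pow_left₀ hcl.le hlY _)
  obtain ⟨g1, g2⟩ := h1 L Y hL hY3
  have g3 := h2 L Y W hL hY3 hW3
  set Bs := (bl Y).filter (fun b => IsCoprime b ((q : ℕ) : ZI)) with hBs
  set Cs := (bl W).filter (fun c => IsCoprime c ((q : ℕ) : ZI)) with hCs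
  have e1 : ∑ l ∈ Icc 1 ⌊L⌋, |Emx q l M Y W - 2 * M / q * (gq q l * SS l)| ≤
      M * ℓ * ∑ l ∈ Icc 1 ⌊L⌋, |∑ b ∈ Bs, mu b * (kap l b / nz b)| +
      2 * M * ∑ l ∈ Icc 1 ⌊L⌋, |1 / 4 * ∑ b ∈ Bs, mu b * (kap l b / nz b) * Real.log (nz b) + gq q l * SS l| +
      M / 8 * ∑ l ∈ Icc 1 ⌊L⌋, |∑ b ∈ Bs, ∑ c ∈ Cs, mu b * LamK c * (kap l (b * c) / nz (b * c))| := by
    rw [mul_sum, mul_sum, mul_sum, ← sum_add_distrib, ← sum_add_distrib]
    refine sum_le_sum fun l _ => ?_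
    rw [emx_eq]
    refine (abs_sub _ _).trans (add_le_add ((abs_sub _ _).trans (add_le_add ?_ ?_)) ?_)
    · rw [abs_mul, abs_of_nonneg (div_nonneg (mul_nonneg hM0.le (by linarith)) (by linarith))]
      refine mul_le_mul_of_nonneg_right ?_ (abs_nonneg _)
      refine (div_le_self (mul_nonneg hM0.le (by linarith)) hqr).trans ?_
      nlinarith
    · rw [abs_mul, abs_of_nonneg (by positivity)]
      refine mul_le_mul_of_nonneg_right ?_ (abs_nonneg _)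
      exact div_le_self (by positivity) hqr
    · rw [abs_mul, abs_of_nonneg (by positivity)]
      refine mul_le_mul_of_nonneg_right ?_ (abs_nonneg _)
      rw [← div_div]
      exact div_le_self (by positivity) hqr
  refine e1.trans ?_
  have hLM0 : 0 < L * M := by nlinarith
  have k1 : M * ℓ * ∑ l ∈ Icc 1 ⌊L⌋, |∑ b ∈ Bs, mu b * (kap l b / nz b)| ≤
      C1 / c ^ (A + 1) * (L * M / ℓ ^ A) := by
    calc _ ≤ M * ℓ * (C1 * L / (c ^ (A + 1) * ℓ ^ (A + 1))) :=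
          mul_le_mul_of_nonneg_left (g1.trans (h4 _ (by positivity))) (by positivity)
      _ = C1 / c ^ (A + 1) * (L * M / ℓ ^ A) := by
          rw [pow_succ ℓ A]
          field_simp
  have k2 : 2 * M * ∑ l ∈ Icc 1 ⌊L⌋, |1 / 4 * ∑ b ∈ Bs, mu b * (kap l b / nz b) * Real.log (nz b) + gq q l * SS l| ≤
      2 * C1 / c ^ (A + 1) * (L * M / ℓ ^ A) := by
    calc _ ≤ 2 * M * (C1 * L / (c ^ (A + 1) * ℓ ^ (A + 1))) :=
          mul_le_mul_of_nonneg_left (g2.trans (h4 _ (by positivity))) (by positivity)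
      _ ≤ 2 * M * (C1 * L / (c ^ (A + 1) * ℓ ^ A)) := by
          refine mul_le_mul_of_nonneg_left ?_ (by positivity)
          refine div_le_div_of_nonneg_left (by positivity) (by positivity) ?_
          refine mul_le_mul_of_nonneg_left ?_ (by positivity)
          exact pow_le_pow_right₀ hlog (by omega)
      _ = 2 * C1 / c ^ (A + 1) * (L * M / ℓ ^ A) := by
          field_simp
  have k3 : M / 8 * ∑ l ∈ Icc 1 ⌊L⌋, |∑ b ∈ Bs, ∑ c ∈ Cs, mu b * LamK c * (kap l (b * c) / nz (b * c))| ≤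
      C2 / c ^ (A + 1) * (L * M / ℓ ^ A) := by
    have hlW := hP.hlogW
    have hlW0 : 0 ≤ Real.log W := Real.log_nonneg hP.hW
    calc _ ≤ M / 8 * (C2 * L * Real.log W / (c ^ (A + 1) * ℓ ^ (A + 1))) :=
          mul_le_mul_of_nonneg_left (g3.trans (h4 _ (by positivity))) (by positivity)
      _ ≤ M / 8 * (C2 * L * (8 * ℓ) / (c ^ (A + 1) * ℓ ^ (A + 1))) := by
          refine mul_le_mul_of_nonneg_left ?_ (by positivity)
          refine div_le_div_of_nonneg_right ?_ (by positivity)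
          refine mul_le_mul_of_nonneg_left ?_ (by positivity)
          linarith
      _ = C2 / c ^ (A + 1) * (L * M / ℓ ^ A) := by
          rw [pow_succ ℓ A]
          field_simp
  calc _ ≤ C1 / c ^ (A + 1) * (L * M / ℓ ^ A) + 2 * C1 / c ^ (A + 1) * (L * M / ℓ ^ A) +
        C2 / c ^ (A + 1) * (L * M / ℓ ^ A) := by linarith
    _ = _ := by ring

/-- the sum over `l` for `Λ` of `ℤ[i]` -/
theorem sumKx (hm : S_MUB) (hd : S_DVB) (hv : S_VAU) (hii : S_IIX) (hti : S_TIX) (htil : S_TILX) (ε : ℝ) (A q : ℕ)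
    (hε : 0 < ε) (hq : 1 ≤ q) : ∃ C : ℝ, 0 < C ∧ ∀ (M L : ℝ) (l0 m0 : ℤ), Pr ε M L →
      IsCoprime (⟨l0, m0⟩ : ZI) ((q : ℕ) : ZI) →
      ∑ l ∈ (Icc 1 ⌊L⌋).filter (fun l => (q : ℤ) ∣ l - l0),
        |∑ m ∈ (Icc ⌈-M⌉ ⌊M⌋).filter (fun m => (q : ℤ) ∣ m - m0), LamK (⟨l, m⟩ : ZI) -
          Emx q l M (Yp ε M L) (Wp ε M)| ≤ C * (L * M / (Real.log M) ^ A) := by
  obtain ⟨C, hC, h⟩ := err_allx hm hd hii hti htil ε A q hε hq
  refine ⟨C, hC, fun M L l0 m0 hP hc => ?_⟩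
  set X : ℤ → ℝ := fun l => ∑ m ∈ (Icc ⌈-M⌉ ⌊M⌋).filter (fun m => (q : ℤ) ∣ m - m0), LamK (⟨l, m⟩ : ZI) -
    Emx q l M (Yp ε M L) (Wp ε M) with hX
  set lam : ℤ → ℝ := fun l => if l ∈ Icc 1 ⌊L⌋ ∧ (q : ℤ) ∣ l - l0 then sgn (X l) else 0 with hlam
  have hLm : Lm L lam := by
    constructor
    · intro l
      simp only [hlam]
      split_ifs
      · exact abs_sgn _
      · simp
    · intro l hl
      simp only [hlam]
      rw [if_neg]
      rintro ⟨h1, -⟩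
      rw [mem_box] at h1
      rcases hl with h2 | h2
      · omega
      · linarith [h1.2]
  have hSl : Sl q l0 lam := by
    intro l hl
    simp only [hlam]
    rw [if_neg (fun h => hl h.2)]
  have h1 := vaughan_lx hv hP.hM hLm hSl hc hP.hLM hP.hY hP.hW
  have h2 := h M L l0 m0 lam hP hc hLm hSl
  rw [← h1] at h2
  refine le_trans (le_of_eq ?_) ((le_abs_self _).trans h2)
  rw [sum_filter]
  refine sum_congr rfl fun l hl => ?_
  simp only [hlam]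
  by_cases h3 : (q : ℤ) ∣ l - l0
  · rw [if_pos h3, if_pos ⟨hl, h3⟩, sgn_mul]
  · rw [if_neg h3, if_neg (fun h => h3 h.2), zero_mul]

/-- the theorem for large `M` -/
theorem main_largex (hm : S_MUB) (hd : S_DVB) (hv : S_VAU) (hii : S_IIX) (hti : S_TIX) (htil : S_TILX)
    (hm1 : S_MT1X) (hm2 : S_MT2X) (hlk : S_LK) (ε : ℝ) (A q : ℕ) (hε : 0 < ε) (hq : 1 ≤ q) :
    ∃ C : ℝ, 0 < C ∧ ∀ (M L : ℝ) (l0 m0 : ℤ), Pr ε M L → 3 ≤ M ^ (3 * (ε / 8)) →
      IsCoprime (⟨l0, m0⟩ : ZI) ((q : ℕ) : ZI) →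
      ∑ l ∈ (Icc 1 ⌊L⌋).filter (fun l => (q : ℤ) ∣ l - l0),
        |∑ m ∈ (Icc ⌈-M⌉ ⌊M⌋).filter (fun m => (q : ℤ) ∣ m - m0),
          ArithmeticFunction.vonMangoldt (l ^ 2 + m ^ 2).natAbs - 2 * M / q * (gq q l * SS l)| ≤
        C * (L * M / (Real.log M) ^ A) := by
  obtain ⟨C1, hC1, h1⟩ := sumKx hm hd hv hii hti htil ε A q hε hq
  obtain ⟨C2, hC2, h2⟩ := em_bdx hm1 hm2 ε A q hε hq
  obtain ⟨C3, hC3, h3⟩ := hlk
  obtain ⟨C4, hC4, h4⟩ := pow_log (1 / 2) (A + 3) (by norm_num)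
  refine ⟨C1 + C2 + C3 * C4, by positivity, fun M L l0 m0 hP hM8 hc => ?_⟩
  have hM := hP.hM
  have hL := hP.hL
  have hM0 : 0 < M := by linarith
  have hlog := hP.hlog
  set ℓ := Real.log M with hℓ
  have g1 := h1 M L l0 m0 hP hc
  have g2 := h2 M L hP hM8
  have g3 := h3 M L (by linarith [hP.M3]) hL hP.hLM
  have k3 : C3 * M * ℓ ^ 3 ≤ C3 * C4 * (L * M / ℓ ^ A) := by
    have h6 := h4 M hM
    have h7 : M ^ (1 / 2 : ℝ) ≤ L := (Real.rpow_le_rpow_of_exponent_le hM (by linarith [hP.e0])).trans hP.L1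
    rw [mul_div_assoc', le_div_iff₀ (by positivity)]
    calc C3 * M * ℓ ^ 3 * ℓ ^ A = C3 * M * ℓ ^ (A + 3) := by ring
      _ ≤ C3 * M * (C4 * L) := by
        refine mul_le_mul_of_nonneg_left (h6.trans ?_) (by positivity)
        exact mul_le_mul_of_nonneg_left h7 hC4.le
      _ = _ := by ring
  have k5 : ∀ l ∈ (Icc 1 ⌊L⌋).filter (fun l => (q : ℤ) ∣ l - l0),
      |∑ m ∈ (Icc ⌈-M⌉ ⌊M⌋).filter (fun m => (q : ℤ) ∣ m - m0),
          ArithmeticFunction.vonMangoldt (l ^ 2 + m ^ 2).natAbs - 2 * M / q * (gq q l * SS l)| ≤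
      |∑ m ∈ (Icc ⌈-M⌉ ⌊M⌋).filter (fun m => (q : ℤ) ∣ m - m0), LamK (⟨l, m⟩ : ZI) -
        Emx q l M (Yp ε M L) (Wp ε M)| +
      |Emx q l M (Yp ε M L) (Wp ε M) - 2 * M / q * (gq q l * SS l)| +
      ∑ m ∈ Icc ⌈-M⌉ ⌊M⌋, |LamK (⟨l, m⟩ : ZI) - ArithmeticFunction.vonMangoldt (l ^ 2 + m ^ 2).natAbs| := by
    intro l _
    have e4 : |∑ m ∈ (Icc ⌈-M⌉ ⌊M⌋).filter (fun m => (q : ℤ) ∣ m - m0), LamK (⟨l, m⟩ : ZI) -
        ∑ m ∈ (Icc ⌈-M⌉ ⌊M⌋).filter (fun m => (q : ℤ) ∣ m - m0),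
          ArithmeticFunction.vonMangoldt (l ^ 2 + m ^ 2).natAbs| ≤
        ∑ m ∈ Icc ⌈-M⌉ ⌊M⌋, |LamK (⟨l, m⟩ : ZI) - ArithmeticFunction.vonMangoldt (l ^ 2 + m ^ 2).natAbs| := by
      rw [← sum_sub_distrib]
      refine (abs_sum_le_sum_abs _ _).trans ?_
      exact sum_le_sum_of_subset_of_nonneg (filter_subset _ _) fun _ _ _ => abs_nonneg _
    have e5 : ∑ m ∈ (Icc ⌈-M⌉ ⌊M⌋).filter (fun m => (q : ℤ) ∣ m - m0),
          ArithmeticFunction.vonMangoldt (l ^ 2 + m ^ 2).natAbs - 2 * M / q * (gq q l * SS l) =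
        (∑ m ∈ (Icc ⌈-M⌉ ⌊M⌋).filter (fun m => (q : ℤ) ∣ m - m0), LamK (⟨l, m⟩ : ZI) -
          Emx q l M (Yp ε M L) (Wp ε M)) +
        (Emx q l M (Yp ε M L) (Wp ε M) - 2 * M / q * (gq q l * SS l)) -
        (∑ m ∈ (Icc ⌈-M⌉ ⌊M⌋).filter (fun m => (q : ℤ) ∣ m - m0), LamK (⟨l, m⟩ : ZI) -
          ∑ m ∈ (Icc ⌈-M⌉ ⌊M⌋).filter (fun m => (q : ℤ) ∣ m - m0),
            ArithmeticFunction.vonMangoldt (l ^ 2 + m ^ 2).natAbs) := by
      ring
    rw [e5]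
    exact (abs_sub _ _).trans (add_le_add (abs_add_le _ _) e4)
  have k6 := sum_le_sum k5
  rw [sum_add_distrib, sum_add_distrib] at k6
  have k7 : ∑ l ∈ (Icc 1 ⌊L⌋).filter (fun l => (q : ℤ) ∣ l - l0),
      |Emx q l M (Yp ε M L) (Wp ε M) - 2 * M / q * (gq q l * SS l)| ≤
      ∑ l ∈ Icc 1 ⌊L⌋, |Emx q l M (Yp ε M L) (Wp ε M) - 2 * M / q * (gq q l * SS l)| :=
    sum_le_sum_of_subset_of_nonneg (filter_subset _ _) fun _ _ _ => abs_nonneg _
  have k8 : ∑ l ∈ (Icc 1 ⌊L⌋).filter (fun l => (q : ℤ) ∣ l - l0),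
      ∑ m ∈ Icc ⌈-M⌉ ⌊M⌋, |LamK (⟨l, m⟩ : ZI) - ArithmeticFunction.vonMangoldt (l ^ 2 + m ^ 2).natAbs| ≤
      ∑ l ∈ Icc 1 ⌊L⌋, ∑ m ∈ Icc ⌈-M⌉ ⌊M⌋,
        |LamK (⟨l, m⟩ : ZI) - ArithmeticFunction.vonMangoldt (l ^ 2 + m ^ 2).natAbs| :=
    sum_le_sum_of_subset_of_nonneg (filter_subset _ _) fun _ _ _ => sum_nonneg fun _ _ => abs_nonneg _
  calc _ ≤ C1 * (L * M / ℓ ^ A) + C2 * (L * M / ℓ ^ A) + C3 * C4 * (L * M / ℓ ^ A) := by linarith
    _ = _ := by ring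

/-- **the theorem in a class** -/
theorem main_allx (hm : S_MUB) (hd : S_DVB) (hv : S_VAU) (hii : S_IIX) (hti : S_TIX) (htil : S_TILX)
    (hm1 : S_MT1X) (hm2 : S_MT2X) (hlk : S_LK) : S_MAINX := by
  intro ε A q hε hq
  obtain ⟨C1, hC1, h1⟩ := main_largex hm hd hv hii hti htil hm1 hm2 hlk ε A q hε hq
  have hqr : (1 : ℝ) ≤ q := by exact_mod_cast hq
  set M0 : ℝ := max 3 ((3 : ℝ) ^ (1 / (3 * (ε / 8)))) with hM0
  have hM03 : 3 ≤ M0 := le_max_left _ _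
  set K : ℝ := ∑ l ∈ Icc 1 ⌊M0⌋, (∑ m ∈ Icc ⌈-M0⌉ ⌊M0⌋, ArithmeticFunction.vonMangoldt (l ^ 2 + m ^ 2).natAbs +
    2 * M0 * |gq q l * SS l|) with hK
  have hK0 : 0 ≤ K := sum_nonneg fun l _ => add_nonneg
    (sum_nonneg fun m _ => ArithmeticFunction.vonMangoldt_nonneg) (by positivity)
  have hlM0 : 0 ≤ Real.log M0 := Real.log_nonneg (by linarith)
  refine ⟨C1 + K * (Real.log M0) ^ A, by positivity, fun M L l0 m0 hM3 hc hL1 hL2 => ?_⟩
  have hM1 : 1 < M := by linarith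
  have hε6 : ε ≤ 1 / 6 := by
    have h2 : M ^ (2 / 3 + ε) ≤ M ^ (1 - ε) := hL1.trans hL2
    have h3 := (Real.rpow_le_rpow_left_iff hM1).1 h2
    linarith
  have hP : Pr ε M L := ⟨hε, hε6, hM3, hL1, hL2⟩
  have hL := hP.hL
  have hlog := hP.hlog
  have hX : 0 ≤ L * M / (Real.log M) ^ A := by positivity
  rw [show (C1 + K * (Real.log M0) ^ A) * L * M / (Real.log M) ^ A =
    (C1 + K * (Real.log M0) ^ A) * (L * M / (Real.log M) ^ A) by ring]
  by_cases hc3 : 3 ≤ M ^ (3 * (ε / 8))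
  · refine (h1 M L l0 m0 hP hc3 hc).trans ?_
    refine mul_le_mul_of_nonneg_right ?_ hX
    have : 0 ≤ K * (Real.log M0) ^ A := by positivity
    linarith
  · push Not at hc3
    have hMM0 : M ≤ M0 := by
      refine le_trans ?_ (le_max_right _ _)
      have h2 : (M ^ (3 * (ε / 8))) ^ (1 / (3 * (ε / 8))) ≤ (3 : ℝ) ^ (1 / (3 * (ε / 8))) :=
        Real.rpow_le_rpow (by positivity) hc3.le (by positivity)
      rw [← Real.rpow_mul (by linarith), mul_one_div_cancel (by positivity), Real.rpow_one] at h2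
      exact h2
    have h2 : ∑ l ∈ (Icc 1 ⌊L⌋).filter (fun l => (q : ℤ) ∣ l - l0),
        |∑ m ∈ (Icc ⌈-M⌉ ⌊M⌋).filter (fun m => (q : ℤ) ∣ m - m0),
          ArithmeticFunction.vonMangoldt (l ^ 2 + m ^ 2).natAbs - 2 * M / q * (gq q l * SS l)| ≤ K := by
      rw [hK]
      have hLM0 : L ≤ M0 := hP.hLM.trans hMM0
      calc _ ≤ ∑ l ∈ (Icc 1 ⌊L⌋).filter (fun l => (q : ℤ) ∣ l - l0),
            (∑ m ∈ Icc ⌈-M0⌉ ⌊M0⌋, ArithmeticFunction.vonMangoldt (l ^ 2 + m ^ 2).natAbs +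
            2 * M0 * |gq q l * SS l|) := by
            refine sum_le_sum fun l _ => (abs_sub _ _).trans (add_le_add ?_ ?_)
            · rw [abs_of_nonneg (sum_nonneg fun m _ => ArithmeticFunction.vonMangoldt_nonneg)]
              refine sum_le_sum_of_subset_of_nonneg ?_ fun m _ _ => ArithmeticFunction.vonMangoldt_nonneg
              refine (filter_subset _ _).trans ?_
              exact Icc_subset_Icc (Int.ceil_le_ceil (by linarith)) (Int.floor_le_floor hMM0)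
            · rw [abs_mul, abs_of_nonneg (by positivity)]
              refine mul_le_mul_of_nonneg_right ?_ (abs_nonneg _)
              refine (div_le_self (by positivity) hqr).trans (by linarith)
        _ ≤ _ := by
            refine sum_le_sum_of_subset_of_nonneg ?_ fun l _ _ => add_nonneg
              (sum_nonneg fun m _ => ArithmeticFunction.vonMangoldt_nonneg) (by positivity)
            refine (filter_subset _ _).trans ?_
            exact Icc_subset_Icc le_rfl (Int.floor_le_floor hLM0)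
    refine h2.trans ?_
    have h3 : (Real.log M) ^ A ≤ (Real.log M0) ^ A :=
      pow_le_pow_left₀ (by linarith) (Real.log_le_log (by linarith) hMM0) A
    have h4 : 1 ≤ L * M := by nlinarith
    have h5 : K ≤ K * (Real.log M0) ^ A * (L * M / (Real.log M) ^ A) := by
      rw [mul_assoc]
      refine le_mul_of_one_le_right hK0 ?_
      rw [mul_div_assoc', le_div_iff₀ (by positivity), one_mul]
      have : 0 ≤ (Real.log M0) ^ A := by positivity
      nlinarith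
    have h6 : 0 ≤ C1 * (L * M / (Real.log M) ^ A) := by positivity
    calc K ≤ K * (Real.log M0) ^ A * (L * M / (Real.log M) ^ A) := h5
      _ ≤ _ := by
        rw [add_mul]
        linarith

end Pool.Agent.N782.GN
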