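import Pool.Agent.N704.GN.Bx
import Pool.Agent.N704.GN.LineD
import Pool.Agent.N864.GN.InvB
import Pool.Agent.N27.GN.Per
import Pool.Agent.N531.GN.Sieg
import Pool.Agent.N866.GN.P0A
import Pool.Agent.N855.GN.MB1
import Pool.Agent.N8.GN.Ker
import Pool.Agent.N7.GN.Bil3
import Pool.Agent.N391.GN.TG
import Pool.Agent.N277.GN.IIe
import Pool.Agent.N458.GN.TI
import Pool.Agent.N157.GN.Mub
import Pool.Agent.N106.GN.E3
import Pool.Agent.N56.GN.EL
import Pool.Agent.N946.GN.Grow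
import Pool.Agent.N27.GN.Nz
import Pool.Agent.N487.GN.PkB
import Pool.Agent.N402.GN.P0B
import Pool.Agent.N755.GN.PC
import Pool.Agent.N546.GN.Lsb
import Pool.Agent.N546.GN.FT
import Pool.Agent.N864.GN.Mb
import Pool.Agent.N56.GN.CHR
import Pool.Agent.N407.GN.Cnt
import Pool.Agent.N494.GN.Lsd
import Pool.Agent.N407.GN.Lip
import Pool.Agent.N868.GN.TAll
import Pool.Agent.N954.GN.Div
import Pool.Agent.N407.GN.Dvb
import Pool.Agent.N407.GN.Vau
import Pool.Agent.N7.GN.Rls3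
import Pool.Agent.N407.GN.Til
import Pool.Agent.N407.GN.Ssl
import Pool.Agent.N521.GN.Mt2d
import Pool.Agent.N407.GN.Lk
import Pool.Agent.N868.GN.TX
import Pool.Agent.N407.GN.Tilx
import Pool.Agent.N650.GN.Mt1x
import Pool.Agent.N521.GN.Mt2x
import Pool.Agent.N608.GNX.IIX
import Pool.Agent.N608.GNX.TX
import Pool.Agent.N782.GN.FinE
import Pool.Agent.N782.GN.MainXC

/-!
# Project GN (helper782): all the parts together, except the main term `S_MT1`

Authors of the parts: helpers 704 (LINE, BX), 864 (INVL, MB), 27 (PER, NZ), 531 (SIEG), 866 (P0A, MT1), 855 (MB1), 8 (KER),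
7 (BIL, RLS), 391 (TG), 277 (II), 458 (TI), 157 (MUB), 106 (E), 56 (EL, CHR), 946 (GROW), 487 (PK), 402 (P0B), 755 (PC),
546 (LSB, FT), 407 (CNT, LIP, DVB, VAU, TIL, SSL, LK, TILX), 494 (LSD), 868 (T, TX), 954 (DIV), 521 (MT2, MT2X),
650 (MT1X), 608 (IIX, TIX).
-/

set_option autoImplicit false

namespace Pool.Agent.N782.GN

theorem c_mub : S_MUB := Pool.Agent.N157.GN.mub

theorem c_dvb : S_DVB := Pool.Agent.N407.GN.dvb

theorem c_el : S_EL := Pool.Agent.N56.GN.el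

theorem c_bx : S_BX := Pool.Agent.N704.GN.bx Pool.Agent.N704.GN.line

theorem c_e : S_E := Pool.Agent.N106.GN.ee_bound c_el c_bx

theorem c_grow : S_GROW := Pool.Agent.N946.GN.grow

theorem c_invl : S_INVL := Pool.Agent.N864.GN.invl

theorem c_per : S_PER := Pool.Agent.N27.GN.per c_mub

theorem c_sieg : S_SIEG := Pool.Agent.N531.GNS.sieg c_el Pool.Agent.N27.GN.NZ.nz_one

theorem c_p0a : S_P0A := Pool.Agent.N866.GN.p0a c_el c_grow c_invl c_per c_sieg

theorem c_pk : S_PK := Pool.Agent.N487.GN.pk c_el c_e c_grow c_invl c_per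

theorem c_p0b : S_P0B := Pool.Agent.N402.GN.p0b c_mub

theorem c_pc : S_PC := Pool.Agent.N755.GN.pc c_pk c_p0a c_p0b

theorem c_lsb : S_LSB := Pool.Agent.N546.GN.lsb

theorem c_ft : S_FT := Pool.Agent.N546.GN.ft c_lsb

theorem c_mb1 : S_MB1 := Pool.Agent.N855.GN.mb1 c_mub c_pc c_p0b c_lsb c_ft

theorem c_mb : S_MB := Pool.Agent.N864.GN.mb c_mub c_mb1

theorem c_ker : S_KER := Pool.Agent.N8.GN.Ker.ker Pool.Agent.N407.GN.cnt

theorem c_bil : S_BIL :=
  Pool.Agent.N7.GN.Bil.bil Pool.Agent.N56.GN.chr_lat Pool.Agent.N407.GN.cnt Pool.Agent.N494.GN.lsd c_ker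

theorem c_tg : S_TG :=
  Pool.Agent.N391.GN.tg Pool.Agent.N56.GN.chr_lat Pool.Agent.N407.GN.cnt c_bil Pool.Agent.N407.GN.lip

theorem c_t : S_T := Pool.Agent.N868.GN.t_all c_tg c_mb

theorem c_tx : S_TX := Pool.Agent.N868.GN.tx c_tg c_mb

theorem c_ii : S_II := Pool.Agent.N277.GN.ii c_mub c_dvb c_t Pool.Agent.N954.GN.div_rect

theorem c_iix : S_IIX := Pool.Agent.N608.GNX.iix c_mub c_dvb c_tx Pool.Agent.N954.GN.div_rect

theorem c_vau : S_VAU := Pool.Agent.N407.GN.vau c_mub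

theorem c_ti : S_TI := Pool.Agent.N458.GN.ti c_dvb Pool.Agent.N7.GN.Rls.rls

theorem c_tix : S_TIX := Pool.Agent.N608.GNX.TX.tix c_dvb Pool.Agent.N7.GN.Rls.rls

theorem c_til : S_TIL := Pool.Agent.N407.GN.til c_dvb c_ti

theorem c_tilx : S_TILX := Pool.Agent.N407.GN.tilx c_dvb c_tix

theorem c_ssl : S_SSL := Pool.Agent.N407.GN.ssl

theorem c_lk : S_LK := Pool.Agent.N407.GN.lk

/-- everything except the main term -/
theorem main_mt1 (h : S_MT1) : S_MAIN :=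
  main_all c_mub c_dvb c_vau c_ii c_ti c_til h (Pool.Agent.N521.GN.mt2 c_mub h) c_lk

theorem mainx_mt1 (h : S_MT1) : S_MAINX :=
  main_allx c_mub c_dvb c_vau c_iix c_tix c_tilx (Pool.Agent.N650.GN.mt1x c_mub h)
    (Pool.Agent.N521.GN.mt2x c_mub (Pool.Agent.N650.GN.mt1x c_mub h)) c_lk

end Pool.Agent.N782.GN

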