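import Pool.Agent.N782.GN.All1
import Pool.Agent.N866.GN.MT1

/-!
# Project GN (helper782): the main theorems
-/

set_option autoImplicit false

namespace Pool.Agent.N782.GN

theorem c_mt1 : S_MT1 := Pool.Agent.N866.GN.MT.mt1 c_mub c_ssl c_p0b

/-- **the thin Fouvry–Iwaniec theorem** -/
theorem c_main : S_MAIN := main_mt1 c_mt1

/-- **the thin Fouvry–Iwaniec theorem in residue classes** -/
theorem c_mainx : S_MAINX := mainx_mt1 c_mt1

end Pool.Agent.N782.GN

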