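import Mathlib
import Pool.Agent.H304R3.HK.Defs

/-!
# Project GN (helper782): primes `l² + m²` with `l` in thin sets.  Definitions.
-/

set_option autoImplicit false

namespace Pool.Agent.N782.GN

open Finset
open Pool.Agent.H304R3.HK (UH bb LamK)

/-- the Gaussian integers -/
abbrev ZI := GaussianInt

/-- the norm as a real number -/
noncomputable def nz (z : ZI) : ℝ := ((Zsqrtd.norm z : ℤ) : ℝ)

open Classical in
/-- the nonzero Gaussian integers of norm at most `X` -/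
noncomputable def bl (X : ℝ) : Finset ZI :=
  (((Icc (-(⌊Real.sqrt X⌋₊ : ℤ)) ⌊Real.sqrt X⌋₊) ×ˢ (Icc (-(⌊Real.sqrt X⌋₊ : ℤ)) ⌊Real.sqrt X⌋₊)).image
    (fun p : ℤ × ℤ => (⟨p.1, p.2⟩ : ZI))).filter (fun z => z ≠ 0 ∧ nz z ≤ X)

theorem nz_eq (z : ZI) : nz z = (z.re : ℝ) ^ 2 + (z.im : ℝ) ^ 2 := by
  unfold nz
  rw [Zsqrtd.norm_def]
  push_cast
  ring

theorem nz_nonneg (z : ZI) : 0 ≤ nz z := by
  rw [nz_eq]
  positivity

theorem mem_bl (X : ℝ) (z : ZI) : z ∈ bl X ↔ z ≠ 0 ∧ nz z ≤ X := by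
  classical
  unfold bl
  rw [mem_filter, and_iff_right_iff_imp]
  rintro ⟨-, hX⟩
  rw [mem_image]
  refine ⟨(z.re, z.im), ?_, rfl⟩
  rw [nz_eq] at hX
  have key : ∀ a : ℤ, (a : ℝ) ^ 2 ≤ X → a ∈ Icc (-(⌊Real.sqrt X⌋₊ : ℤ)) ⌊Real.sqrt X⌋₊ := by
    intro a ha
    have h1 : |(a : ℝ)| ≤ Real.sqrt X := Real.abs_le_sqrt ha
    have h2 : a.natAbs ≤ ⌊Real.sqrt X⌋₊ := by
      apply Nat.le_floor
      rw [Nat.cast_natAbs, Int.cast_abs]
      exact h1
    rw [mem_Icc]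
    omega
  rw [mem_product]
  exact ⟨key _ (by nlinarith [sq_nonneg (z.im : ℝ)]), key _ (by nlinarith [sq_nonneg (z.re : ℝ)])⟩

open Classical in
/-- the Gaussian integers `t ≠ 0` of norm at most `X` which are congruent to `r` modulo `q` -/
noncomputable def cls (q : ℕ) (r : ZI) (X : ℝ) : Finset ZI :=
  (bl X).filter (fun t => ((q : ℕ) : ZI) ∣ t - r)

/-- `exp (i (k arg z - τ log N(z)))` -/
noncomputable def ph (k : ℤ) (τ : ℝ) (z : ZI) : ℂ :=
  Complex.exp (Complex.I * (((k : ℝ) * Complex.arg (z : ℂ) - τ * Real.log (nz z) : ℝ) : ℂ))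

theorem norm_ph (k : ℤ) (τ : ℝ) (z : ZI) : ‖ph k τ z‖ = 1 := by
  unfold ph
  rw [mul_comm]
  exact Complex.norm_exp_ofReal_mul_I _

open Classical in
/-- the Moebius function of `ℤ[i]` -/
noncomputable def mu (z : ZI) : ℝ :=
  if Squarefree z then (-1) ^ (UniqueFactorizationMonoid.factors z).card else 0

theorem abs_mu_le (z : ZI) : |mu z| ≤ 1 := by
  unfold mu
  split_ifs
  · rw [abs_pow, abs_neg, abs_one, one_pow]
  · simp

/-- the content: the largest rational integer which divides `z` -/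
def ct (z : ZI) : ℕ := Int.gcd z.re z.im

open Classical in
/-- the number of the divisors of `z` in `ℤ[i]` (associated divisors are counted separately) -/
noncomputable def dv (z : ZI) : ℕ := ((bl (nz z)).filter (fun d => d ∣ z)).card

/-- characters modulo `q` -/
structure Chi (q : ℕ) (χ : ZI →* ℂ) : Prop where
  per : ∀ a b : ZI, ((q : ℕ) : ZI) ∣ a - b → χ a = χ b
  supp : ∀ a : ZI, χ a ≠ 0 ↔ IsCoprime a ((q : ℕ) : ZI)
  nrm : ∀ a : ZI, IsCoprime a ((q : ℕ) : ZI) → ‖χ a‖ = 1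

/-- the coefficients `∑_{N(𝔫) = n} μ(𝔫) h(𝔫)` of the inverse of the Dirichlet series of `h` -/
noncomputable def bm (h : ZI → ℂ) (n : ℕ) : ℂ := bb (fun z => (mu z : ℂ) * h z) n

/-- the twisted partial sums `∑_{n ≤ x} f(n) n^{-it}` -/
noncomputable def ds (f : ℕ → ℂ) (x t : ℝ) : ℂ :=
  ∑ n ∈ Icc 1 ⌊x⌋₊, f n * (n : ℂ) ^ (-(t : ℂ) * Complex.I)

end Pool.Agent.N782.GN
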