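import Pool.Agent.N782.GN.FinA

/-!
# Project GN (helper782): from `Λ(l² + m²)` to the number of the primes `l² + m²`
-/

set_option autoImplicit false

namespace Pool.Agent.N782.GN

open Finset Filter Topology

/-- Abel's inequality -/
theorem abel (E w : ℕ → ℝ) (N0 : ℕ) (E0 : ℝ) (hw : ∀ m, N0 ≤ m → w (m + 1) ≤ w m) (hw0 : ∀ m, N0 ≤ m → 0 ≤ w m) :
    ∀ N, N0 ≤ N → (∀ n, N0 ≤ n → n ≤ N → |E n| ≤ E0) →
      |∑ m ∈ Ioc N0 N, (E m - E (m - 1)) * w m| ≤ 2 * E0 * w N0 := by
  have key : ∀ N, N0 ≤ N → (∀ n, N0 ≤ n → n ≤ N → |E n| ≤ E0) →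
      |∑ m ∈ Ioc N0 N, (E m - E (m - 1)) * w m - E N * w N| ≤ E0 * (2 * w N0 - w N) := by
    intro N hN
    induction N, hN using Nat.le_induction with
    | base =>
      intro h
      rw [Ioc_self, sum_empty, zero_sub, abs_neg, abs_mul, abs_of_nonneg (hw0 N0 le_rfl)]
      calc |E N0| * w N0 ≤ E0 * w N0 := mul_le_mul_of_nonneg_right (h N0 le_rfl le_rfl) (hw0 N0 le_rfl)
        _ = _ := by ring
    | succ N hN ih =>
      intro h
      have h1 := ih fun n h2 h3 => h n h2 (by omega)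
      rw [← Finset.insert_Ioc_right_eq_Ioc_add_one hN, sum_insert (by simp), Nat.add_sub_cancel]
      have h2 : (E (N + 1) - E N) * w (N + 1) + ∑ m ∈ Ioc N0 N, (E m - E (m - 1)) * w m - E (N + 1) * w (N + 1) =
          (∑ m ∈ Ioc N0 N, (E m - E (m - 1)) * w m - E N * w N) + E N * (w N - w (N + 1)) := by ring
      rw [h2]
      refine (abs_add_le _ _).trans ?_
      have h3 : |E N * (w N - w (N + 1))| ≤ E0 * (w N - w (N + 1)) := by
        have h4 : 0 ≤ w N - w (N + 1) := by linarith [hw N hN]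
        rw [abs_mul, abs_of_nonneg h4]
        exact mul_le_mul_of_nonneg_right (h N hN (by omega)) h4
      linarith
  intro N hN h
  have h1 := key N hN h
  have h2 : |E N * w N| ≤ E0 * w N := by
    rw [abs_mul, abs_of_nonneg (hw0 N hN)]
    exact mul_le_mul_of_nonneg_right (h N hN le_rfl) (hw0 N hN)
  have h3 := abs_add_le (∑ m ∈ Ioc N0 N, (E m - E (m - 1)) * w m - E N * w N) (E N * w N)
  rw [sub_add_cancel] at h3
  linarith

/-- the number of `m ≤ N` for which `l² + m²` is a proper prime power -/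
theorem card_pow_le (l N : ℕ) (hl : 1 ≤ l) :
    (((Icc 1 N).filter (fun m => IsPrimePow (l ^ 2 + m ^ 2) ∧ ¬ (l ^ 2 + m ^ 2).Prime)).card : ℝ) ≤
      l + (Nat.log 2 (l ^ 2 + N ^ 2) + 1) * (((l ^ 2 + N ^ 2 : ℕ) : ℝ) ^ (1 / 3 : ℝ) + 1) := by
  classical
  set X := l ^ 2 + N ^ 2 with hX
  set G := (Icc 1 N).filter (fun m => IsPrimePow (l ^ 2 + m ^ 2) ∧ ¬ (l ^ 2 + m ^ 2).Prime) with hG
  set G1 := (Icc 1 N).filter (fun m => IsSquare (l ^ 2 + m ^ 2)) with hG1
  set G2 := (Icc 1 N).filter (fun m => ∃ n k : ℕ, 3 ≤ k ∧ l ^ 2 + m ^ 2 = n ^ k) with hG2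
  have hsub : G ⊆ G1 ∪ G2 := by
    intro m hm
    rw [hG, mem_filter] at hm
    obtain ⟨h1, h2, h3⟩ := hm
    rw [isPrimePow_nat_iff] at h2
    obtain ⟨p, k, hp, hk, hpk⟩ := h2
    rw [mem_union, hG1, hG2, mem_filter, mem_filter]
    rcases Nat.lt_or_ge k 3 with h4 | h4
    · interval_cases k
      · exfalso
        rw [pow_one] at hpk
        exact h3 (hpk ▸ hp)
      · left
        exact ⟨h1, p, by rw [← hpk, sq]⟩
    · right
      exact ⟨h1, p, k, h4, hpk.symm⟩
  have hc1 : G1.card ≤ l := by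
    -- `m ↦ r - m`
    have h1 : ∀ m ∈ G1, ∃ d ∈ Icc 1 l, ∃ r : ℕ, l ^ 2 + m ^ 2 = r * r ∧ r = m + d := by
      intro m hm
      rw [hG1, mem_filter, mem_Icc] at hm
      obtain ⟨⟨hm1, _⟩, r, hr⟩ := hm
      have h2 : m < r := by
        by_contra hc
        push Not at hc
        have : r * r ≤ m * m := Nat.mul_le_mul hc hc
        nlinarith
      have h3 : r ≤ m + l := by
        by_contra hc
        push Not at hc
        have : (m + l) * (m + l) < r * r := Nat.mul_self_lt_mul_self hc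
        nlinarith
      exact ⟨r - m, by rw [mem_Icc]; omega, r, hr, by omega⟩
    choose! d hd r hr using h1
    have h2 : Set.InjOn d G1 := by
      intro m hm m' hm' he
      have h3 := hr m hm
      have h4 := hr m' hm'
      have h5 := hd m hm
      rw [mem_Icc] at h5
      rw [h3.2] at h3
      rw [h4.2, ← he] at h4
      have e1 : l ^ 2 = 2 * m * d m + d m * d m := by nlinarith [h3.1]
      have e2 : l ^ 2 = 2 * m' * d m + d m * d m := by nlinarith [h4.1]
      have e3 : m * d m = m' * d m := by nlinarith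
      exact Nat.eq_of_mul_eq_mul_right (by omega) e3
    calc G1.card ≤ (Icc 1 l).card := card_le_card_of_injOn d (fun m hm => hd m hm) h2
      _ = l := by rw [Nat.card_Icc, Nat.add_sub_cancel]
  have hc2 : (G2.card : ℝ) ≤ (Nat.log 2 X + 1) * ((X : ℝ) ^ (1 / 3 : ℝ) + 1) := by
    set Q := ⌊(X : ℝ) ^ (1 / 3 : ℝ)⌋₊ with hQ
    set H := ((range (Nat.log 2 X + 1)) ×ˢ (range (Q + 1))).image (fun kn : ℕ × ℕ => kn.2 ^ kn.1) with hH
    have h1 : ∀ m ∈ G2, l ^ 2 + m ^ 2 ∈ H := by
      intro m hm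
      rw [hG2, mem_filter, mem_Icc] at hm
      obtain ⟨⟨hm1, hmN⟩, n, k, hk, hn⟩ := hm
      rw [hH, mem_image]
      refine ⟨(k, n), ?_, hn.symm⟩
      have hmX : n ^ k ≤ X := by
        rw [← hn, hX]
        have : m ^ 2 ≤ N ^ 2 := Nat.pow_le_pow_left hmN 2
        omega
      have hn2 : 2 ≤ n := by
        by_contra hc
        have h2 : n ≤ 1 := by omega
        have h3 : n ^ k ≤ 1 := (Nat.pow_le_pow_left h2 k).trans (by rw [one_pow])
        rw [← hn] at h3
        have h4 : 1 ≤ m ^ 2 := Nat.one_le_pow _ _ hm1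
        have h5 : 1 ≤ l ^ 2 := Nat.one_le_pow _ _ hl
        omega
      rw [mem_product, mem_range, mem_range]
      constructor
      · have h2 : 2 ^ k ≤ X := (Nat.pow_le_pow_left hn2 k).trans hmX
        have h3 : k ≤ Nat.log 2 X := Nat.le_log_of_pow_le (by norm_num) h2
        simp only
        omega
      · have h2 : n ^ 3 ≤ X := (Nat.pow_le_pow_right (by omega) hk).trans hmX
        have h3 : (n : ℝ) ≤ (X : ℝ) ^ (1 / 3 : ℝ) := by
          have h4 : ((n : ℝ) ^ 3) ≤ X := by exact_mod_cast h2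
          calc (n : ℝ) = ((n : ℝ) ^ (3 : ℕ)) ^ (1 / 3 : ℝ) := by
                rw [← Real.rpow_natCast, ← Real.rpow_mul (by positivity)]
                norm_num
            _ ≤ _ := Real.rpow_le_rpow (by positivity) h4 (by norm_num)
        have h4 : n ≤ Q := Nat.le_floor h3
        simp only
        omega
    have h2 : G2.card ≤ H.card := by
      apply card_le_card_of_injOn (fun m => l ^ 2 + m ^ 2) h1
      intro m _ m' _ he
      simp only at he
      have : m ^ 2 = m' ^ 2 := by omega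
      exact Nat.pow_left_injective (by norm_num) this
    have h3 : H.card ≤ (Nat.log 2 X + 1) * (Q + 1) := by
      refine card_image_le.trans ?_
      rw [card_product, card_range, card_range]
    have h4 : (Q : ℝ) ≤ (X : ℝ) ^ (1 / 3 : ℝ) := Nat.floor_le (by positivity)
    calc (G2.card : ℝ) ≤ (((Nat.log 2 X + 1) * (Q + 1) : ℕ) : ℝ) := by exact_mod_cast h2.trans h3
      _ = (Nat.log 2 X + 1) * (Q + 1) := by push_cast; ring
      _ ≤ _ := by gcongr
  have h3 : G.card ≤ G1.card + G2.card := (card_le_card hsub).trans (card_union_le _ _)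
  calc (G.card : ℝ) ≤ G1.card + G2.card := by exact_mod_cast h3
    _ ≤ l + (Nat.log 2 X + 1) * ((X : ℝ) ^ (1 / 3 : ℝ) + 1) := by
      have : (G1.card : ℝ) ≤ l := by exact_mod_cast hc1
      linarith
    _ = _ := by rfl

end Pool.Agent.N782.GN
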