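import Pool.Agent.N782.GN.FinB

/-!
# Project GN (helper782): from `Λ(l² + m²)` to the number of the primes `l² + m²`, part 2
-/

set_option autoImplicit false

namespace Pool.Agent.N782.GN

open Finset Filter Topology

/-- the sum of the weights `1 / (2 log m)` and the integral -/
theorem sum_int (N0 N : ℕ) (u : ℝ) (h0 : 3 ≤ N0) (hN : N0 ≤ N) (hu : (N : ℝ) ≤ u) (hu2 : u ≤ N + 1) :
    |∑ m ∈ Ioc N0 N, 1 / (2 * Real.log m) - ∫ t in (2 : ℝ)..u, 1 / (2 * Real.log t)| ≤ N0 + 2 := by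
  have hcont : ContinuousOn (fun t : ℝ => 1 / (2 * Real.log t)) (Set.Ici 2) := by
    apply ContinuousOn.div continuousOn_const
    · apply ContinuousOn.mul continuousOn_const
      apply Real.continuousOn_log.mono
      intro x hx
      rw [Set.mem_compl_singleton_iff]
      rw [Set.mem_Ici] at hx
      linarith
    · intro x hx
      rw [Set.mem_Ici] at hx
      have := Real.log_pos (show (1 : ℝ) < x by linarith)
      positivity
  have hii : ∀ a b : ℝ, 2 ≤ a → 2 ≤ b → IntervalIntegrable (fun t : ℝ => 1 / (2 * Real.log t)) MeasureTheory.volume a b := by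
    intro a b ha hb
    apply (hcont.mono _).intervalIntegrable
    intro x hx
    rw [Set.mem_uIcc] at hx
    rw [Set.mem_Ici]
    rcases hx with h | h <;> linarith
  have hbd : ∀ t : ℝ, 2 ≤ t → 0 ≤ 1 / (2 * Real.log t) ∧ 1 / (2 * Real.log t) ≤ 1 := by
    intro t ht
    have h1 : Real.log 2 ≤ Real.log t := Real.log_le_log (by norm_num) ht
    have h2 := Real.log_two_gt_d9
    have h3 : 0 < Real.log t := by linarith
    refine ⟨by positivity, ?_⟩
    rw [div_le_one (by positivity)]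
    linarith
  have hI : ∀ a b : ℝ, 2 ≤ a → a ≤ b → 0 ≤ (∫ t in a..b, 1 / (2 * Real.log t)) ∧
      (∫ t in a..b, 1 / (2 * Real.log t)) ≤ b - a := by
    intro a b ha hab
    constructor
    · apply intervalIntegral.integral_nonneg hab
      intro t ht
      exact (hbd t (by linarith [ht.1])).1
    · have h1 : ∫ t in a..b, 1 / (2 * Real.log t) ≤ ∫ _ in a..b, (1 : ℝ) := by
        apply intervalIntegral.integral_mono_on hab (hii a b ha (by linarith)) (by simp)
        intro t ht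
        exact (hbd t (by linarith [ht.1])).2
      simpa using h1
  have hN0r : (3 : ℝ) ≤ N0 := by exact_mod_cast h0
  have hNr : (N0 : ℝ) ≤ N := by exact_mod_cast hN
  have hanti : AntitoneOn (fun t : ℝ => 1 / (2 * Real.log t)) (Set.Icc (N0 : ℝ) N) := by
    intro x hx y hy hxy
    have h1 : 0 < Real.log x := Real.log_pos (by linarith [hx.1])
    have h2 : Real.log x ≤ Real.log y := Real.log_le_log (by linarith [hx.1]) hxy
    exact one_div_le_one_div_of_le (by positivity) (by linarith)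
  have s1 : ∑ m ∈ Ioc N0 N, 1 / (2 * Real.log m) ≤ ∫ t in (N0 : ℝ)..N, 1 / (2 * Real.log t) := by
    have h1 := AntitoneOn.sum_le_integral_Ico hN hanti
    rw [Finset.sum_Ico_add' (fun m : ℕ => 1 / (2 * Real.log (m : ℝ))) N0 N 1] at h1
    have h2 : Ioc N0 N = Ico (N0 + 1) (N + 1) := by
      ext x
      simp only [mem_Ioc, mem_Ico]
      omega
    rw [h2]
    exact h1
  have s2 : ∫ t in (N0 : ℝ)..N, 1 / (2 * Real.log t) ≤ ∑ m ∈ Ioc N0 N, 1 / (2 * Real.log m) + 1 := by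
    have h1 := AntitoneOn.integral_le_sum_Ico hN hanti
    have h2 : ∑ x ∈ Ico N0 N, (1 / (2 * Real.log ((x : ℕ) : ℝ))) ≤ ∑ m ∈ Ioc N0 N, 1 / (2 * Real.log m) + 1 := by
      have h3 : ∑ x ∈ Ico N0 N, (1 / (2 * Real.log ((x : ℕ) : ℝ))) ≤ ∑ x ∈ Icc N0 N, (1 / (2 * Real.log ((x : ℕ) : ℝ))) := by
        apply sum_le_sum_of_subset_of_nonneg
        · intro x hx
          rw [mem_Ico] at hx
          rw [mem_Icc]
          omega
        · intro x hx _
          rw [mem_Icc] at hx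
          have : (2 : ℝ) ≤ x := by
            have h4 : (2 : ℕ) ≤ x := by omega
            exact_mod_cast h4
          exact (hbd x this).1
      have h4 : Icc N0 N = insert N0 (Ioc N0 N) := by
        ext x
        simp only [mem_Icc, mem_insert, mem_Ioc]
        omega
      rw [h4, sum_insert (by simp)] at h3
      have h5 := (hbd N0 (by linarith)).2
      linarith
    exact h1.trans h2
  have s3 : ∫ t in (2 : ℝ)..u, 1 / (2 * Real.log t) = (∫ t in (2 : ℝ)..N0, 1 / (2 * Real.log t)) +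
      (∫ t in (N0 : ℝ)..N, 1 / (2 * Real.log t)) + (∫ t in (N : ℝ)..u, 1 / (2 * Real.log t)) := by
    rw [intervalIntegral.integral_add_adjacent_intervals (hii _ _ le_rfl (by linarith)) (hii _ _ (by linarith) (by linarith)),
      intervalIntegral.integral_add_adjacent_intervals (hii _ _ le_rfl (by linarith)) (hii _ _ (by linarith) (by linarith))]
  obtain ⟨a1, a2⟩ := hI 2 N0 le_rfl (by linarith)
  obtain ⟨b1, b2⟩ := hI N u (by linarith) hu
  rw [s3, abs_le]
  constructor <;> linarith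

/-- replacing `log (l² + m²)` by `2 log m` -/
theorem weight_diff {l m : ℕ} (hl : 1 ≤ l) (hm : 3 ≤ m) :
    0 ≤ 1 / (2 * Real.log m) - 1 / Real.log ((l ^ 2 + m ^ 2 : ℕ) : ℝ) ∧
      1 / (2 * Real.log m) - 1 / Real.log ((l ^ 2 + m ^ 2 : ℕ) : ℝ) ≤ ((l : ℝ) / m) ^ 2 := by
  have hm3 : (3 : ℝ) ≤ m := by exact_mod_cast hm
  have hlog : 1 ≤ Real.log m := by
    rw [Real.le_log_iff_exp_le (by linarith)]
    have := Real.exp_one_lt_d9
    linarith
  have hl1 : (1 : ℝ) ≤ l := by exact_mod_cast hl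
  have h1 : Real.log ((l ^ 2 + m ^ 2 : ℕ) : ℝ) = 2 * Real.log m + Real.log (1 + ((l : ℝ) / m) ^ 2) := by
    have : ((l ^ 2 + m ^ 2 : ℕ) : ℝ) = (m : ℝ) ^ 2 * (1 + ((l : ℝ) / m) ^ 2) := by
      push_cast
      field_simp
      ring
    rw [this, Real.log_mul (by positivity) (by positivity), Real.log_pow]
    push_cast
    ring
  set x := ((l : ℝ) / m) ^ 2 with hx
  have hx0 : 0 ≤ x := by positivity
  have h2 : 0 ≤ Real.log (1 + x) := Real.log_nonneg (by linarith)
  have h3 : Real.log (1 + x) ≤ x := by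
    have := Real.log_le_sub_one_of_pos (show 0 < 1 + x by linarith)
    linarith
  rw [h1]
  set y := Real.log m
  set z := Real.log (1 + x)
  have h4 : 1 / (2 * y) - 1 / (2 * y + z) = z / (2 * y * (2 * y + z)) := by
    have : 2 * y + z ≠ 0 := by positivity
    field_simp
    ring
  rw [h4]
  refine ⟨by positivity, ?_⟩
  calc z / (2 * y * (2 * y + z)) ≤ z / 1 := by
        apply div_le_div_of_nonneg_left h2 one_pos
        nlinarith
    _ = z := div_one z
    _ ≤ x := h3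

/-- the weighted sum of `Λ` -/
noncomputable def TT (c : ℕ → ℝ) (l t : ℕ) : ℝ := ∑ m ∈ Icc 1 t, c m * ArithmeticFunction.vonMangoldt (l ^ 2 + m ^ 2)

open Classical in
/-- the weighted number of primes -/
noncomputable def PP (c : ℕ → ℝ) (l t : ℕ) : ℝ := ∑ m ∈ Icc 1 t, c m * (if (l ^ 2 + m ^ 2).Prime then 1 else 0)

open Classical in
/-- the weighted sum of `log p` -/
noncomputable def TH (c : ℕ → ℝ) (l t : ℕ) : ℝ :=
  ∑ m ∈ Icc 1 t, c m * (if (l ^ 2 + m ^ 2).Prime then Real.log ((l ^ 2 + m ^ 2 : ℕ) : ℝ) else 0)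

/-- the prime powers -/
theorem TT_TH (c : ℕ → ℝ) (hc : ∀ m, 0 ≤ c m ∧ c m ≤ 2) (l N t : ℕ) (hl : 1 ≤ l) (ht : t ≤ N) :
    |TT c l t - TH c l t| ≤ 2 * Real.log ((l ^ 2 + N ^ 2 : ℕ) : ℝ) *
      (l + (Nat.log 2 (l ^ 2 + N ^ 2) + 1) * (((l ^ 2 + N ^ 2 : ℕ) : ℝ) ^ (1 / 3 : ℝ) + 1)) := by
  classical
  unfold TT TH
  rw [← sum_sub_distrib]
  refine (abs_sum_le_sum_abs _ _).trans ?_
  have h1 : ∀ m ∈ Icc 1 t, |c m * ArithmeticFunction.vonMangoldt (l ^ 2 + m ^ 2) -
      c m * (if (l ^ 2 + m ^ 2).Prime then Real.log ((l ^ 2 + m ^ 2 : ℕ) : ℝ) else 0)| ≤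
      if IsPrimePow (l ^ 2 + m ^ 2) ∧ ¬ (l ^ 2 + m ^ 2).Prime then 2 * Real.log ((l ^ 2 + N ^ 2 : ℕ) : ℝ) else 0 := by
    intro m hm
    rw [mem_Icc] at hm
    by_cases hp : (l ^ 2 + m ^ 2).Prime
    · rw [if_pos hp, ArithmeticFunction.vonMangoldt_apply_prime hp, sub_self, abs_zero, if_neg (fun h => h.2 hp)]
    · rw [if_neg hp, mul_zero, sub_zero]
      by_cases hq : IsPrimePow (l ^ 2 + m ^ 2)
      · rw [if_pos ⟨hq, hp⟩, abs_mul, abs_of_nonneg (hc m).1, abs_of_nonneg ArithmeticFunction.vonMangoldt_nonneg]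
        have h2 : ArithmeticFunction.vonMangoldt (l ^ 2 + m ^ 2) ≤ Real.log ((l ^ 2 + N ^ 2 : ℕ) : ℝ) := by
          refine ArithmeticFunction.vonMangoldt_le_log.trans ?_
          apply Real.log_le_log
          · have : 0 < l ^ 2 + m ^ 2 := by positivity
            exact_mod_cast this
          · have h3 : m ^ 2 ≤ N ^ 2 := Nat.pow_le_pow_left (by omega) 2
            have : l ^ 2 + m ^ 2 ≤ l ^ 2 + N ^ 2 := by omega
            exact_mod_cast this
        exact mul_le_mul (hc m).2 h2 ArithmeticFunction.vonMangoldt_nonneg (by norm_num)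
      · rw [if_neg (fun h => hq h.1)]
        have : ArithmeticFunction.vonMangoldt (l ^ 2 + m ^ 2) = 0 := by
          rw [ArithmeticFunction.vonMangoldt_apply, if_neg hq]
        rw [this, mul_zero, abs_zero]
  refine (sum_le_sum h1).trans ?_
  rw [← sum_filter, sum_const, nsmul_eq_mul, mul_comm]
  have h0 : 0 ≤ Real.log ((l ^ 2 + N ^ 2 : ℕ) : ℝ) := Real.log_natCast_nonneg _
  refine mul_le_mul_of_nonneg_left ?_ (by positivity)
  refine le_trans ?_ (card_pow_le l N hl)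
  have : ((Icc 1 t).filter (fun m => IsPrimePow (l ^ 2 + m ^ 2) ∧ ¬ (l ^ 2 + m ^ 2).Prime)).card ≤
      ((Icc 1 N).filter (fun m => IsPrimePow (l ^ 2 + m ^ 2) ∧ ¬ (l ^ 2 + m ^ 2).Prime)).card := by
    apply card_le_card
    apply filter_subset_filter
    apply Icc_subset_Icc le_rfl ht
  exact_mod_cast this

/-- partial summation -/
theorem PP_eq (c : ℕ → ℝ) (hc : ∀ m, 0 ≤ c m ∧ c m ≤ 2) (l N0 N : ℕ) (s E0 : ℝ) (hl : 1 ≤ l) (h0 : 3 ≤ N0)
    (hN : N0 ≤ N) (hs : 0 ≤ s) (hlN : (l : ℝ) ≤ N0)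
    (hE : ∀ n : ℕ, N0 ≤ n → n ≤ N → |TH c l n - n * s| ≤ E0) (u : ℝ) (hu : (N : ℝ) ≤ u) (hu2 : u ≤ N + 1) :
    |PP c l N - s * ∫ t in (2 : ℝ)..u, 1 / (2 * Real.log t)| ≤
      2 * E0 + 2 * N0 + s * (N * ((l : ℝ) / N0) ^ 2 + N0 + 2) := by
  classical
  set w : ℕ → ℝ := fun m => 1 / Real.log ((l ^ 2 + m ^ 2 : ℕ) : ℝ) with hw
  set E : ℕ → ℝ := fun n => TH c l n - n * s with hEd
  have hlogpos : ∀ m, N0 ≤ m → 1 ≤ Real.log ((l ^ 2 + m ^ 2 : ℕ) : ℝ) := by
    intro m hm
    have h3 : (3 : ℝ) ≤ ((l ^ 2 + m ^ 2 : ℕ) : ℝ) := by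
      have : 3 ≤ l ^ 2 + m ^ 2 := by nlinarith
      exact_mod_cast this
    rw [Real.le_log_iff_exp_le (by linarith)]
    have := Real.exp_one_lt_d9
    linarith
  have hw0 : ∀ m, N0 ≤ m → 0 ≤ w m := fun m hm => by
    simp only [hw]
    have := hlogpos m hm
    positivity
  have hw1 : w N0 ≤ 1 := by
    simp only [hw]
    rw [div_le_one (by linarith [hlogpos N0 le_rfl])]
    exact hlogpos N0 le_rfl
  have hwm : ∀ m, N0 ≤ m → w (m + 1) ≤ w m := by
    intro m hm
    simp only [hw]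
    apply one_div_le_one_div_of_le (by linarith [hlogpos m hm])
    apply Real.log_le_log
    · have : 0 < l ^ 2 + m ^ 2 := by positivity
      exact_mod_cast this
    · have : l ^ 2 + m ^ 2 ≤ l ^ 2 + (m + 1) ^ 2 := by nlinarith
      exact_mod_cast this
  have hE0 : 0 ≤ E0 := (abs_nonneg _).trans (hE N0 le_rfl hN)
  have hab := abel E w N0 E0 hwm hw0 N hN hE
  have e1 : ∑ m ∈ Ioc N0 N, (E m - E (m - 1)) * w m =
      ∑ m ∈ Ioc N0 N, c m * (if (l ^ 2 + m ^ 2).Prime then 1 else 0) - s * ∑ m ∈ Ioc N0 N, w m := by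
    rw [mul_sum, ← sum_sub_distrib]
    refine sum_congr rfl fun m hm => ?_
    rw [mem_Ioc] at hm
    have h1 : TH c l m = TH c l (m - 1) + c m * (if (l ^ 2 + m ^ 2).Prime then Real.log ((l ^ 2 + m ^ 2 : ℕ) : ℝ) else 0) := by
      unfold TH
      obtain ⟨k, rfl⟩ : ∃ k, m = k + 1 := ⟨m - 1, by omega⟩
      rw [Nat.add_sub_cancel, sum_Icc_succ_top (by omega)]
    have h2 : ((m : ℕ) : ℝ) = ((m - 1 : ℕ) : ℝ) + 1 := by
      have : m = (m - 1) + 1 := by omega
      exact_mod_cast this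
    have h3 : E m - E (m - 1) = c m * (if (l ^ 2 + m ^ 2).Prime then Real.log ((l ^ 2 + m ^ 2 : ℕ) : ℝ) else 0) - s := by
      simp only [hEd]
      rw [h1, h2]
      ring
    rw [h3, sub_mul]
    congr 1
    have h4 := hlogpos m (by omega)
    simp only [hw]
    split_ifs
    · rw [mul_assoc, mul_one_div_cancel (by linarith)]
    · ring
  have e2 : PP c l N = PP c l N0 + ∑ m ∈ Ioc N0 N, c m * (if (l ^ 2 + m ^ 2).Prime then 1 else 0) := by
    unfold PP
    rw [← Finset.sum_union]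
    · congr 1
      ext x
      simp only [mem_Icc, mem_union, mem_Ioc]
      omega
    · rw [disjoint_left]
      intro x hx
      rw [mem_Icc] at hx
      rw [mem_Ioc]
      omega
  have e3 : 0 ≤ PP c l N0 ∧ PP c l N0 ≤ 2 * N0 := by
    unfold PP
    constructor
    · apply sum_nonneg
      intro m _
      have := (hc m).1
      split_ifs <;> simp [this]
    · calc _ ≤ ∑ m ∈ Icc 1 N0, (2 : ℝ) := by
            refine sum_le_sum fun m _ => ?_
            have := hc m
            split_ifs <;> linarith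
        _ = 2 * N0 := by
            rw [sum_const, Nat.card_Icc, nsmul_eq_mul, Nat.add_sub_cancel, mul_comm]
  have e4 : |∑ m ∈ Ioc N0 N, w m - ∑ m ∈ Ioc N0 N, 1 / (2 * Real.log (m : ℝ))| ≤ N * ((l : ℝ) / N0) ^ 2 := by
    rw [← sum_sub_distrib]
    refine (abs_sum_le_sum_abs _ _).trans ?_
    calc _ ≤ ∑ m ∈ Ioc N0 N, ((l : ℝ) / N0) ^ 2 := by
          refine sum_le_sum fun m hm => ?_
          rw [mem_Ioc] at hm
          obtain ⟨h1, h2⟩ := weight_diff hl (show 3 ≤ m by omega)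
          simp only [hw]
          rw [abs_sub_comm, abs_of_nonneg h1]
          refine h2.trans ?_
          have h3 : (N0 : ℝ) ≤ m := by exact_mod_cast hm.1.le
          have h4 : (0 : ℝ) < N0 := by
            have : 0 < N0 := by omega
            exact_mod_cast this
          gcongr
      _ ≤ N * ((l : ℝ) / N0) ^ 2 := by
          rw [sum_const, Nat.card_Ioc, nsmul_eq_mul]
          refine mul_le_mul_of_nonneg_right ?_ (by positivity)
          have : N - N0 ≤ N := by omega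
          exact_mod_cast this
  have e5 := sum_int N0 N u h0 hN hu hu2
  rw [e1] at hab
  have hab2 : 2 * E0 * w N0 ≤ 2 * E0 := by nlinarith
  have e6 : |s * ∑ m ∈ Ioc N0 N, w m - s * ∫ t in (2 : ℝ)..u, 1 / (2 * Real.log t)| ≤
      s * (N * ((l : ℝ) / N0) ^ 2 + N0 + 2) := by
    rw [← mul_sub, abs_mul, abs_of_nonneg hs]
    refine mul_le_mul_of_nonneg_left ?_ hs
    have h1 := abs_add_le (∑ m ∈ Ioc N0 N, w m - ∑ m ∈ Ioc N0 N, 1 / (2 * Real.log (m : ℝ)))
      (∑ m ∈ Ioc N0 N, 1 / (2 * Real.log (m : ℝ)) - ∫ t in (2 : ℝ)..u, 1 / (2 * Real.log t))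
    rw [sub_add_sub_cancel] at h1
    linarith
  rw [e2]
  rw [abs_le] at hab e6 ⊢
  constructor <;> linarith [hab.1, hab.2, e6.1, e6.2, e3.1, e3.2]

end Pool.Agent.N782.GN
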