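import Pool.Agent.N782.GN.FinC

/-!
# Project GN (helper782): from `Λ(l² + m²)` to the number of the primes `l² + m²`, part 3; almost all `l`
-/

set_option autoImplicit false

namespace Pool.Agent.N782.GN

open Finset Filter Topology

theorem conv (ε : ℝ) (A : ℕ) (K : ℝ) (hε : 0 < ε) (hK : 0 ≤ K) : ∃ L₀ : ℝ, 3 ≤ L₀ ∧ ∀ L : ℝ, L₀ ≤ L →
    ∀ (l : ℕ) (s : ℝ) (c : ℕ → ℝ), 1 ≤ l → (l : ℝ) ≤ L → 0 ≤ s → s ≤ K * Real.log L → (∀ m, 0 ≤ c m ∧ c m ≤ 2) →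
    (∀ t : ℕ, L ^ (1 + ε / 2) ≤ t → (t : ℝ) ≤ L ^ (3 / 2 - ε) → |TT c l t - t * s| ≤ t / (Real.log L) ^ (A + 1)) →
    ∀ u : ℝ, L ^ (1 + ε) ≤ u → u ≤ L ^ (3 / 2 - ε) →
      |PP c l ⌊u⌋₊ - s * ∫ t in (2 : ℝ)..u, 1 / (2 * Real.log t)| ≤ u / (Real.log L) ^ A := by
  have hev := (((ev_log_rpow (ε / 2) (by positivity) (A + 2) (2 * (356 + 5 * K))).and
    (eventually_ge_atTop (3 : ℝ))).and (ev_rpow_ge (ε / 2) 3 (by positivity))).and (ev_log_pow 1 4 one_pos 0)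
  obtain ⟨L₀, hL₀⟩ := eventually_atTop.1 hev
  refine ⟨max L₀ 3, le_max_right _ _, fun L hL l s c hl1 hlL hs0 hsK hc hT u hu1 hu2 => ?_⟩
  obtain ⟨⟨⟨h1, hL3⟩, h2⟩, h3⟩ := hL₀ L ((le_max_left _ _).trans hL)
  rw [zero_add, pow_one, one_mul] at h3
  set ℓ := Real.log L with hℓ
  have hL0 : 0 < L := by linarith
  have hL1 : 1 ≤ L := by linarith
  have hℓ0 : 0 < ℓ := by linarith
  set N0 : ℕ := ⌈L ^ (1 + ε / 2)⌉₊ with hN0
  set N : ℕ := ⌊u⌋₊ with hN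
  have hu0 : 0 < u := lt_of_lt_of_le (by positivity) hu1
  have hP1 : L ≤ L ^ (1 + ε / 2) := by
    calc L = L ^ (1 : ℝ) := (Real.rpow_one L).symm
      _ ≤ _ := Real.rpow_le_rpow_of_exponent_le hL1 (by linarith)
  have hP2 : 3 * L ^ (1 + ε / 2) ≤ L ^ (1 + ε) := by
    calc 3 * L ^ (1 + ε / 2) ≤ L ^ (ε / 2) * L ^ (1 + ε / 2) := mul_le_mul_of_nonneg_right h2 (by positivity)
      _ = L ^ (1 + ε) := by
        rw [← Real.rpow_add hL0]
        congr 1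
        ring
  have hN0a : L ^ (1 + ε / 2) ≤ N0 := Nat.le_ceil _
  have hN0b : (N0 : ℝ) ≤ 2 * L ^ (1 + ε / 2) := by
    have := (Nat.ceil_lt_add_one (show 0 ≤ L ^ (1 + ε / 2) by positivity)).le
    rw [hN0]
    linarith
  have hN0c : 3 ≤ N0 := by
    have : (3 : ℝ) ≤ N0 := by linarith
    exact_mod_cast this
  have hNu : (N : ℝ) ≤ u := Nat.floor_le hu0.le
  have hNu2 : u ≤ N + 1 := (Nat.lt_floor_add_one u).le
  have hN0N : N0 ≤ N := by
    apply Nat.le_floor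
    linarith
  have hlN0 : (l : ℝ) ≤ N0 := by linarith
  -- `u ≤ L^(3/2)`
  have hu3 : u ≤ L ^ (3 / 2 : ℝ) := hu2.trans (Real.rpow_le_rpow_of_exponent_le hL1 (by linarith))
  have hu4 : u ^ 2 ≤ L ^ 3 := by
    calc u ^ 2 ≤ (L ^ (3 / 2 : ℝ)) ^ 2 := pow_le_pow_left₀ hu0.le hu3 2
      _ = L ^ 3 := by
        rw [← Real.rpow_natCast, ← Real.rpow_mul hL0.le, ← Real.rpow_natCast L 3]
        congr 1
        push_cast
        ring
  set X : ℕ := l ^ 2 + N ^ 2 with hX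
  have hXr : (X : ℝ) ≤ 2 * L ^ 3 := by
    rw [hX]
    push_cast
    have a1 : (l : ℝ) ^ 2 ≤ L ^ 2 := pow_le_pow_left₀ (by positivity) hlL 2
    have a2 : (N : ℝ) ^ 2 ≤ u ^ 2 := pow_le_pow_left₀ (by positivity) hNu 2
    have a3 : L ^ 2 ≤ L ^ 3 := pow_le_pow_right₀ hL1 (by norm_num)
    linarith
  have hXpos : 0 < X := by positivity
  have hXr1 : (1 : ℝ) ≤ X := by exact_mod_cast hXpos
  have hlogX : Real.log (X : ℝ) ≤ 4 * ℓ := by
    have a1 : (X : ℝ) ≤ L ^ 4 := by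
      refine hXr.trans ?_
      rw [pow_succ L 3, mul_comm]
      exact mul_le_mul_of_nonneg_left (by linarith) (by positivity)
    refine (Real.log_le_log (by linarith) a1).trans ?_
    rw [Real.log_pow]
    push_cast
    exact le_rfl
  have hlog2 : ((Nat.log 2 X : ℕ) : ℝ) + 1 ≤ 7 * ℓ := by
    have a1 : (2 : ℝ) ^ (Nat.log 2 X) ≤ X := by
      have := Nat.pow_log_le_self 2 hXpos.ne'
      exact_mod_cast this
    have a2 := Real.log_le_log (by positivity) a1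
    rw [Real.log_pow] at a2
    have a3 := Real.log_two_gt_d9
    have a4 : (0 : ℝ) ≤ (Nat.log 2 X : ℕ) := Nat.cast_nonneg _
    nlinarith
  have hX3 : (X : ℝ) ^ (1 / 3 : ℝ) ≤ 2 * L := by
    calc (X : ℝ) ^ (1 / 3 : ℝ) ≤ (8 * L ^ 3) ^ (1 / 3 : ℝ) :=
          Real.rpow_le_rpow (by positivity) (by nlinarith [pow_pos hL0 3]) (by norm_num)
      _ = ((2 * L) ^ (3 : ℕ)) ^ (1 / 3 : ℝ) := by
          congr 1
          ring
      _ = 2 * L := by
          rw [← Real.rpow_natCast, ← Real.rpow_mul (by positivity)]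
          norm_num
  -- the prime powers
  set PB : ℝ := 2 * Real.log (X : ℝ) * (l + (Nat.log 2 X + 1) * ((X : ℝ) ^ (1 / 3 : ℝ) + 1)) with hPB
  have hPBb : PB ≤ 176 * L * ℓ ^ 2 := by
    have a0 : 0 ≤ Real.log (X : ℝ) := Real.log_nonneg hXr1
    have a1 : (l : ℝ) + (Nat.log 2 X + 1) * ((X : ℝ) ^ (1 / 3 : ℝ) + 1) ≤ L + 7 * ℓ * (3 * L) := by
      have a2 : ((Nat.log 2 X : ℕ) + 1 : ℝ) * ((X : ℝ) ^ (1 / 3 : ℝ) + 1) ≤ 7 * ℓ * (3 * L) :=
        mul_le_mul hlog2 (by linarith) (by positivity) (by positivity)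
      linarith
    have a3 : L + 7 * ℓ * (3 * L) ≤ 22 * L * ℓ := by nlinarith
    calc PB ≤ 2 * (4 * ℓ) * (22 * L * ℓ) := by
          rw [hPB]
          exact mul_le_mul (by linarith) (a1.trans a3) (by positivity) (by positivity)
      _ = 176 * L * ℓ ^ 2 := by ring
  set E0 : ℝ := u / ℓ ^ (A + 1) + PB with hE0
  have hE : ∀ n : ℕ, N0 ≤ n → n ≤ N → |TH c l n - n * s| ≤ E0 := by
    intro n hn1 hn2
    have hn1' : (N0 : ℝ) ≤ n := by exact_mod_cast hn1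
    have hn2' : (n : ℝ) ≤ N := by exact_mod_cast hn2
    have a1 := hT n (hN0a.trans hn1') (by linarith)
    have a2 := TT_TH c hc l N n hl1 hn2
    have a3 : (n : ℝ) / ℓ ^ (A + 1) ≤ u / ℓ ^ (A + 1) := by
      refine div_le_div_of_nonneg_right ?_ (by positivity)
      linarith
    have a4 := abs_add_le (TH c l n - TT c l n) (TT c l n - n * s)
    rw [sub_add_sub_cancel] at a4
    rw [abs_sub_comm (TT c l n) (TH c l n)] at a2
    have a5 : |TH c l n - TT c l n| ≤ PB := a2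
    linarith
  refine (PP_eq c hc l N0 N s E0 hl1 hN0c hN0N hs0 hlN0 hE u hNu hNu2).trans ?_
  -- the final estimate
  have hq : L ^ (1 + ε / 2) = L * L ^ (ε / 2) := by rw [Real.rpow_add hL0, Real.rpow_one]
  have hu5 : L * L ^ (ε / 2) * L ^ (ε / 2) ≤ u := by
    refine le_trans (le_of_eq ?_) hu1
    rw [mul_assoc, ← Real.rpow_add hL0, add_halves, Real.rpow_add hL0, Real.rpow_one]
  set q := L ^ (ε / 2) with hqd
  have hq0 : 0 < q := by positivity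
  have hq1 : 3 ≤ q := h2
  have b1 : (l : ℝ) / N0 ≤ 1 / q := by
    have hN00 : (0 : ℝ) < N0 := by linarith
    rw [div_le_div_iff₀ hN00 hq0, one_mul]
    calc (l : ℝ) * q ≤ L * q := mul_le_mul_of_nonneg_right hlL hq0.le
      _ ≤ N0 := by rw [← hq]; exact hN0a
  have b2 : (N : ℝ) * ((l : ℝ) / N0) ^ 2 ≤ u / q := by
    calc (N : ℝ) * ((l : ℝ) / N0) ^ 2 ≤ u * (1 / q) ^ 2 := by gcongr
      _ = u / q * (1 / q) := by ring
      _ ≤ u / q * 1 := by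
        refine mul_le_mul_of_nonneg_left ?_ (by positivity)
        rw [div_le_one hq0]
        linarith
      _ = u / q := mul_one _
  have b3 : L * q ≤ u / q := by
    rw [le_div_iff₀ hq0]
    exact hu5
  have b4 : (N0 : ℝ) ≤ 2 * (u / q) := by
    refine hN0b.trans ?_
    rw [hq]
    linarith
  have b5 : L ≤ u / q := by
    refine le_trans ?_ b3
    nlinarith
  have b6 : s * (N * ((l : ℝ) / N0) ^ 2 + N0 + 2) ≤ K * ℓ * (5 * (u / q)) := by
    refine mul_le_mul hsK ?_ (by positivity) (by positivity)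
    linarith
  have b7 : 2 * E0 + 2 * N0 + s * (N * ((l : ℝ) / N0) ^ 2 + N0 + 2) ≤
      2 * (u / ℓ ^ (A + 1)) + (u / q) * ((356 + 5 * K) * ℓ ^ 2) := by
    have c1 : PB ≤ 176 * (u / q) * ℓ ^ 2 := by
      refine hPBb.trans ?_
      have : 176 * L ≤ 176 * (u / q) := by linarith
      exact mul_le_mul_of_nonneg_right this (by positivity)
    have c2 : ℓ ≤ ℓ ^ 2 := by nlinarith
    have c3 : 1 ≤ ℓ ^ 2 := by nlinarith
    have hx : 0 ≤ u / q := by positivity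
    have c4 : 2 * (N0 : ℝ) ≤ 4 * (u / q) * ℓ ^ 2 := by nlinarith
    have c5 : K * ℓ * (5 * (u / q)) ≤ 5 * K * (u / q) * ℓ ^ 2 := by
      have : 0 ≤ 5 * K * (u / q) := by positivity
      nlinarith
    rw [hE0]
    have e : (u / q) * ((356 + 5 * K) * ℓ ^ 2) = 2 * (176 * (u / q) * ℓ ^ 2) + 4 * (u / q) * ℓ ^ 2 +
      5 * K * (u / q) * ℓ ^ 2 := by ring
    rw [e]
    linarith
  refine b7.trans ?_
  have d1 : 2 * (u / ℓ ^ (A + 1)) ≤ 1 / 2 * (u / ℓ ^ A) := by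
    rw [pow_succ, ← div_div]
    have : 0 ≤ u / ℓ ^ A := by positivity
    rw [mul_div_assoc', div_le_iff₀ hℓ0]
    nlinarith
  have d2 : (u / q) * ((356 + 5 * K) * ℓ ^ 2) ≤ 1 / 2 * (u / ℓ ^ A) := by
    have d3 : 2 * (356 + 5 * K) * ℓ ^ (A + 2) ≤ q := h1
    have d4 : u / q * ((356 + 5 * K) * ℓ ^ 2) = u * ((356 + 5 * K) * ℓ ^ 2 / q) := by ring
    rw [d4, show 1 / 2 * (u / ℓ ^ A) = u * (1 / (2 * ℓ ^ A)) by ring]
    refine mul_le_mul_of_nonneg_left ?_ hu0.le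
    rw [div_le_div_iff₀ hq0 (by positivity), one_mul]
    calc (356 + 5 * K) * ℓ ^ 2 * (2 * ℓ ^ A) = 2 * (356 + 5 * K) * ℓ ^ (A + 2) := by ring
      _ ≤ q := d3
  linarith

end Pool.Agent.N782.GN
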