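import Pool.Agent.H304R2.EC.Points

/-!
# Project GN (helper782): the traces of Frobenius of the curves `y² = x³ - D² x`
-/

set_option autoImplicit false

namespace Pool.Agent.N782.GN.LT

open Finset Pool.Agent.H304R2.EC Pool.Agent.H304R2.EC.Pts

/-- the number of the solutions of `y² = x³ - D² x` modulo `p` -/
def pts (D p : ℕ) : ℕ :=
  ((range p ×ˢ range p).filter
    (fun xy : ℕ × ℕ => (p : ℤ) ∣ (xy.2 : ℤ) ^ 2 - ((xy.1 : ℤ) ^ 3 - (D : ℤ) ^ 2 * (xy.1 : ℤ)))).card

/-- the trace of Frobenius of `y² = x³ - D² x` at `p` -/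
def tr (D p : ℕ) : ℤ := (p : ℤ) - pts D p

variable {p : ℕ} [hF : Fact p.Prime]

theorem tr_eq_SS (D : ℕ) (h2 : p ≠ 2) : tr D p = - SS ((D : ZMod p) ^ 2) := by
  have hcard : ((pts D p : ℕ) : ℤ) =
      ∑ x : ZMod p, (((univ : Finset (ZMod p)).filter fun y => y ^ 2 = x ^ 3 - (D : ZMod p) ^ 2 * x).card : ℤ) := by
    unfold pts
    rw [← Nat.cast_sum, ← Finset.card_sigma]
    congr 1
    refine Finset.card_bij' (fun xy _ => (⟨(xy.1 : ZMod p), (xy.2 : ZMod p)⟩ : Σ _ : ZMod p, ZMod p))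
      (fun q _ => (q.1.val, q.2.val)) ?_ ?_ ?_ ?_
    · rintro ⟨x, y⟩ h
      simp only [mem_filter, mem_product, mem_range] at h
      simp only [mem_sigma, mem_univ, mem_filter, true_and]
      obtain ⟨_, h⟩ := h
      rw [← ZMod.intCast_zmod_eq_zero_iff_dvd] at h
      push_cast at h
      linear_combination h
    · rintro ⟨x, y⟩ h
      simp only [mem_sigma, mem_univ, mem_filter, true_and] at h
      simp only [mem_filter, mem_product, mem_range]
      refine ⟨⟨ZMod.val_lt _, ZMod.val_lt _⟩, ?_⟩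
      rw [← ZMod.intCast_zmod_eq_zero_iff_dvd]
      push_cast
      simp only [ZMod.natCast_val, ZMod.cast_id', id_eq]
      linear_combination h
    · rintro ⟨x, y⟩ h
      simp only [mem_filter, mem_product, mem_range] at h
      simp only [Prod.mk.injEq]
      exact ⟨ZMod.val_cast_of_lt h.1.1, ZMod.val_cast_of_lt h.1.2⟩
    · rintro ⟨x, y⟩ h
      simp
  have hfib : ∀ x : ZMod p, (((univ : Finset (ZMod p)).filter fun y => y ^ 2 = x ^ 3 - (D : ZMod p) ^ 2 * x).card : ℤ) =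
      qc p (x * (x ^ 2 - (D : ZMod p) ^ 2)) + 1 := by
    intro x
    have := quadraticChar_card_sqrts (rc h2) (x ^ 3 - (D : ZMod p) ^ 2 * x)
    have e : x * (x ^ 2 - (D : ZMod p) ^ 2) = x ^ 3 - (D : ZMod p) ^ 2 * x := by ring
    rw [e, ← this]
    congr 2
    ext y
    simp
  unfold tr
  rw [hcard]
  simp_rw [hfib]
  rw [Finset.sum_add_distrib, sum_const, card_univ, ZMod.card]
  unfold SS
  simp only [nsmul_eq_mul, mul_one]
  ring

theorem tr_eq (D : ℕ) (h2 : p ≠ 2) (hD : ¬ p ∣ D) : tr D p = jacobiSym D p * an p := by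
  have hD0 : (D : ZMod p) ≠ 0 := by
    rw [Ne, ZMod.natCast_eq_zero_iff]
    exact hD
  have h1 := tr_eq_SS (p := p) D h2
  have h3 := SS_scale (p := p) 1 (D : ZMod p) hD0
  rw [one_mul] at h3
  have h4 := aE_eq_SS (p := p) h2
  have h5 := aE_eq p hF.out h2
  have h6 : jacobiSym D p = qc p (D : ZMod p) := by
    rw [← jacobiSym.legendreSym.to_jacobiSym]
    unfold legendreSym
    simp
  rw [h1, h3, h6, ← h5, h4]
  ring

end Pool.Agent.N782.GN.LT
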