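import Pool.Agent.N782.GN.LTa

/-!
# Project GN (helper782): the primes with a given trace are the primes `a² + m²` with `m` in certain classes
-/

set_option autoImplicit false

namespace Pool.Agent.N782.GN.LT

open Finset Pool.Agent.H304R2.EC Pool.Agent.H304R2.EC.Pts

/-- the condition on `m` modulo `4 D` -/
def G (D : ℕ) (a m : ℤ) : Prop :=
  a % 2 = 1 ∧ m % 2 = 0 ∧ jacobiSym D (a ^ 2 + m ^ 2).natAbs = ZMod.χ₄ ((a + m : ℤ) : ZMod 4)

theorem chi_pm {n : ℤ} (h : n % 2 = 1) : ZMod.χ₄ (n : ZMod 4) = 1 ∨ ZMod.χ₄ (n : ZMod 4) = -1 := by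
  have h1 : n % 4 = 1 ∨ n % 4 = 3 := by omega
  rcases h1 with h1 | h1
  · left
    exact ZMod.χ₄_int_one_mod_four h1
  · right
    exact ZMod.χ₄_int_three_mod_four h1

theorem chi_neg {l m : ℤ} (hl : l % 2 = 1) (hm : m % 2 = 0) :
    ZMod.χ₄ ((-l + m : ℤ) : ZMod 4) = - ZMod.χ₄ ((l + m : ℤ) : ZMod 4) := by
  have h1 : (l + m) % 4 = 1 ∨ (l + m) % 4 = 3 := by omega
  rcases h1 with h1 | h1
  · have h2 : (-l + m) % 4 = 3 := by omega
    rw [ZMod.χ₄_int_one_mod_four h1, ZMod.χ₄_int_three_mod_four h2]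
  · have h2 : (-l + m) % 4 = 1 := by omega
    rw [ZMod.χ₄_int_one_mod_four h2, ZMod.χ₄_int_three_mod_four h1]
    norm_num

theorem prime_ne_sq {l m : ℤ} {p : ℕ} (hp : p.Prime) (h : l ^ 2 + m ^ 2 = p) : m ≠ 0 ∧ l ≠ 0 := by
  constructor
  · rintro rfl
    have h5 : l ^ 2 = (p : ℤ) := by linarith
    have h6 : l.natAbs ^ 2 = p := by
      zify
      rw [sq_abs]
      exact h5
    rw [← h6] at hp
    exact Nat.Prime.not_prime_pow le_rfl hp
  · rintro rfl
    have h5 : m ^ 2 = (p : ℤ) := by linarith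
    have h6 : m.natAbs ^ 2 = p := by
      zify
      rw [sq_abs]
      exact h5
    rw [← h6] at hp
    exact Nat.Prime.not_prime_pow le_rfl hp

/-- the sum over the primary numbers of norm `p` -/
theorem an_prime {l m : ℤ} {p : ℕ} (hp : p.Prime) (h : l ^ 2 + m ^ 2 = p) (hl : l % 2 = 1) (hm : m % 2 = 0) :
    an p = 2 * (ZMod.χ₄ ((l + m : ℤ) : ZMod 4)) * l := by
  obtain ⟨hm0, hl0⟩ := prime_ne_sq hp h
  set s : ℤ := ZMod.χ₄ ((l + m : ℤ) : ZMod 4) with hs
  have hs1 : s = 1 ∨ s = -1 := chi_pm (by omega)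
  have hs4 : (s * l + m) % 4 = 1 ∧ (s * l - m) % 4 = 1 := by
    have h1 : (l + m) % 4 = 1 ∨ (l + m) % 4 = 3 := by omega
    rcases h1 with h1 | h1
    · have : s = 1 := ZMod.χ₄_int_one_mod_four h1
      rw [this]
      omega
    · have : s = -1 := ZMod.χ₄_int_three_mod_four h1
      rw [this]
      omega
  have hsl : (s * l) ^ 2 = l ^ 2 := by
    rcases hs1 with h1 | h1 <;> rw [h1] <;> ring
  have hp1 : (1 : ℤ) ≤ p := by exact_mod_cast hp.one_lt.le
  have hrange : ∀ x : ℤ, x ^ 2 ≤ p → -(p : ℤ) ≤ x ∧ x ≤ p := by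
    intro x hx
    constructor <;> nlinarith
  have hPS : PS p = {(s * l, m), (s * l, -m)} := by
    ext ⟨a, b⟩
    unfold PS
    simp only [mem_filter, mem_product, mem_Icc, mem_insert, mem_singleton, Prod.mk.injEq]
    constructor
    · rintro ⟨-, h1, h2, h3⟩
      have ha : a % 2 = 1 := by omega
      have h4 : a ^ 2 = l ^ 2 := sq_unique hp h3 h ha hl h1
      have h5 : b ^ 2 = m ^ 2 := by linarith
      have h6 : b = m ∨ b = -m := sq_eq_sq_iff_eq_or_eq_neg.1 h5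
      have h7 : a = l ∨ a = -l := sq_eq_sq_iff_eq_or_eq_neg.1 h4
      have h8 : a = s * l := by
        rcases hs1 with h9 | h9
        · rw [h9] at hs4 ⊢
          rcases h7 with h7 | h7
          · omega
          · exfalso
            rcases h6 with h6 | h6 <;> omega
        · rw [h9] at hs4 ⊢
          rcases h7 with h7 | h7
          · exfalso
            rcases h6 with h6 | h6 <;> omega
          · omega
      rcases h6 with h6 | h6
      · left
        exact ⟨h8, h6⟩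
      · right
        exact ⟨h8, h6⟩
    · intro h1
      have h2 : (s * l) ^ 2 ≤ p := by
        rw [hsl]
        nlinarith [sq_nonneg m]
      have h3 : m ^ 2 ≤ p := by nlinarith [sq_nonneg l]
      have h4 := hrange _ h2
      have h5 := hrange _ h3
      rcases h1 with ⟨rfl, rfl⟩ | ⟨rfl, rfl⟩
      · refine ⟨⟨h4, h5⟩, hm, hs4.1, ?_⟩
        rw [hsl]
        exact h
      · refine ⟨⟨h4, by constructor <;> linarith [h5.1, h5.2]⟩, by omega, ?_, ?_⟩
        · have := hs4.2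
          rwa [sub_eq_add_neg] at this
        · rw [hsl, neg_sq]
          exact h
  unfold an
  rw [hPS, sum_pair]
  · ring
  · intro h1
    rw [Prod.mk.injEq] at h1
    omega

/-- the trace at `p = l² + m²` -/
theorem tr_iff (D : ℕ) {a m : ℤ} {p : ℕ} (hp : p.Prime) (h : a ^ 2 + m ^ 2 = p) (ha : a % 2 = 1) (hm : m % 2 = 0)
    (hD : ¬ p ∣ D) : tr D p = 2 * a ↔ jacobiSym D p = ZMod.χ₄ ((a + m : ℤ) : ZMod 4) := by
  have : Fact p.Prime := ⟨hp⟩
  have h2 : p ≠ 2 := by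
    rintro rfl
    have h1 : (a ^ 2 + m ^ 2) % 2 = 1 := by
      obtain ⟨a', ha'⟩ : ∃ a', a = 2 * a' + 1 := ⟨a / 2, by omega⟩
      obtain ⟨m', hm'⟩ : ∃ m', m = 2 * m' := ⟨m / 2, by omega⟩
      rw [ha', hm']
      ring_nf
      omega
    rw [h] at h1
    norm_num at h1
  rw [tr_eq D h2 hD, an_prime hp h ha hm]
  obtain ⟨-, ha0⟩ := prime_ne_sq hp h
  have hs1 : ZMod.χ₄ ((a + m : ℤ) : ZMod 4) = 1 ∨ ZMod.χ₄ ((a + m : ℤ) : ZMod 4) = -1 := chi_pm (by omega)
  set s : ℤ := ZMod.χ₄ ((a + m : ℤ) : ZMod 4) with hs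
  constructor
  · intro h1
    have h3 : (jacobiSym D p * s) * (2 * a) = 1 * (2 * a) := by
      linear_combination h1
    have h4 : jacobiSym D p * s = 1 := mul_right_cancel₀ (by omega) h3
    rcases hs1 with h5 | h5
    · rw [h5] at h4 ⊢
      linarith
    · rw [h5] at h4 ⊢
      linarith
  · intro h1
    rw [h1]
    rcases hs1 with h5 | h5 <;> rw [h5] <;> ring

open Classical in
/-- the number of the primes `p ≤ x` of good reduction with trace `r` -/
noncomputable def piD (D : ℕ) (r : ℤ) (x : ℝ) : ℕ :=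
  ((range (⌊x⌋₊ + 1)).filter (fun p => p.Prime ∧ ¬ p ∣ 2 * D ∧ tr D p = r)).card

/-- every odd prime of good reduction with a nonzero trace is a sum of two squares -/
theorem exists_rep_of_trace (D : ℕ) {p : ℕ} (hp : p.Prime) (hD : ¬ p ∣ 2 * D) (hr : tr D p ≠ 0) :
    ∃ a m : ℤ, a ^ 2 + m ^ 2 = p ∧ a % 2 = 1 ∧ m % 2 = 0 ∧ 1 ≤ m ∧ tr D p = 2 * a := by
  have : Fact p.Prime := ⟨hp⟩
  have h2 : p ≠ 2 := by
    rintro rfl
    exact hD (dvd_mul_right 2 D)
  have hD' : ¬ p ∣ D := fun h => hD (Dvd.dvd.mul_left h 2)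
  have h1 := tr_eq D h2 hD'
  have h3 : an p ≠ 0 := by
    intro h4
    rw [h4, mul_zero] at h1
    exact hr h1
  have h4 : (PS p).Nonempty := by
    by_contra hc
    rw [not_nonempty_iff_eq_empty] at hc
    apply h3
    unfold an
    rw [hc, sum_empty]
  obtain ⟨⟨u, v⟩, huv⟩ := h4
  unfold PS at huv
  simp only [mem_filter, mem_product, mem_Icc] at huv
  obtain ⟨-, h5, h6, h7⟩ := huv
  have hu : u % 2 = 1 := by omega
  obtain ⟨hv0, hu0⟩ := prime_ne_sq hp h7
  have h8 := an_prime hp h7 hu h5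
  have hJ : jacobiSym D p = 1 ∨ jacobiSym D p = -1 := by
    have h9 : jacobiSym D p ≠ 0 := by
      intro h
      rw [h, zero_mul] at h1
      exact hr h1
    rcases jacobiSym.trichotomy (D : ℤ) p with h | h | h
    · exact absurd h h9
    · exact Or.inl h
    · exact Or.inr h
  have hs1 : ZMod.χ₄ ((u + v : ℤ) : ZMod 4) = 1 ∨ ZMod.χ₄ ((u + v : ℤ) : ZMod 4) = -1 := chi_pm (by omega)
  refine ⟨jacobiSym D p * ZMod.χ₄ ((u + v : ℤ) : ZMod 4) * u, |v|, ?_, ?_, ?_, ?_, ?_⟩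
  · rw [sq_abs]
    rcases hJ with h | h <;> rcases hs1 with h' | h' <;> rw [h, h'] <;> linarith
  · rcases hJ with h | h <;> rcases hs1 with h' | h' <;> rw [h, h'] <;> omega
  · rcases abs_choice v with h | h <;> rw [h] <;> omega
  · have := abs_pos.2 hv0
    omega
  · rw [h1, h8]
    ring

/-- if the trace is not twice an odd number, there is no prime -/
theorem piD_zero (D : ℕ) (r : ℤ) (x : ℝ) (hr0 : r ≠ 0) (hr : r % 4 ≠ 2) : piD D r x = 0 := by
  unfold piD
  rw [card_eq_zero, filter_eq_empty_iff]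
  intro p _
  rintro ⟨hp, hD, ht⟩
  obtain ⟨a, m, -, h2, -, -, h5⟩ := exists_rep_of_trace D hp hD (by rw [ht]; exact hr0)
  rw [ht] at h5
  omega

open Classical in
/-- the primes with trace `2 a` -/
theorem piD_eq (D : ℕ) (a : ℤ) (x : ℝ) (hx : 0 ≤ x) (ha : a % 2 = 1) :
    piD D (2 * a) x = ((Icc 1 ⌊Real.sqrt (x - (a : ℝ) ^ 2)⌋₊).filter
      (fun m : ℕ => (a.natAbs ^ 2 + m ^ 2).Prime ∧ G D a m)).card := by
  have hcast : ∀ m : ℕ, ((a.natAbs ^ 2 + m ^ 2 : ℕ) : ℤ) = a ^ 2 + (m : ℤ) ^ 2 := by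
    intro m
    push_cast
    rw [sq_abs]
  have hnat : ∀ m : ℕ, (a ^ 2 + (m : ℤ) ^ 2).natAbs = a.natAbs ^ 2 + m ^ 2 := by
    intro m
    rw [← hcast m, Int.natAbs_natCast]
  have hfl : ∀ m : ℕ, 1 ≤ m → (m ≤ ⌊Real.sqrt (x - (a : ℝ) ^ 2)⌋₊ ↔ a.natAbs ^ 2 + m ^ 2 ≤ ⌊x⌋₊) := by
    intro m hm
    have hm1 : (1 : ℝ) ≤ m := by exact_mod_cast hm
    rw [Nat.le_floor_iff (Real.sqrt_nonneg _), Nat.le_floor_iff hx, Real.le_sqrt' (by linarith)]
    have h1 : ((a.natAbs ^ 2 + m ^ 2 : ℕ) : ℝ) = (a : ℝ) ^ 2 + (m : ℝ) ^ 2 := by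
      push_cast
      rw [Nat.cast_natAbs]
      push_cast
      rw [sq_abs]
    rw [h1]
    constructor
    · intro h
      linarith
    · intro h
      linarith
  unfold piD
  symm
  apply card_bij (fun m _ => a.natAbs ^ 2 + m ^ 2)
  · intro m hm
    rw [mem_filter, mem_Icc] at hm
    obtain ⟨⟨hm1, hm2⟩, hp, hG⟩ := hm
    rw [hfl m hm1] at hm2
    rw [mem_filter, mem_range]
    have hD : ¬ (a.natAbs ^ 2 + m ^ 2) ∣ D := by
      intro hd
      have h1 := hG.2.2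
      rw [hnat] at h1
      have h2 : jacobiSym D (a.natAbs ^ 2 + m ^ 2) = 0 := by
        rw [jacobiSym.eq_zero_iff]
        refine ⟨hp.ne_zero, ?_⟩
        rw [Int.gcd_natCast_natCast, Nat.gcd_eq_right hd]
        exact hp.one_lt.ne'
      rw [h2] at h1
      have h3 := chi_pm (n := a + m) (by have := hG.2.1; omega)
      rcases h3 with h3 | h3 <;> rw [h3] at h1 <;> norm_num at h1
    refine ⟨by omega, hp, ?_, ?_⟩
    · intro hd
      rcases (Nat.Prime.dvd_mul hp).1 hd with h | h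
      · have h1 : a.natAbs ^ 2 + m ^ 2 = 2 := (Nat.prime_dvd_prime_iff_eq hp Nat.prime_two).1 h
        have h2 := hG.2.1
        have h3 : 2 ≤ m := by omega
        nlinarith
      · exact hD h
    · rw [tr_iff D hp (hcast m).symm ha hG.2.1 hD]
      have h1 := hG.2.2
      rwa [hnat] at h1
  · intro m _ m' _ h
    have : m ^ 2 = m' ^ 2 := by
      have h1 : a.natAbs ^ 2 + m ^ 2 = a.natAbs ^ 2 + m' ^ 2 := h
      omega
    exact Nat.pow_left_injective (by norm_num) this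
  · intro p hp
    rw [mem_filter, mem_range] at hp
    obtain ⟨hpx, hp, hD, ht⟩ := hp
    obtain ⟨b, m, h1, h2, h3, h4, h5⟩ := exists_rep_of_trace D hp hD (by rw [ht]; omega)
    have hab : b = a := by
      rw [ht] at h5
      omega
    subst hab
    have hmn : ((m.toNat : ℕ) : ℤ) = m := Int.toNat_of_nonneg (by omega)
    have hpe : b.natAbs ^ 2 + m.toNat ^ 2 = p := by
      have := hcast m.toNat
      rw [hmn, h1] at this
      exact_mod_cast this
    refine ⟨m.toNat, ?_, hpe⟩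
    rw [mem_filter, mem_Icc]
    refine ⟨⟨by omega, ?_⟩, ?_, ?_⟩
    · rw [hfl _ (by omega), hpe]
      omega
    · rw [hpe]
      exact hp
    · refine ⟨ha, by rw [hmn]; exact h3, ?_⟩
      rw [hnat, hpe, hmn]
      exact (tr_iff D hp h1 ha h3 (fun h => hD (Dvd.dvd.mul_left h 2))).1 ht

end Pool.Agent.N782.GN.LT
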