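import Pool.Agent.N782.GN.LTb
import Pool.Agent.N782.GN.All2

/-!
# Project GN (helper782): the average for the classes of `m` modulo `4 D` which belong to a trace `2 a`
-/

set_option autoImplicit false

namespace Pool.Agent.N782.GN.LT

open Finset Filter Topology Pool.Agent.N782.GN

/-- the condition is periodic modulo `4 D` -/
theorem G_congr {D : ℕ} {a m a' m' : ℤ} (ha : ((4 * D : ℕ) : ℤ) ∣ a - a') (hm : ((4 * D : ℕ) : ℤ) ∣ m - m') :
    G D a m ↔ G D a' m' := by
  have key : ∀ a m a' m' : ℤ, ((4 * D : ℕ) : ℤ) ∣ a - a' → ((4 * D : ℕ) : ℤ) ∣ m - m' → G D a m → G D a' m' := by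
    intro a m a' m' ha hm hG
    obtain ⟨h1, h2, h3⟩ := hG
    obtain ⟨u, hu⟩ := ha
    obtain ⟨v, hv⟩ := hm
    push_cast at hu hv
    have ha2 : a' % 2 = 1 := by
      have : a = a' + 2 * (2 * D * u) := by linarith
      omega
    have hm2 : m' % 2 = 0 := by
      have : m = m' + 2 * (2 * D * v) := by linarith
      omega
    refine ⟨ha2, hm2, ?_⟩
    have hodd : ∀ x y : ℤ, x % 2 = 1 → y % 2 = 0 → Odd (x ^ 2 + y ^ 2).natAbs := by
      intro x y hx hy
      rw [Int.natAbs_odd]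
      have h5 : Odd x := Int.odd_iff.2 hx
      have h6 : Even y := Int.even_iff.2 hy
      exact (h5.pow).add_even (h6.pow_of_ne_zero two_ne_zero)
    have e1 : (a ^ 2 + m ^ 2).natAbs % (4 * (D : ℤ).natAbs) = (a' ^ 2 + m' ^ 2).natAbs % (4 * (D : ℤ).natAbs) := by
      rw [Int.natAbs_natCast]
      zify
      rw [abs_of_nonneg (by positivity), abs_of_nonneg (by positivity)]
      apply Int.emod_eq_emod_iff_emod_sub_eq_zero.2
      apply Int.emod_eq_zero_of_dvd
      refine ⟨u * (a + a') + v * (m + m'), ?_⟩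
      have h7 : a ^ 2 + m ^ 2 - (a' ^ 2 + m' ^ 2) = (a - a') * (a + a') + (m - m') * (m + m') := by ring
      rw [h7, hu, hv]
      ring
    rw [jacobiSym.mod_right (D : ℤ) (hodd a m h1 h2), e1, ← jacobiSym.mod_right (D : ℤ) (hodd a' m' ha2 hm2)] at h3
    rw [h3]
    have e2 : (a + m) % 4 = (a' + m') % 4 := by
      have : a + m = a' + m' + 4 * (D * u + D * v) := by linarith
      omega
    rw [ZMod.χ₄_int_mod_four (a + m), e2, ← ZMod.χ₄_int_mod_four]
  constructor
  · exact key a m a' m' ha hm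
  · refine key a' m' a m ?_ ?_
    · rw [← neg_sub]
      exact (dvd_neg).2 ha
    · rw [← neg_sub]
      exact (dvd_neg).2 hm

/-- the condition is even in `m` -/
theorem G_neg {D : ℕ} {a m : ℤ} : G D a (-m) ↔ G D a m := by
  have key : ∀ m : ℤ, G D a m → G D a (-m) := by
    intro m hG
    obtain ⟨h1, h2, h3⟩ := hG
    refine ⟨h1, by omega, ?_⟩
    rw [neg_sq, h3]
    have e2 : (a + m) % 4 = (a + -m) % 4 := by omega
    rw [ZMod.χ₄_int_mod_four (a + m), e2, ← ZMod.χ₄_int_mod_four]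
  constructor
  · intro h
    have := key (-m) h
    rwa [neg_neg] at this
  · exact key m

/-- the norm is coprime to `4 D` -/
theorem G_cop_int {D : ℕ} {a m : ℤ} (h : G D a m) : IsCoprime (a ^ 2 + m ^ 2) (4 * (D : ℤ)) := by
  obtain ⟨h1, h2, h3⟩ := h
  have hpm := chi_pm (n := a + m) (by omega)
  have hJ : jacobiSym D (a ^ 2 + m ^ 2).natAbs ≠ 0 := by
    rw [h3]
    rcases hpm with h | h <;> rw [h] <;> norm_num
  have hn : (((a ^ 2 + m ^ 2).natAbs : ℕ) : ℤ) = a ^ 2 + m ^ 2 := by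
    rw [Int.natCast_natAbs, abs_of_nonneg (by positivity)]
  have h4 : Int.gcd D (a ^ 2 + m ^ 2).natAbs = 1 := by
    by_contra hc
    apply hJ
    rw [jacobiSym.eq_zero_iff]
    refine ⟨?_, hc⟩
    intro h0
    rw [h0] at hn
    have : a ≠ 0 := by omega
    have h5 : 0 < a ^ 2 + m ^ 2 := by positivity
    rw [← hn] at h5
    simp at h5
  have h5 : IsCoprime (a ^ 2 + m ^ 2) (D : ℤ) := by
    rw [hn, Int.gcd_comm] at h4
    exact Int.isCoprime_iff_gcd_eq_one.2 h4
  have h6 : IsCoprime (a ^ 2 + m ^ 2) (4 : ℤ) := by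
    have h7 : IsCoprime (a ^ 2 + m ^ 2) (2 : ℤ) := by
      have h8 : (a ^ 2 + m ^ 2) % 2 = 1 := by
        have h9 : Odd (a ^ 2 + m ^ 2) :=
          ((Int.odd_iff.2 h1).pow).add_even ((Int.even_iff.2 h2).pow_of_ne_zero two_ne_zero)
        exact Int.odd_iff.1 h9
      refine ⟨1, -((a ^ 2 + m ^ 2) / 2), ?_⟩
      omega
    have : (4 : ℤ) = 2 * 2 := by norm_num
    rw [this]
    exact h7.mul_right h7
  exact h6.mul_right h5

theorem cop_of_norm {q : ℕ} {a m : ℤ} (h : IsCoprime (a ^ 2 + m ^ 2) (q : ℤ)) :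
    IsCoprime (⟨a, m⟩ : ZI) ((q : ℕ) : ZI) := by
  obtain ⟨u, v, huv⟩ := h
  refine ⟨(u : ZI) * ⟨a, -m⟩, (v : ZI), ?_⟩
  have e1 : (⟨a, -m⟩ : ZI) * ⟨a, m⟩ = ((a ^ 2 + m ^ 2 : ℤ) : ZI) := by
    apply Zsqrtd.ext
    · rw [Zsqrtd.re_intCast, Zsqrtd.re_mul]
      ring
    · rw [Zsqrtd.im_intCast, Zsqrtd.im_mul]
      ring
  calc (u : ZI) * ⟨a, -m⟩ * ⟨a, m⟩ + (v : ZI) * ((q : ℕ) : ZI) = ((u * (a ^ 2 + m ^ 2) + v * (q : ℤ) : ℤ) : ZI) := by
        rw [mul_assoc, e1]
        push_cast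
        ring
    _ = 1 := by
        rw [huv]
        simp

open Classical in
/-- the classes modulo `4 D` -/
noncomputable def cl (D : ℕ) (a : ℤ) : Finset ℕ := (range (4 * D)).filter (fun m : ℕ => G D a m)

open Classical in
/-- half of the sum of `Λ(l² + m²)` over `|m| ≤ M` with the condition, `a = σ l` -/
noncomputable def fD (D : ℕ) (σ : ℤ) (l : ℤ) (M : ℝ) : ℝ :=
  1 / 2 * ∑ m ∈ (Icc ⌈-M⌉ ⌊M⌋).filter (fun m : ℤ => G D (σ * l) m), ArithmeticFunction.vonMangoldt (l ^ 2 + m ^ 2).natAbs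

/-- the density -/
noncomputable def sD (D : ℕ) (σ : ℤ) (l : ℤ) : ℝ :=
  ((cl D (σ * l)).card : ℝ) / ((4 * D : ℕ) : ℝ) * (gq (4 * D) l * SS l)

/-- the sum over the classes -/
theorem fD_eq {D : ℕ} (hD : 1 ≤ D) (σ l : ℤ) (M : ℝ) :
    fD D σ l M = 1 / 2 * ∑ m0 ∈ cl D (σ * l), ∑ m ∈ (Icc ⌈-M⌉ ⌊M⌋).filter (fun m => ((4 * D : ℕ) : ℤ) ∣ m - m0),
      ArithmeticFunction.vonMangoldt (l ^ 2 + m ^ 2).natAbs := by
  classical
  unfold fD
  congr 1
  have hq : (0 : ℤ) < ((4 * D : ℕ) : ℤ) := by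
    push_cast
    positivity
  rw [sum_filter]
  simp_rw [sum_filter]
  rw [sum_comm]
  refine sum_congr rfl fun m _ => ?_
  rw [← sum_filter]
  set F := ArithmeticFunction.vonMangoldt (l ^ 2 + m ^ 2).natAbs with hF
  have h1 : (m % ((4 * D : ℕ) : ℤ)).toNat < 4 * D := by
    have h2 := Int.emod_nonneg m hq.ne'
    have h3 := Int.emod_lt_of_pos m hq
    omega
  have h0 : (((m % ((4 * D : ℕ) : ℤ)).toNat : ℕ) : ℤ) = m % ((4 * D : ℕ) : ℤ) :=
    Int.toNat_of_nonneg (Int.emod_nonneg m hq.ne')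
  have hdv : ((4 * D : ℕ) : ℤ) ∣ m - (((m % ((4 * D : ℕ) : ℤ)).toNat : ℕ) : ℤ) := by
    rw [h0]
    exact Int.dvd_self_sub_emod
  have h4 : (cl D (σ * l)).filter (fun m0 : ℕ => ((4 * D : ℕ) : ℤ) ∣ m - m0) =
      if G D (σ * l) m then {(m % ((4 * D : ℕ) : ℤ)).toNat} else ∅ := by
    ext m0
    unfold cl
    rw [mem_filter, mem_filter, mem_range]
    constructor
    · rintro ⟨⟨h5, h6⟩, h7⟩
      have h8 : G D (σ * l) m := (G_congr (by simp) h7).2 h6
      rw [if_pos h8, mem_singleton]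
      have h9 : m % ((4 * D : ℕ) : ℤ) = (m0 : ℤ) % ((4 * D : ℕ) : ℤ) :=
        Int.emod_eq_emod_iff_emod_sub_eq_zero.2 (Int.emod_eq_zero_of_dvd h7)
      rw [h9, Int.emod_eq_of_lt (by omega) (by exact_mod_cast h5)]
      simp
    · intro h5
      split_ifs at h5 with h6
      · rw [mem_singleton] at h5
        subst h5
        exact ⟨⟨h1, (G_congr (by simp) hdv).1 h6⟩, hdv⟩
      · simp at h5
  rw [h4]
  split_ifs
  · rw [sum_singleton]
  · rw [sum_empty]

theorem avgD {D : ℕ} (hD : 1 ≤ D) (σ : ℤ) (hσ : σ ^ 2 = 1) : Avg (fun L => Icc 1 ⌊L⌋) (fD D σ) (sD D σ) where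
  mono := fun l y z h => by
    classical
    unfold fD
    refine mul_le_mul_of_nonneg_left ?_ (by norm_num)
    apply sum_le_sum_of_subset_of_nonneg
    · apply filter_subset_filter
      exact Icc_subset_Icc (Int.ceil_le_ceil (by linarith)) (Int.floor_le_floor h)
    · intro m _ _
      exact ArithmeticFunction.vonMangoldt_nonneg
  s0 := fun L l hl => by
    rw [mem_box] at hl
    have h1 := (c_ssl l (by omega)).2
    unfold sD
    have h2 : 0 ≤ gq (4 * D) l := by
      unfold gq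
      refine div_nonneg (by positivity) (prod_nonneg fun p hp => ?_)
      rw [mem_filter] at hp
      have hp1 := Nat.prime_of_mem_primeFactors hp.1
      have h3 : 3 ≤ p := by
        have := hp1.two_le
        have := hp.2.1
        omega
      have h3' : (3 : ℝ) ≤ p := by exact_mod_cast h3
      have h4 : ((ZMod.χ₄ (p : ZMod 4) : ℤ) : ℝ) ≤ 1 := by
        have : (ZMod.χ₄ (p : ZMod 4) : ℤ) ≤ 1 := by
          rw [ZMod.χ₄_nat_eq_if_mod_four]
          split_ifs <;> norm_num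
        exact_mod_cast this
      rw [sub_nonneg, div_le_one (by linarith)]
      linarith
    positivity
  triv := ⟨9, by norm_num, fun L M hM3 hLM l hl => by
    classical
    rw [mem_box] at hl
    have h1 := f1_triv l M hM3 hl.1 (hl.2.trans hLM)
    have hM : 1 ≤ M := by linarith
    have h2 := two_sided hM (fun m => ArithmeticFunction.vonMangoldt (l ^ 2 + m ^ 2).natAbs) (fun m => by
      simp only [neg_sq])
    have h3 := vM_sq (L := M) (l := l) (by rw [mem_box]; exact ⟨hl.1, hl.2.trans hLM⟩)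
    rw [abs_of_nonneg ArithmeticFunction.vonMangoldt_nonneg] at h3
    have hlog : 0 ≤ Real.log M := Real.log_nonneg hM
    unfold fD
    have h4 : ∑ m ∈ (Icc ⌈-M⌉ ⌊M⌋).filter (fun m : ℤ => G D (σ * l) m),
        ArithmeticFunction.vonMangoldt (l ^ 2 + m ^ 2).natAbs ≤
        ∑ m ∈ Icc ⌈-M⌉ ⌊M⌋, ArithmeticFunction.vonMangoldt (l ^ 2 + m ^ 2).natAbs :=
      sum_le_sum_of_subset_of_nonneg (filter_subset _ _) fun _ _ _ => ArithmeticFunction.vonMangoldt_nonneg
    have h5 : 2 * Real.log M ≤ 2 * (M * Real.log M) := by nlinarith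
    unfold f1 at h1
    nlinarith⟩
  avg := fun ε A hε => by
    classical
    have hq1 : 1 ≤ 4 * D := by omega
    obtain ⟨C, hC, h⟩ := c_mainx ε A (4 * D) hε hq1
    refine ⟨C * ((4 * D : ℕ) : ℝ) ^ 2, by positivity, fun M L hM3 h1 h2 => ?_⟩
    have hM1 : 1 < M := by linarith
    have hε6 : ε ≤ 1 / 6 := by
      have h2 : M ^ (2 / 3 + ε) ≤ M ^ (1 - ε) := h1.trans h2
      have h3 := (Real.rpow_le_rpow_left_iff hM1).1 h2
      linarith
    have hP : Pr ε M L := ⟨hε, hε6, hM3, h1, h2⟩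
    have hL := hP.hL
    have hlog := hP.hlog
    have hX : 0 ≤ C * L * M / (Real.log M) ^ A := by positivity
    have hq : (0 : ℤ) < ((4 * D : ℕ) : ℤ) := by
      push_cast
      positivity
    set q : ℕ := 4 * D with hqd
    have hqr : (0 : ℝ) < (q : ℝ) := by exact_mod_cast hq
    -- split `l` into classes
    have e1 : ∑ l ∈ Icc 1 ⌊L⌋, |fD D σ l M - M * sD D σ l| =
        ∑ l0 ∈ range q, ∑ l ∈ (Icc 1 ⌊L⌋).filter (fun l => (q : ℤ) ∣ l - l0), |fD D σ l M - M * sD D σ l| := by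
      simp_rw [sum_filter]
      rw [sum_comm]
      refine sum_congr rfl fun l _ => ?_
      have h0 : (((l % (q : ℤ)).toNat : ℕ) : ℤ) = l % (q : ℤ) := Int.toNat_of_nonneg (Int.emod_nonneg l hq.ne')
      have h3 := Int.emod_lt_of_pos l hq
      rw [sum_eq_single (l % (q : ℤ)).toNat]
      · rw [if_pos]
        rw [h0]
        exact Int.dvd_self_sub_emod
      · intro l0 hl0 hne
        rw [mem_range] at hl0
        rw [if_neg]
        intro hd
        apply hne
        have h9 : l % (q : ℤ) = (l0 : ℤ) % (q : ℤ) :=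
          Int.emod_eq_emod_iff_emod_sub_eq_zero.2 (Int.emod_eq_zero_of_dvd hd)
        rw [h9, Int.emod_eq_of_lt (by omega) (by exact_mod_cast hl0)]
        simp
      · intro hn
        exfalso
        apply hn
        rw [mem_range]
        omega
    rw [e1]
    have e2 : ∀ l0 ∈ range q, ∑ l ∈ (Icc 1 ⌊L⌋).filter (fun l => (q : ℤ) ∣ l - l0), |fD D σ l M - M * sD D σ l| ≤
        (q : ℝ) * (C * L * M / (Real.log M) ^ A) := by
      intro l0 _
      have e3 : ∀ l ∈ (Icc 1 ⌊L⌋).filter (fun l => (q : ℤ) ∣ l - l0), |fD D σ l M - M * sD D σ l| ≤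
          ∑ m0 ∈ cl D (σ * l0), |∑ m ∈ (Icc ⌈-M⌉ ⌊M⌋).filter (fun m => (q : ℤ) ∣ m - m0),
            ArithmeticFunction.vonMangoldt (l ^ 2 + m ^ 2).natAbs - 2 * M / q * (gq q l * SS l)| := by
        intro l hl
        rw [mem_filter] at hl
        have hcl : cl D (σ * l) = cl D (σ * l0) := by
          unfold cl
          apply filter_congr
          intro m _
          apply G_congr
          · rw [← mul_sub]
            exact Dvd.dvd.mul_left hl.2 σ
          · simp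
        have e4 : fD D σ l M - M * sD D σ l = 1 / 2 * ∑ m0 ∈ cl D (σ * l0),
            (∑ m ∈ (Icc ⌈-M⌉ ⌊M⌋).filter (fun m => (q : ℤ) ∣ m - m0),
            ArithmeticFunction.vonMangoldt (l ^ 2 + m ^ 2).natAbs - 2 * M / q * (gq q l * SS l)) := by
          rw [fD_eq hD, sum_sub_distrib, sum_const, nsmul_eq_mul, hcl]
          unfold sD
          rw [hcl]
          ring
        rw [e4, abs_mul, abs_of_pos (by norm_num : (0 : ℝ) < 1 / 2)]
        have e5 := abs_sum_le_sum_abs (fun m0 : ℕ => ∑ m ∈ (Icc ⌈-M⌉ ⌊M⌋).filter (fun m => (q : ℤ) ∣ m - m0),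
            ArithmeticFunction.vonMangoldt (l ^ 2 + m ^ 2).natAbs - 2 * M / q * (gq q l * SS l)) (cl D (σ * l0))
        have e6 := abs_nonneg (∑ m0 ∈ cl D (σ * l0),
            (∑ m ∈ (Icc ⌈-M⌉ ⌊M⌋).filter (fun m => (q : ℤ) ∣ m - m0),
            ArithmeticFunction.vonMangoldt (l ^ 2 + m ^ 2).natAbs - 2 * M / q * (gq q l * SS l)))
        linarith
      refine (sum_le_sum e3).trans ?_
      rw [sum_comm]
      have e4 : ∀ m0 ∈ cl D (σ * l0), ∑ l ∈ (Icc 1 ⌊L⌋).filter (fun l => (q : ℤ) ∣ l - l0),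
          |∑ m ∈ (Icc ⌈-M⌉ ⌊M⌋).filter (fun m => (q : ℤ) ∣ m - m0),
            ArithmeticFunction.vonMangoldt (l ^ 2 + m ^ 2).natAbs - 2 * M / q * (gq q l * SS l)| ≤
          C * L * M / (Real.log M) ^ A := by
        intro m0 hm0
        unfold cl at hm0
        rw [mem_filter] at hm0
        have hc1 := G_cop_int hm0.2
        rw [mul_pow, hσ, one_mul] at hc1
        have hc2 : IsCoprime (⟨(l0 : ℤ), (m0 : ℤ)⟩ : ZI) ((q : ℕ) : ZI) := by
          apply cop_of_norm
          rw [hqd]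
          push_cast
          exact hc1
        exact h M L l0 m0 hM3 hc2 h1 h2
      refine (sum_le_sum e4).trans ?_
      rw [sum_const, nsmul_eq_mul]
      refine mul_le_mul_of_nonneg_right ?_ hX
      have : (cl D (σ * l0)).card ≤ q := by
        unfold cl
        refine (card_filter_le _ _).trans ?_
        rw [card_range]
      exact_mod_cast this
    refine (sum_le_sum e2).trans ?_
    rw [sum_const, nsmul_eq_mul, card_range]
    apply le_of_eq
    ring

end Pool.Agent.N782.GN.LT
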