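import Pool.Agent.N782.GN.LTc

/-!
# Project GN (helper782): almost all `l ≤ L`, for the classes which belong to a trace
-/

set_option autoImplicit false

namespace Pool.Agent.N782.GN.LT

open Finset Filter Topology Pool.Agent.N782.GN

open Classical in
/-- the weight -/
noncomputable def cD (D : ℕ) (σ : ℤ) (l : ℕ) (m : ℕ) : ℝ := if G D (σ * l) m then 1 else 0

theorem fD_TT (D : ℕ) (σ : ℤ) (l t : ℕ) (hl : 1 ≤ l) (ht : 1 ≤ t) :
    |fD D σ l t - TT (cD D σ l) l t| ≤ Real.log l := by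
  classical
  have hl1 : (1 : ℝ) ≤ l := by exact_mod_cast hl
  have ht1 : (1 : ℝ) ≤ t := by exact_mod_cast ht
  unfold fD
  rw [sum_filter]
  have h2 := two_sided ht1 (fun m => if G D (σ * l) m then
    ArithmeticFunction.vonMangoldt ((l : ℤ) ^ 2 + m ^ 2).natAbs else 0) (fun m => by
      simp only [neg_sq]
      by_cases h : G D (σ * l) m
      · rw [if_pos h, if_pos (G_neg.2 h)]
      · rw [if_neg h, if_neg (fun h' => h (G_neg.1 h'))])
  beta_reduce at h2
  rw [h2, Int.floor_natCast, sum_int_nat]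
  have h3 : ∑ m ∈ Icc 1 t, (if G D (σ * l) (m : ℤ) then
      ArithmeticFunction.vonMangoldt ((l : ℤ) ^ 2 + (m : ℤ) ^ 2).natAbs else 0) = TT (cD D σ l) l t := by
    unfold TT cD
    refine sum_congr rfl fun m _ => ?_
    have : ((l : ℤ) ^ 2 + (m : ℤ) ^ 2).natAbs = l ^ 2 + m ^ 2 := by
      have : ((l : ℤ) ^ 2 + (m : ℤ) ^ 2) = ((l ^ 2 + m ^ 2 : ℕ) : ℤ) := by push_cast; ring
      rw [this, Int.natAbs_natCast]
    rw [this]
    split_ifs <;> simp
  rw [h3]
  have h4 := vM_sq (L := (l : ℝ)) (l := (l : ℤ)) (by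
    rw [mem_box]
    exact ⟨by omega, by simp⟩)
  rw [abs_of_nonneg ArithmeticFunction.vonMangoldt_nonneg] at h4
  have h5 : 0 ≤ Real.log l := Real.log_nonneg hl1
  by_cases hG0 : G D (σ * l) 0
  · rw [if_pos hG0, abs_le]
    have h7 : 0 ≤ ArithmeticFunction.vonMangoldt ((l : ℤ) ^ 2 + 0 ^ 2).natAbs := ArithmeticFunction.vonMangoldt_nonneg
    clear h2 h3
    generalize TT (cD D σ l) l t = X at *
    generalize ArithmeticFunction.vonMangoldt ((l : ℤ) ^ 2 + 0 ^ 2).natAbs = Y at *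
    constructor
    · linarith
    · linarith
  · rw [if_neg hG0, abs_le]
    constructor <;> linarith

open Classical in
/-- the good `l` -/
def GoodD (D : ℕ) (σ : ℤ) (ε : ℝ) (A : ℕ) (L : ℝ) (l : ℕ) : Prop :=
  sD D σ l ≤ 19 * Real.log L ∧ ∀ u : ℝ, L ^ (1 + ε) ≤ u → u ≤ L ^ (3 / 2 - ε) →
    |PP (cD D σ l) l ⌊u⌋₊ - sD D σ l * ∫ t in (2 : ℝ)..u, 1 / (2 * Real.log t)| ≤ u / (Real.log L) ^ A

open Classical in
theorem almost_D {D : ℕ} (hD : 1 ≤ D) (σ : ℤ) (hσ : σ ^ 2 = 1) (ε : ℝ) (A : ℕ) (hε : 0 < ε) (hε4 : ε ≤ 1 / 4) :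
    ∃ L₀ : ℝ, 3 ≤ L₀ ∧ ∀ L : ℝ, L₀ ≤ L →
    (((Icc 1 ⌊L⌋₊).filter (fun l : ℕ => ¬ GoodD D σ ε A L l)).card : ℝ) ≤ L / (Real.log L) ^ A := by
  have hav := avgD hD σ hσ
  obtain ⟨L₁, h1⟩ := hav.grid (ε / 2) (A + 2) (by positivity)
  obtain ⟨L₂, hL₂, h2⟩ := conv ε A 19 hε (by norm_num)
  obtain ⟨L₃, h3⟩ := eventually_atTop.1 ((ev_log_rpow 1 one_pos (A + 2) 2).and (ev_log_pow 1 2 one_pos 0))
  refine ⟨max (max L₁ L₂) L₃, le_trans hL₂ (le_trans (le_max_right _ _) (le_max_left _ _)), fun L hL => ?_⟩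
  have hLL1 : L₁ ≤ L := (le_trans (le_max_left _ _) (le_max_left _ _)).trans hL
  have hLL2 : L₂ ≤ L := (le_trans (le_max_right _ _) (le_max_left _ _)).trans hL
  have hLL3 : L₃ ≤ L := (le_max_right _ _).trans hL
  have hL3 : 3 ≤ L := hL₂.trans hLL2
  have hL0 : 0 < L := by linarith
  have hL1 : 1 ≤ L := by linarith
  have hlog : 1 ≤ Real.log L := by
    rw [Real.le_log_iff_exp_le hL0]
    have := Real.exp_one_lt_d9
    linarith
  obtain ⟨hq, hq2⟩ := h3 L hLL3
  rw [Real.rpow_one] at hq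
  rw [zero_add, pow_one, one_mul] at hq2
  have key := h1 L hLL1
  have hsub : (((Icc 1 ⌊L⌋₊).filter (fun l : ℕ => ¬ GoodD D σ ε A L l)).card : ℝ) ≤
      ((((fun L : ℝ => Icc (1 : ℤ) ⌊L⌋) L).filter (fun l => ¬ ∀ u : ℝ, L ^ (1 + ε / 2) ≤ u → u ≤ L ^ (3 / 2 - ε / 2) →
        |fD D σ l u - u * sD D σ l| ≤ u / (Real.log L) ^ (A + 2))).card : ℝ) := by
    rw [Nat.cast_le]
    apply card_le_card_of_injOn (fun l : ℕ => (l : ℤ))
    · intro l hl
      rw [mem_coe, mem_filter, mem_Icc] at hl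
      obtain ⟨⟨hl1, hlL⟩, hl⟩ := hl
      rw [Nat.le_floor_iff hL0.le] at hlL
      simp only [mem_coe, mem_filter]
      rw [mem_box]
      have hlmem : (l : ℤ) ∈ Icc (1 : ℤ) ⌊L⌋ := by
        rw [mem_box]
        exact ⟨by exact_mod_cast hl1, by exact_mod_cast hlL⟩
      refine ⟨⟨by exact_mod_cast hl1, by exact_mod_cast hlL⟩, ?_⟩
      intro hg
      apply hl
      have hs0 : 0 ≤ sD D σ l := hav.s0 L l hlmem
      set t0 : ℝ := L ^ (1 + ε / 2) with ht0
      have hLt0 : L ≤ t0 := by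
        calc L = L ^ (1 : ℝ) := (Real.rpow_one L).symm
          _ ≤ _ := Real.rpow_le_rpow_of_exponent_le hL1 (by linarith)
      have ht03 : 3 ≤ t0 := by linarith
      have hK : sD D σ (l : ℤ) ≤ 19 * Real.log L := by
        have e1 := hg t0 le_rfl (Real.rpow_le_rpow_of_exponent_le hL1 (by linarith))
        have e2 : fD D σ l t0 ≤ 9 * t0 * Real.log t0 := by
          have hlr : (1 : ℤ) ≤ (l : ℤ) := by exact_mod_cast hl1
          have hlt : ((l : ℤ) : ℝ) ≤ t0 := by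
            push_cast
            linarith
          have k1 := f1_triv (l : ℤ) t0 ht03 hlr hlt
          have k2 := two_sided (show 1 ≤ t0 by linarith)
            (fun m => ArithmeticFunction.vonMangoldt ((l : ℤ) ^ 2 + m ^ 2).natAbs) (fun m => by simp only [neg_sq])
          have k3 := vM_sq (L := t0) (l := (l : ℤ)) (by rw [mem_box]; exact ⟨hlr, hlt⟩)
          rw [abs_of_nonneg ArithmeticFunction.vonMangoldt_nonneg] at k3
          have hlog0 : 0 ≤ Real.log t0 := Real.log_nonneg (by linarith)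
          unfold fD
          have k4 : ∑ m ∈ (Icc ⌈-t0⌉ ⌊t0⌋).filter (fun m : ℤ => G D (σ * l) m),
              ArithmeticFunction.vonMangoldt ((l : ℤ) ^ 2 + m ^ 2).natAbs ≤
              ∑ m ∈ Icc ⌈-t0⌉ ⌊t0⌋, ArithmeticFunction.vonMangoldt ((l : ℤ) ^ 2 + m ^ 2).natAbs :=
            sum_le_sum_of_subset_of_nonneg (filter_subset _ _) fun _ _ _ => ArithmeticFunction.vonMangoldt_nonneg
          have k5 : 2 * Real.log t0 ≤ 2 * (t0 * Real.log t0) := by nlinarith
          unfold f1 at k1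
          nlinarith
        have e3 : Real.log t0 ≤ 2 * Real.log L := by
          rw [ht0, Real.log_rpow hL0]
          nlinarith
        have e4 : t0 / (Real.log L) ^ (A + 2) ≤ t0 := div_le_self (by linarith) (one_le_pow₀ hlog)
        rw [abs_le] at e1
        have e5 : t0 * sD D σ (l : ℤ) ≤ t0 * (19 * Real.log L) := by
          have e6 : 9 * t0 * Real.log t0 ≤ 9 * t0 * (2 * Real.log L) := mul_le_mul_of_nonneg_left e3 (by linarith)
          have e7 : t0 ≤ t0 * Real.log L := by nlinarith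
          nlinarith [e1.1]
        exact le_of_mul_le_mul_left e5 (by linarith)
      refine ⟨hK, ?_⟩
      refine h2 L hLL2 l (sD D σ (l : ℤ)) (cD D σ l) hl1 hlL hs0 hK (fun m => by
        unfold cD
        split_ifs <;> norm_num) (fun t ht1 ht2 => ?_)
      have e1 := hg t ht1 (ht2.trans (Real.rpow_le_rpow_of_exponent_le hL1 (by linarith)))
      have ht3 : L ≤ t := hLt0.trans ht1
      have ht4 : 1 ≤ t := by
        have : (1 : ℝ) ≤ t := hL1.trans ht3
        exact_mod_cast this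
      have e2 := fD_TT D σ l t hl1 ht4
      have e3 : Real.log l ≤ Real.log L := Real.log_le_log (by exact_mod_cast hl1) hlL
      have e4 := abs_add_le (TT (cD D σ l) l t - fD D σ l t) (fD D σ l t - t * sD D σ l)
      rw [sub_add_sub_cancel, abs_sub_comm (TT (cD D σ l) l t) (fD D σ l t)] at e4
      set ℓ := Real.log L with hℓ
      have hp0 : 0 < ℓ ^ (A + 1) := by positivity
      have e5 : (t : ℝ) / ℓ ^ (A + 2) ≤ 1 / 2 * (t / ℓ ^ (A + 1)) := by
        rw [pow_succ ℓ (A + 1), ← div_div, div_le_iff₀ (by linarith)]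
        have : 0 ≤ (t : ℝ) / ℓ ^ (A + 1) := by positivity
        nlinarith
      have e6 : ℓ ≤ 1 / 2 * (t / ℓ ^ (A + 1)) := by
        have : 2 * ℓ ^ (A + 2) ≤ t := hq.trans ht3
        rw [mul_div_assoc', le_div_iff₀ hp0]
        have h9 : ℓ * ℓ ^ (A + 1) = ℓ ^ (A + 2) := by ring
        rw [h9]
        linarith
      linarith
    · intro a _ b _ h
      simpa using h
  refine hsub.trans (key.trans ?_)
  apply div_le_div_of_nonneg_left hL0.le (by positivity)
  exact pow_le_pow_right₀ hlog (by omega)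

end Pool.Agent.N782.GN.LT
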