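import Pool.Agent.N782.GN.LTd

/-!
# Project GN (helper782): Lang–Trotter for `y² = x³ - D² x` and almost all traces
-/

set_option autoImplicit false

namespace Pool.Agent.N782.GN.LT

open Finset Filter Topology Pool.Agent.N782.GN

/-- the constant -/
noncomputable def cst (D : ℕ) (r : ℤ) : ℝ :=
  if r % 4 = 2 then sD D (if 0 < r then 1 else -1) ((r / 2).natAbs : ℤ) else 0

/-- the conclusion for the trace `r` -/
def Tr (D : ℕ) (ε : ℝ) (A : ℕ) (R : ℝ) (r : ℤ) : Prop :=
  ∀ x : ℝ, R ^ (2 + ε) ≤ x → x ≤ R ^ (3 - ε) →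
    |(piD D r x : ℝ) - cst D r * ∫ t in (2 : ℝ)..(Real.sqrt x), 1 / (2 * Real.log t)| ≤
      Real.sqrt x / (Real.log x) ^ A

theorem int_diff {u v : ℝ} (hu : 2 ≤ u) (huv : u ≤ v) :
    |(∫ t in (2 : ℝ)..v, 1 / (2 * Real.log t)) - ∫ t in (2 : ℝ)..u, 1 / (2 * Real.log t)| ≤ v - u := by
  have hcont : ContinuousOn (fun t : ℝ => 1 / (2 * Real.log t)) (Set.Ici 2) := by
    apply ContinuousOn.div continuousOn_const
    · apply ContinuousOn.mul continuousOn_const
      apply Real.continuousOn_log.mono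
      intro x hx
      rw [Set.mem_compl_singleton_iff]
      rw [Set.mem_Ici] at hx
      linarith
    · intro x hx
      rw [Set.mem_Ici] at hx
      have := Real.log_pos (show (1 : ℝ) < x by linarith)
      positivity
  have hii : ∀ a b : ℝ, 2 ≤ a → 2 ≤ b → IntervalIntegrable (fun t : ℝ => 1 / (2 * Real.log t)) MeasureTheory.volume a b := by
    intro a b ha hb
    apply (hcont.mono _).intervalIntegrable
    intro x hx
    rw [Set.mem_uIcc] at hx
    rw [Set.mem_Ici]
    rcases hx with h | h <;> linarith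
  have hbd : ∀ t : ℝ, 2 ≤ t → 0 ≤ 1 / (2 * Real.log t) ∧ 1 / (2 * Real.log t) ≤ 1 := by
    intro t ht
    have h1 : Real.log 2 ≤ Real.log t := Real.log_le_log (by norm_num) ht
    have h2 := Real.log_two_gt_d9
    have h3 : 0 < Real.log t := by linarith
    refine ⟨by positivity, ?_⟩
    rw [div_le_one (by positivity)]
    linarith
  have e1 := intervalIntegral.integral_add_adjacent_intervals (hii 2 u le_rfl hu) (hii u v hu (hu.trans huv))
  rw [← e1, add_sub_cancel_left]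
  have h0 : 0 ≤ ∫ t in u..v, 1 / (2 * Real.log t) := by
    apply intervalIntegral.integral_nonneg huv
    intro t ht
    exact (hbd t (by linarith [ht.1])).1
  rw [abs_of_nonneg h0]
  have h1 : ∫ t in u..v, 1 / (2 * Real.log t) ≤ ∫ _ in u..v, (1 : ℝ) := by
    apply intervalIntegral.integral_mono_on huv (hii u v hu (by linarith)) (by simp)
    intro t ht
    exact (hbd t (by linarith [ht.1])).2
  simpa using h1

/-- a good `l` gives the conclusion for the trace `2 σ l` -/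
theorem good_tr (D : ℕ) (hD : 1 ≤ D) (ε : ℝ) (A : ℕ) (hε : 0 < ε) (hε2 : ε ≤ 1 / 2) :
    ∃ R₀ : ℝ, ∀ R : ℝ, R₀ ≤ R → ∀ (σ : ℤ) (l : ℕ), (σ = 1 ∨ σ = -1) → 1 ≤ l → (l : ℝ) ≤ R / 2 → l % 2 = 1 →
      GoodD D σ (ε / 4) (A + 1) (R / 2) l → Tr D ε A R (2 * (σ * l)) := by
  classical
  have hev := (((ev_rpow_ge (ε / 8) 4 (by positivity)).and (eventually_ge_atTop (16 : ℝ))).and
    (ev_log_pow 1 (4 * 6 ^ A) one_pos 0)).and (ev_log_rpow (ε / 2) (by positivity) (A + 1) (40 * 3 ^ A))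
  obtain ⟨R₀, hR₀⟩ := eventually_atTop.1 hev
  refine ⟨R₀, fun R hR σ l hσ hl1 hlR hodd hg x hx1 hx2 => ?_⟩
  obtain ⟨⟨⟨h1, hR16⟩, h3⟩, h4⟩ := hR₀ R hR
  rw [zero_add, pow_one, one_mul] at h3
  have hR0 : 0 < R := by linarith
  have hR1 : 1 ≤ R := by linarith
  set L : ℝ := R / 2 with hL
  have hL0 : 0 < L := by positivity
  have hL1 : 1 ≤ L := by linarith
  have hσ2 : σ ^ 2 = 1 := by rcases hσ with h | h <;> rw [h] <;> norm_num
  have hx0 : 0 < x := lt_of_lt_of_le (by positivity) hx1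
  -- sizes
  have hxR : R ^ 2 * R ^ ε ≤ x := by
    have : R ^ (2 + ε) = R ^ 2 * R ^ ε := by
      rw [Real.rpow_add hR0]
      congr 1
      rw [show (2 : ℝ) = ((2 : ℕ) : ℝ) by norm_num, Real.rpow_natCast]
    rw [← this]
    exact hx1
  have hRe : 4 ≤ R ^ ε := by
    refine h1.trans (Real.rpow_le_rpow_of_exponent_le hR1 ?_)
    linarith
  have hRe2 : 1 ≤ R ^ (ε / 2) := Real.one_le_rpow hR1 (by positivity)
  have hl2 : (l : ℝ) ^ 2 ≤ R ^ 2 / 4 := by
    have : (l : ℝ) ^ 2 ≤ (R / 2) ^ 2 := pow_le_pow_left₀ (by positivity) hlR 2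
    calc (l : ℝ) ^ 2 ≤ (R / 2) ^ 2 := this
      _ = R ^ 2 / 4 := by ring
  have hR2x : R ^ 2 ≤ x := by
    have : 0 < R ^ 2 := by positivity
    nlinarith
  have hlx : (l : ℝ) ^ 2 ≤ x / 4 := by linarith
  set u : ℝ := Real.sqrt (x - (l : ℝ) ^ 2) with hu
  have hsx : 0 < Real.sqrt x := Real.sqrt_pos.2 hx0
  have hux : u ≤ Real.sqrt x := Real.sqrt_le_sqrt (by nlinarith [sq_nonneg (l : ℝ)])
  have hu2 : u ^ 2 = x - (l : ℝ) ^ 2 := Real.sq_sqrt (by linarith)
  have hsx2 : Real.sqrt x ^ 2 = x := Real.sq_sqrt hx0.le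
  have hu0 : 0 ≤ u := Real.sqrt_nonneg _
  have hu1 : Real.sqrt x / 2 ≤ u := by
    apply le_of_sq_le_sq _ hu0
    rw [hu2, div_pow, hsx2]
    linarith
  have hsR : R ^ (1 + ε / 2) ≤ Real.sqrt x := by
    rw [Real.le_sqrt' (by positivity)]
    refine le_trans (le_of_eq ?_) hx1
    rw [← Real.rpow_natCast, ← Real.rpow_mul hR0.le]
    congr 1
    push_cast
    ring
  have hsR2 : Real.sqrt x ≤ R ^ (3 / 2 - ε / 2) := by
    rw [Real.sqrt_le_left (by positivity)]
    refine hx2.trans (le_of_eq ?_)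
    rw [← Real.rpow_natCast, ← Real.rpow_mul hR0.le]
    congr 1
    push_cast
    ring
  have hu4 : L ^ (1 + ε / 4) ≤ u := by
    refine le_trans ?_ hu1
    have e1 : L ^ (1 + ε / 4) ≤ R ^ (1 + ε / 4) := Real.rpow_le_rpow hL0.le (by linarith) (by positivity)
    have e2 : R ^ (1 + ε / 4) * 2 ≤ R ^ (1 + ε / 2) := by
      calc R ^ (1 + ε / 4) * 2 ≤ R ^ (1 + ε / 4) * R ^ (ε / 4) := by
            refine mul_le_mul_of_nonneg_left ?_ (by positivity)
            have := Real.rpow_le_rpow_of_exponent_le hR1 (show ε / 8 ≤ ε / 4 by linarith)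
            linarith
        _ = R ^ (1 + ε / 2) := by
            rw [← Real.rpow_add hR0]
            congr 1
            ring
    linarith
  have hu5 : u ≤ L ^ (3 / 2 - ε / 4) := by
    refine hux.trans (hsR2.trans ?_)
    -- `R^(3/2 - ε/2) ≤ (R/2)^(3/2 - ε/4)`
    have e1 : L ^ (3 / 2 - ε / 4) = R ^ (3 / 2 - ε / 4) / 2 ^ (3 / 2 - ε / 4) := by
      rw [hL, Real.div_rpow hR0.le (by norm_num)]
    rw [e1, le_div_iff₀ (by positivity)]
    have e2 : (2 : ℝ) ^ (3 / 2 - ε / 4) ≤ R ^ (ε / 4) := by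
      have e3 : (2 : ℝ) ^ (3 / 2 - ε / 4) ≤ 2 ^ (2 : ℝ) := Real.rpow_le_rpow_of_exponent_le (by norm_num) (by linarith)
      have e4 : (2 : ℝ) ^ (2 : ℝ) = 4 := by
        rw [show (2 : ℝ) ^ (2 : ℝ) = (2 : ℝ) ^ ((2 : ℕ) : ℝ) by norm_num, Real.rpow_natCast]
        norm_num
      have e5 := Real.rpow_le_rpow_of_exponent_le hR1 (show ε / 8 ≤ ε / 4 by linarith)
      linarith
    calc R ^ (3 / 2 - ε / 2) * 2 ^ (3 / 2 - ε / 4) ≤ R ^ (3 / 2 - ε / 2) * R ^ (ε / 4) :=
          mul_le_mul_of_nonneg_left e2 (by positivity)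
      _ = R ^ (3 / 2 - ε / 4) := by
          rw [← Real.rpow_add hR0]
          congr 1
          ring
  -- the number of primes
  have ha : (σ * l : ℤ) % 2 = 1 := by
    rcases hσ with h | h <;> rw [h] <;> omega
  have hna : (σ * l : ℤ).natAbs = l := by
    rcases hσ with h | h <;> rw [h] <;> simp
  have hpi : (piD D (2 * (σ * l)) x : ℝ) = PP (cD D σ l) l ⌊u⌋₊ := by
    rw [piD_eq D (σ * l) x hx0.le ha]
    unfold PP cD
    have e1 : Real.sqrt (x - (((σ * l : ℤ)) : ℝ) ^ 2) = u := by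
      rw [hu]
      congr 2
      push_cast
      rw [mul_pow]
      have : ((σ : ℝ)) ^ 2 = 1 := by exact_mod_cast hσ2
      rw [this, one_mul]
    rw [e1, hna, card_filter]
    push_cast
    refine sum_congr rfl fun m _ => ?_
    by_cases h1 : (l ^ 2 + m ^ 2).Prime
    · by_cases h2 : G D (σ * l) m
      · rw [if_pos ⟨h1, h2⟩, if_pos h2, if_pos h1, mul_one]
      · rw [if_neg (fun h => h2 h.2), if_neg h2, zero_mul]
    · rw [if_neg (fun h => h1 h.1), if_neg h1, mul_zero]
  -- the constant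
  have hcst : cst D (2 * (σ * l)) = sD D σ l := by
    unfold cst
    have e1 : (2 * (σ * l) : ℤ) % 4 = 2 := by
      rcases hσ with h | h <;> rw [h] <;> omega
    rw [if_pos e1]
    have e2 : (2 * (σ * l) : ℤ) / 2 = σ * l := by omega
    have e3 : (if 0 < (2 * (σ * l) : ℤ) then (1 : ℤ) else -1) = σ := by
      rcases hσ with h | h
      · rw [h, if_pos (by omega)]
      · rw [h, if_neg (by omega)]
    rw [e2, hna, e3]
  rw [hpi, hcst]
  obtain ⟨hs, hgu⟩ := hg
  have hgu := hgu u hu4 hu5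
  have hs0 : 0 ≤ sD D σ l := (avgD hD σ hσ2).s0 l l (by
    rw [mem_box]
    exact ⟨by exact_mod_cast hl1, by simp⟩)
  -- the integrals
  have hu6 : 2 ≤ u := by
    have e1 : (4 : ℝ) ≤ R ^ (1 + ε / 2) := by
      calc (4 : ℝ) ≤ R := by linarith
        _ = R ^ (1 : ℝ) := (Real.rpow_one R).symm
        _ ≤ _ := Real.rpow_le_rpow_of_exponent_le hR1 (by linarith)
    linarith
  have hd1 := int_diff hu6 hux
  have hd2 : Real.sqrt x - u ≤ (l : ℝ) ^ 2 / Real.sqrt x := by
    rw [le_div_iff₀ hsx]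
    nlinarith
  have hd3 : (l : ℝ) ^ 2 / Real.sqrt x ≤ Real.sqrt x * (1 / R ^ ε) := by
    rw [div_le_iff₀ hsx]
    have e1 : Real.sqrt x * (1 / R ^ ε) * Real.sqrt x = x / R ^ ε := by
      have := hsx2
      field_simp
      linarith
    rw [e1, le_div_iff₀ (by positivity)]
    have : 0 ≤ R ^ ε := by positivity
    nlinarith
  -- the logarithms
  have hlogR : 0 < Real.log R := Real.log_pos (by linarith)
  have hlogx : Real.log x ≤ 3 * Real.log R := by
    have e1 : x ≤ R ^ (3 : ℝ) := hx2.trans (Real.rpow_le_rpow_of_exponent_le hR1 (by linarith))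
    have e2 := Real.log_le_log hx0 e1
    rwa [Real.log_rpow hR0] at e2
  have hlogx0 : 1 ≤ Real.log x := by
    rw [Real.le_log_iff_exp_le hx0]
    have := Real.exp_one_lt_d9
    nlinarith
  have hlogL : Real.log R / 2 ≤ Real.log L := by
    have e1 : Real.sqrt R ≤ L := by
      rw [Real.sqrt_le_left hL0.le, hL]
      nlinarith
    have e2 := Real.log_le_log (Real.sqrt_pos.2 hR0) e1
    rwa [Real.log_sqrt hR0.le] at e2
  have hlogLR : Real.log L ≤ Real.log R := Real.log_le_log hL0 (by linarith)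
  have hlogL0 : 0 < Real.log L := by linarith
  have k1 : u / (Real.log L) ^ (A + 1) ≤ 1 / 2 * (Real.sqrt x / (Real.log x) ^ A) := by
    have e1 : 2 * (Real.log x) ^ A ≤ (Real.log L) ^ (A + 1) := by
      have e2 : (Real.log x) ^ A ≤ (6 * Real.log L) ^ A := pow_le_pow_left₀ (by linarith) (by linarith) A
      rw [mul_pow] at e2
      have e3 : 2 * 6 ^ A ≤ Real.log L := by linarith
      calc 2 * (Real.log x) ^ A ≤ 2 * (6 ^ A * (Real.log L) ^ A) := by linarith
        _ = (2 * 6 ^ A) * (Real.log L) ^ A := by ring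
        _ ≤ Real.log L * (Real.log L) ^ A := mul_le_mul_of_nonneg_right e3 (by positivity)
        _ = _ := by ring
    rw [mul_div_assoc', div_le_div_iff₀ (by positivity) (by positivity)]
    calc u * (Real.log x) ^ A ≤ Real.sqrt x * (Real.log x) ^ A := mul_le_mul_of_nonneg_right hux (by positivity)
      _ = 1 / 2 * Real.sqrt x * (2 * (Real.log x) ^ A) := by ring
      _ ≤ 1 / 2 * Real.sqrt x * (Real.log L) ^ (A + 1) := mul_le_mul_of_nonneg_left e1 (by positivity)
  have k2 : sD D σ l * (Real.sqrt x - u) ≤ 1 / 2 * (Real.sqrt x / (Real.log x) ^ A) := by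
    have e1 : sD D σ l * (Real.sqrt x - u) ≤ 19 * Real.log L * (Real.sqrt x * (1 / R ^ ε)) :=
      mul_le_mul hs (hd2.trans hd3) (by linarith) (by positivity)
    refine e1.trans ?_
    have e2 : 38 * Real.log R * (Real.log x) ^ A ≤ R ^ ε := by
      have e3 : (Real.log x) ^ A ≤ (3 * Real.log R) ^ A := pow_le_pow_left₀ (by linarith) hlogx A
      rw [mul_pow] at e3
      have e4 : R ^ (ε / 2) ≤ R ^ ε := Real.rpow_le_rpow_of_exponent_le hR1 (by linarith)
      calc 38 * Real.log R * (Real.log x) ^ A ≤ 40 * Real.log R * (3 ^ A * (Real.log R) ^ A) := by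
            refine mul_le_mul (by linarith) e3 (by positivity) (by positivity)
        _ = 40 * 3 ^ A * (Real.log R) ^ (A + 1) := by ring
        _ ≤ R ^ (ε / 2) := h4
        _ ≤ R ^ ε := e4
    have e5 : 0 < R ^ ε := by positivity
    have e6 : 19 * Real.log L * (Real.sqrt x * (1 / R ^ ε)) ≤ 19 * Real.log R * (Real.sqrt x * (1 / R ^ ε)) := by
      gcongr
    refine e6.trans ?_
    have e7 : 19 * Real.log R * (Real.sqrt x * (1 / R ^ ε)) = 19 * Real.log R * Real.sqrt x / R ^ ε := by ring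
    rw [e7, mul_div_assoc', div_le_div_iff₀ e5 (by positivity)]
    calc 19 * Real.log R * Real.sqrt x * (Real.log x) ^ A = 1 / 2 * Real.sqrt x * (38 * Real.log R * (Real.log x) ^ A) := by
          ring
      _ ≤ 1 / 2 * Real.sqrt x * R ^ ε := mul_le_mul_of_nonneg_left e2 (by positivity)
  have k3 : |sD D σ l * (∫ t in (2 : ℝ)..u, 1 / (2 * Real.log t)) -
      sD D σ l * ∫ t in (2 : ℝ)..(Real.sqrt x), 1 / (2 * Real.log t)| ≤ sD D σ l * (Real.sqrt x - u) := by
    rw [← mul_sub, abs_mul, abs_of_nonneg hs0, abs_sub_comm]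
    exact mul_le_mul_of_nonneg_left hd1 hs0
  have k4 := abs_add_le (PP (cD D σ l) l ⌊u⌋₊ - sD D σ l * ∫ t in (2 : ℝ)..u, 1 / (2 * Real.log t))
    (sD D σ l * (∫ t in (2 : ℝ)..u, 1 / (2 * Real.log t)) -
      sD D σ l * ∫ t in (2 : ℝ)..(Real.sqrt x), 1 / (2 * Real.log t))
  rw [sub_add_sub_cancel] at k4
  linarith

open Classical in
/-- **Lang–Trotter for almost all traces** -/
theorem lt_all (D : ℕ) (hD : 1 ≤ D) (ε : ℝ) (A : ℕ) (hε : 0 < ε) : ∃ R₀ : ℝ, ∀ R : ℝ, R₀ ≤ R →
    (((Icc ⌈-R⌉ ⌊R⌋).filter (fun r : ℤ => ¬ Tr D ε A R r)).card : ℝ) ≤ R / (Real.log R) ^ A := by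
  by_cases hε2 : 1 / 2 < ε
  · -- the interval is empty
    refine ⟨3, fun R hR => ?_⟩
    rw [filter_false_of_mem]
    · rw [card_empty]
      have : 0 ≤ Real.log R := Real.log_nonneg (by linarith)
      push_cast
      positivity
    · intro l _
      rw [not_not]
      intro x h1 h2
      exfalso
      have h3 : R ^ (3 - ε) < R ^ (2 + ε) := Real.rpow_lt_rpow_of_exponent_lt (by linarith) (by linarith)
      linarith
  push Not at hε2
  obtain ⟨R₁, h1⟩ := good_tr D hD ε A hε hε2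
  obtain ⟨L₁, hL₁, g1⟩ := almost_D hD 1 (by norm_num) (ε / 4) (A + 1) (by positivity) (by linarith)
  obtain ⟨L₂, hL₂, g2⟩ := almost_D hD (-1) (by norm_num) (ε / 4) (A + 1) (by positivity) (by linarith)
  obtain ⟨R₂, h2⟩ := eventually_atTop.1 (((ev_log_pow 1 (4 * 2 ^ A) one_pos 0).and (ev_log_rpow 1 one_pos A 2)).and
    (eventually_ge_atTop (16 : ℝ)))
  refine ⟨max (max R₁ R₂) (2 * max L₁ L₂), fun R hR => ?_⟩
  have hRR1 : R₁ ≤ R := ((le_max_left _ _).trans (le_max_left _ _)).trans hR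
  have hRR2 : R₂ ≤ R := ((le_max_right _ _).trans (le_max_left _ _)).trans hR
  have hRR3 : 2 * max L₁ L₂ ≤ R := (le_max_right _ _).trans hR
  obtain ⟨⟨h3, h4⟩, hR16⟩ := h2 R hRR2
  rw [zero_add, pow_one, one_mul] at h3
  rw [Real.rpow_one] at h4
  have hR0 : 0 < R := by linarith
  have hR1 : 1 ≤ R := by linarith
  have hL1 : L₁ ≤ R / 2 := by
    have := le_max_left L₁ L₂
    linarith
  have hL2 : L₂ ≤ R / 2 := by
    have := le_max_right L₁ L₂
    linarith
  have k1 := g1 (R / 2) hL1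
  have k2 := g2 (R / 2) hL2
  set B1 := (Icc 1 ⌊R / 2⌋₊).filter (fun l : ℕ => ¬ GoodD D 1 (ε / 4) (A + 1) (R / 2) l) with hB1
  set B2 := (Icc 1 ⌊R / 2⌋₊).filter (fun l : ℕ => ¬ GoodD D (-1) (ε / 4) (A + 1) (R / 2) l) with hB2
  have hsub : (Icc ⌈-R⌉ ⌊R⌋).filter (fun r : ℤ => ¬ Tr D ε A R r) ⊆
      {0} ∪ (B1.image (fun l : ℕ => (2 * (1 * l) : ℤ)) ∪ B2.image (fun l : ℕ => (2 * (-1 * l) : ℤ))) := by
    intro r hr
    rw [mem_filter, mem_box2] at hr
    obtain ⟨hrR, hr⟩ := hr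
    rw [mem_union, mem_singleton, mem_union]
    by_cases hr0 : r = 0
    · left
      exact hr0
    right
    by_cases hr4 : r % 4 = 2
    · -- `r = 2 σ l`
      set l : ℕ := (r / 2).natAbs with hl
      have hl1 : 1 ≤ l := by omega
      have hlR : (l : ℝ) ≤ R / 2 := by
        have e1 : ((2 * l : ℕ) : ℤ) = |r| := by
          push_cast
          rw [hl, Int.natCast_natAbs]
          rcases lt_or_gt_of_ne hr0 with h | h
          · rw [abs_of_neg h, abs_of_neg (by omega)]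
            omega
          · rw [abs_of_pos h, abs_of_pos (by omega)]
            omega
        have e2 : ((2 * l : ℕ) : ℝ) = |(r : ℝ)| := by
          rw [← Int.cast_abs, ← e1]
          push_cast
          ring
        rw [← e2] at hrR
        push_cast at hrR
        linarith
      have hlodd : l % 2 = 1 := by omega
      have hmem : l ∈ Icc 1 ⌊R / 2⌋₊ := by
        rw [mem_Icc]
        exact ⟨hl1, Nat.le_floor hlR⟩
      rcases lt_or_gt_of_ne hr0 with h | h
      · right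
        rw [mem_image]
        refine ⟨l, ?_, by omega⟩
        rw [hB2, mem_filter]
        refine ⟨hmem, fun hg => hr ?_⟩
        have := h1 R hRR1 (-1) l (Or.inr rfl) hl1 hlR hlodd hg
        have e1 : (2 * (-1 * l) : ℤ) = r := by omega
        rwa [e1] at this
      · left
        rw [mem_image]
        refine ⟨l, ?_, by omega⟩
        rw [hB1, mem_filter]
        refine ⟨hmem, fun hg => hr ?_⟩
        have := h1 R hRR1 1 l (Or.inl rfl) hl1 hlR hlodd hg
        have e1 : (2 * (1 * l) : ℤ) = r := by omega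
        rwa [e1] at this
    · exfalso
      apply hr
      intro x hx1 hx2
      rw [piD_zero D r x hr0 hr4]
      unfold cst
      rw [if_neg hr4]
      have hx0 : 0 < x := lt_of_lt_of_le (by positivity) hx1
      have hx3 : 1 ≤ x := (Real.one_le_rpow hR1 (by linarith)).trans hx1
      have := Real.log_nonneg hx3
      simp only [Nat.cast_zero, zero_mul, sub_zero, abs_zero]
      positivity
  have hcard : (((Icc ⌈-R⌉ ⌊R⌋).filter (fun r : ℤ => ¬ Tr D ε A R r)).card : ℝ) ≤ 1 + (B1.card + B2.card) := by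
    have e1 := (card_le_card hsub).trans ((card_union_le _ _).trans (add_le_add_right ((card_union_le _ _).trans
      (add_le_add card_image_le card_image_le)) _))
    rw [card_singleton] at e1
    exact_mod_cast e1
  refine hcard.trans ?_
  have hlogR : 1 ≤ Real.log R := by
    rw [Real.le_log_iff_exp_le hR0]
    have := Real.exp_one_lt_d9
    linarith
  have hlogL : Real.log R / 2 ≤ Real.log (R / 2) := by
    have e1 : Real.sqrt R ≤ R / 2 := by
      rw [Real.sqrt_le_left (by positivity)]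
      nlinarith
    have e2 := Real.log_le_log (Real.sqrt_pos.2 hR0) e1
    rwa [Real.log_sqrt hR0.le] at e2
  set ℓ := Real.log R with hℓ
  have k3 : R / 2 / (Real.log (R / 2)) ^ (A + 1) ≤ 1 / 4 * (R / ℓ ^ A) := by
    have e1 : 2 * ℓ ^ A ≤ (Real.log (R / 2)) ^ (A + 1) := by
      calc 2 * ℓ ^ A ≤ (ℓ / 2) ^ (A + 1) := by
            rw [div_pow, pow_succ ℓ A, le_div_iff₀ (by positivity)]
            have : 0 ≤ ℓ ^ A := by positivity
            calc 2 * ℓ ^ A * 2 ^ (A + 1) = ℓ ^ A * (4 * 2 ^ A) := by ring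
              _ ≤ ℓ ^ A * ℓ := mul_le_mul_of_nonneg_left h3 this
        _ ≤ _ := pow_le_pow_left₀ (by positivity) hlogL _
    have e2 : 0 < Real.log (R / 2) := by linarith
    rw [mul_div_assoc', div_le_div_iff₀ (by positivity) (by positivity)]
    calc R / 2 * ℓ ^ A = 1 / 4 * R * (2 * ℓ ^ A) := by ring
      _ ≤ 1 / 4 * R * (Real.log (R / 2)) ^ (A + 1) := mul_le_mul_of_nonneg_left e1 (by positivity)
  have k4 : 1 ≤ 1 / 2 * (R / ℓ ^ A) := by
    rw [mul_div_assoc', le_div_iff₀ (by positivity)]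
    linarith
  linarith

end Pool.Agent.N782.GN.LT
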