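import Pool.Agent.N782.GN.MainA

/-!
# Project GN (helper782): assembly, part B: Vaughan's identity with the linear sums inserted.
-/

set_option autoImplicit false

namespace Pool.Agent.N782.GN

open Finset Filter Topology
open Pool.Agent.H304R3.HK (UH bb LamK)

theorem bl_ne {X : ℝ} {z : ZI} (hz : z ∈ bl X) : z ≠ 0 := ((mem_bl X z).1 hz).1

theorem bl_le {X : ℝ} {z : ZI} (hz : z ∈ bl X) : nz z ≤ X := ((mem_bl X z).1 hz).2

/-- the part of Vaughan's identity with the small `z` -/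
noncomputable def V0 (M W : ℝ) (lam : ℤ → ℝ) : ℝ := ∑ z ∈ bl W, LamK z * Fz lam M z

/-- the bilinear part -/
noncomputable def V3 (M Y W : ℝ) (lam : ℤ → ℝ) : ℝ :=
  ∑ b ∈ (bl (2 * M ^ 2)).filter (fun b => Y < nz b), ∑ v ∈ bl (2 * M ^ 2), mu b * aW W v * Fz lam M (b * v)

/-- the errors of the linear parts -/
noncomputable def V1 (M L Y : ℝ) (lam : ℤ → ℝ) : ℝ :=
  ∑ b ∈ bl Y, mu b * (er2 M L lam b + er3 M L lam b - Real.log (nz b) * er1 M L lam b)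

noncomputable def V2 (M L Y W : ℝ) (lam : ℤ → ℝ) : ℝ :=
  ∑ b ∈ bl Y, ∑ c ∈ bl W, mu b * LamK c * er1 M L lam (b * c)

theorem vaughan_l (hv : S_VAU) {M L Y W : ℝ} {lam : ℤ → ℝ} (hM : 1 ≤ M) (h : Lm L lam) (hLM : L ≤ M) (hY : 1 ≤ Y)
    (hW : 1 ≤ W) :
    ∑ l ∈ Icc 1 ⌊L⌋, lam l * (∑ m ∈ Icc ⌈-M⌉ ⌊M⌋, LamK (⟨l, m⟩ : ZI) - Em l M Y W) =
      V0 M W lam + 1 / 4 * V1 M L Y lam - 1 / 16 * V2 M L Y W lam + 1 / 16 * V3 M Y W lam := by
  have hM2 : (1 : ℝ) ≤ 2 * M ^ 2 := by nlinarith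
  have h0 : Fz lam M 0 = 0 := by
    unfold Fz
    split_ifs
    · apply h.zero
      intro h1
      rw [mem_Icc] at h1
      simp at h1
    · rfl
  have hV := hv (Fz lam M) (2 * M ^ 2) Y W hY hW hM2 h0 (fun z hz => Fz_zero h hLM le_rfl hz)
  rw [sum_box h hLM] at hV
  have e0 : ∑ l ∈ Icc 1 ⌊L⌋, lam l * (∑ m ∈ Icc ⌈-M⌉ ⌊M⌋, LamK (⟨l, m⟩ : ZI) - Em l M Y W) =
      ∑ l ∈ Icc 1 ⌊L⌋, ∑ m ∈ Icc ⌈-M⌉ ⌊M⌋, lam l * LamK (⟨l, m⟩ : ZI) - ∑ l ∈ Icc 1 ⌊L⌋, lam l * Em l M Y W := by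
    rw [← sum_sub_distrib]
    refine sum_congr rfl fun l _ => ?_
    rw [mul_sub, mul_sum]
  rw [e0, hV]
  have e1 : ∑ b ∈ bl Y, ∑ u ∈ bl (2 * M ^ 2), mu b * Real.log (nz u) * Fz lam M (b * u) =
      V1 M L Y lam + ∑ l ∈ Icc 1 ⌊L⌋, lam l * ∑ b ∈ bl Y, mu b * (kap l b / nz b) *
          (4 * M * (Real.log M - 1) - 2 * M * Real.log (nz b)) := by
    have e2 : ∀ b ∈ bl Y, ∑ u ∈ bl (2 * M ^ 2), mu b * Real.log (nz u) * Fz lam M (b * u) =
        mu b * (er2 M L lam b + er3 M L lam b - Real.log (nz b) * er1 M L lam b) +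
        ∑ l ∈ Icc 1 ⌊L⌋, lam l * (mu b * (kap l b / nz b) *
          (4 * M * (Real.log M - 1) - 2 * M * Real.log (nz b))) := by
      intro b hb
      have e3 := sum_log h hLM (bl_ne hb)
      have e4 : ∑ u ∈ bl (2 * M ^ 2), mu b * Real.log (nz u) * Fz lam M (b * u) =
          mu b * ∑ u ∈ bl (2 * M ^ 2), Real.log (nz u) * Fz lam M (b * u) := by
        rw [mul_sum]
        refine sum_congr rfl fun u _ => ?_
        ring
      rw [e4, e3, mul_add]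
      congr 1
      rw [mul_sum]
      refine sum_congr rfl fun l _ => ?_
      ring
    rw [sum_congr rfl e2, sum_add_distrib, V1]
    congr 1
    rw [sum_comm]
    refine sum_congr rfl fun l _ => ?_
    rw [mul_sum]
  have e5 : ∑ b ∈ bl Y, ∑ c ∈ bl W, ∑ u ∈ bl (2 * M ^ 2), mu b * LamK c * Fz lam M (b * c * u) =
      V2 M L Y W lam + ∑ l ∈ Icc 1 ⌊L⌋, lam l * (2 * M * ∑ b ∈ bl Y, ∑ c ∈ bl W,
        mu b * LamK c * (kap l (b * c) / nz (b * c))) := by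
    have e6 : ∀ b ∈ bl Y, ∀ c ∈ bl W, ∑ u ∈ bl (2 * M ^ 2), mu b * LamK c * Fz lam M (b * c * u) =
        mu b * LamK c * er1 M L lam (b * c) +
        ∑ l ∈ Icc 1 ⌊L⌋, lam l * (2 * M * (mu b * LamK c * (kap l (b * c) / nz (b * c)))) := by
      intro b hb c hc
      rw [← mul_sum, sum_one h hLM (mul_ne_zero (bl_ne hb) (bl_ne hc)), mul_add]
      congr 1
      rw [mul_sum]
      refine sum_congr rfl fun l _ => ?_
      ring
    rw [sum_congr rfl fun b hb => sum_congr rfl fun c hc => e6 b hb c hc]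
    rw [V2]
    rw [show ∑ b ∈ bl Y, ∑ c ∈ bl W, (mu b * LamK c * er1 M L lam (b * c) +
        ∑ l ∈ Icc 1 ⌊L⌋, lam l * (2 * M * (mu b * LamK c * (kap l (b * c) / nz (b * c))))) =
        ∑ b ∈ bl Y, ∑ c ∈ bl W, mu b * LamK c * er1 M L lam (b * c) +
        ∑ b ∈ bl Y, ∑ c ∈ bl W, ∑ l ∈ Icc 1 ⌊L⌋, lam l * (2 * M * (mu b * LamK c * (kap l (b * c) / nz (b * c)))) by
      rw [← sum_add_distrib]
      refine sum_congr rfl fun b _ => ?_
      rw [← sum_add_distrib]]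
    congr 1
    rw [show ∑ b ∈ bl Y, ∑ c ∈ bl W, ∑ l ∈ Icc 1 ⌊L⌋, lam l * (2 * M * (mu b * LamK c *
        (kap l (b * c) / nz (b * c)))) = ∑ b ∈ bl Y, ∑ l ∈ Icc 1 ⌊L⌋, ∑ c ∈ bl W, lam l * (2 * M * (mu b * LamK c *
        (kap l (b * c) / nz (b * c)))) from sum_congr rfl fun b _ => sum_comm]
    rw [sum_comm]
    refine sum_congr rfl fun l _ => ?_
    simp only [mul_sum]
  rw [e1, e5]
  have e7 : ∑ l ∈ Icc 1 ⌊L⌋, lam l * Em l M Y W =
      1 / 4 * ∑ l ∈ Icc 1 ⌊L⌋, lam l * ∑ b ∈ bl Y, mu b * (kap l b / nz b) *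
          (4 * M * (Real.log M - 1) - 2 * M * Real.log (nz b)) -
      1 / 16 * ∑ l ∈ Icc 1 ⌊L⌋, lam l * (2 * M * ∑ b ∈ bl Y, ∑ c ∈ bl W,
        mu b * LamK c * (kap l (b * c) / nz (b * c))) := by
    rw [mul_sum, mul_sum, ← sum_sub_distrib]
    refine sum_congr rfl fun l _ => ?_
    unfold Em
    ring
  rw [e7, V0, V3]
  ring

/-- the bound for `V2` -/
theorem V2_le (hm : S_MUB) {M L Y W : ℝ} {lam : ℤ → ℝ} (hY : 1 ≤ Y) (hW : 1 ≤ W) :
    |V2 M L Y W lam| ≤ 4 * Real.log (Y * W) * ∑ a ∈ bl (Y * W), |er1 M L lam a| := by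
  classical
  obtain ⟨-, -, -, -, h5, h6⟩ := hm
  have h1 : |V2 M L Y W lam| ≤ ∑ b ∈ bl Y, ∑ c ∈ bl W, LamK c * |er1 M L lam (b * c)| := by
    unfold V2
    refine (abs_sum_le_sum_abs _ _).trans (sum_le_sum fun b _ => ?_)
    refine (abs_sum_le_sum_abs _ _).trans (sum_le_sum fun c _ => ?_)
    rw [abs_mul, abs_mul, abs_of_nonneg (h6 c).1]
    refine mul_le_mul_of_nonneg_right ?_ (abs_nonneg _)
    calc |mu b| * LamK c ≤ 1 * LamK c := mul_le_mul_of_nonneg_right (abs_mu_le b) (h6 c).1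
      _ = LamK c := one_mul _
  refine h1.trans ?_
  have h2 : ∑ b ∈ bl Y, ∑ c ∈ bl W, LamK c * |er1 M L lam (b * c)| ≤
      ∑ a ∈ bl (Y * W), ∑ c ∈ (bl (nz a)).filter (fun c => c ∣ a), LamK c * |er1 M L lam a| := by
    rw [← sum_product', sum_sigma']
    refine le_of_eq_of_le (b := ∑ p ∈ ((bl Y) ×ˢ (bl W)).image
      (fun p : ZI × ZI => (⟨p.1 * p.2, p.2⟩ : Σ _ : ZI, ZI)), LamK p.2 * |er1 M L lam p.1|) ?_ ?_
    · rw [sum_image]
      rintro ⟨b, c⟩ hbc ⟨b', c'⟩ hbc' he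
      simp only [Sigma.mk.injEq, heq_eq_eq] at he
      obtain ⟨he1, he2⟩ := he
      subst he2
      rw [mem_coe, mem_product] at hbc
      have := mul_right_cancel₀ (bl_ne hbc.2) he1
      rw [this]
    · refine sum_le_sum_of_subset_of_nonneg ?_ ?_
      · intro p hp
        rw [mem_image] at hp
        obtain ⟨⟨b, c⟩, hbc, rfl⟩ := hp
        rw [mem_product] at hbc
        obtain ⟨hb, hc⟩ := hbc
        simp only at hb hc
        have hb0 := bl_ne hb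
        have hc0 := bl_ne hc
        have h7 := one_le_nz hb0
        have h8 := one_le_nz hc0
        rw [mem_sigma, mem_bl, mem_filter, mem_bl]
        refine ⟨⟨mul_ne_zero hb0 hc0, ?_⟩, ⟨hc0, ?_⟩, dvd_mul_left _ _⟩
        · rw [nz_mul]
          exact mul_le_mul (bl_le hb) (bl_le hc) (by linarith) (by linarith)
        · simp only
          rw [nz_mul]
          nlinarith
      · intro p _ _
        exact mul_nonneg (h6 _).1 (abs_nonneg _)
  refine h2.trans ?_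
  rw [mul_sum]
  refine sum_le_sum fun a ha => ?_
  rw [← sum_mul, h5 a (bl_ne ha)]
  have h3 : Real.log (nz a) ≤ Real.log (Y * W) :=
    Real.log_le_log (by linarith [one_le_nz (bl_ne ha)]) (bl_le ha)
  exact mul_le_mul_of_nonneg_right (by linarith) (abs_nonneg _)

/-- the bound for `V1` -/
theorem V1_le {M L Y : ℝ} {lam : ℤ → ℝ} (hY : 1 ≤ Y) :
    |V1 M L Y lam| ≤ ∑ b ∈ bl Y, |er2 M L lam b| + ∑ b ∈ bl Y, |er3 M L lam b| +
      Real.log Y * ∑ b ∈ bl Y, |er1 M L lam b| := by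
  unfold V1
  refine (abs_sum_le_sum_abs _ _).trans ?_
  rw [mul_sum, ← sum_add_distrib, ← sum_add_distrib]
  refine sum_le_sum fun b hb => ?_
  rw [abs_mul]
  have h1 : 1 ≤ nz b := one_le_nz (bl_ne hb)
  have h2 : 0 ≤ Real.log (nz b) := Real.log_nonneg h1
  have h3 : Real.log (nz b) ≤ Real.log Y := Real.log_le_log (by linarith) (bl_le hb)
  calc |mu b| * |er2 M L lam b + er3 M L lam b - Real.log (nz b) * er1 M L lam b|
      ≤ 1 * |er2 M L lam b + er3 M L lam b - Real.log (nz b) * er1 M L lam b| :=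
        mul_le_mul_of_nonneg_right (abs_mu_le b) (abs_nonneg _)
    _ = |er2 M L lam b + er3 M L lam b - Real.log (nz b) * er1 M L lam b| := one_mul _
    _ ≤ |er2 M L lam b + er3 M L lam b| + |Real.log (nz b) * er1 M L lam b| := abs_sub _ _
    _ ≤ |er2 M L lam b| + |er3 M L lam b| + Real.log Y * |er1 M L lam b| := by
        refine add_le_add (abs_add_le _ _) ?_
        rw [abs_mul, abs_of_nonneg h2]
        exact mul_le_mul_of_nonneg_right h3 (abs_nonneg _)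

theorem harm (N : ℕ) : ∑ m ∈ Icc (-(N : ℤ)) N, 1 / |(m : ℝ)| ≤ 2 * ∑ n ∈ Icc 1 N, 1 / (n : ℝ) := by
  induction N with
  | zero => simp
  | succ N ih =>
    have h1 : Icc (-((N + 1 : ℕ) : ℤ)) ((N + 1 : ℕ) : ℤ) =
        insert (-((N + 1 : ℕ) : ℤ)) (insert ((N + 1 : ℕ) : ℤ) (Icc (-(N : ℤ)) N)) := by
      ext m
      simp only [mem_Icc, mem_insert]
      push_cast
      omega
    have h2 : ((N + 1 : ℕ) : ℤ) ∉ Icc (-(N : ℤ)) N := by
      rw [mem_Icc]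
      push_cast
      omega
    have h3 : (-((N + 1 : ℕ) : ℤ)) ∉ insert ((N + 1 : ℕ) : ℤ) (Icc (-(N : ℤ)) N) := by
      rw [mem_insert, mem_Icc]
      push_cast
      omega
    rw [h1, sum_insert h3, sum_insert h2, sum_Icc_succ_top (by omega)]
    have h4 : |((-((N + 1 : ℕ) : ℤ) : ℤ) : ℝ)| = (N + 1 : ℕ) := by
      push_cast
      rw [abs_neg, abs_of_nonneg (by positivity)]
    have h5 : |(((N + 1 : ℕ) : ℤ) : ℝ)| = (N + 1 : ℕ) := by
      push_cast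
      rw [abs_of_nonneg (by positivity)]
    rw [h4, h5]
    linarith

theorem harm2 {M : ℝ} (hM : 1 ≤ M) : ∑ m ∈ Icc ⌈-M⌉ ⌊M⌋, 1 / |(m : ℝ)| ≤ 2 * (1 + Real.log M) := by
  have h1 : ⌈-M⌉ = -((⌊M⌋₊ : ℕ) : ℤ) := by
    rw [Int.ceil_neg, Int.natCast_floor_eq_floor (by linarith)]
  have h2 : ⌊M⌋ = ((⌊M⌋₊ : ℕ) : ℤ) := (Int.natCast_floor_eq_floor (by linarith)).symm
  rw [h1, h2]
  refine (harm _).trans ?_
  have h3 := harmonic_le_one_add_log ⌊M⌋₊
  have h4 : ((harmonic ⌊M⌋₊ : ℚ) : ℝ) = ∑ n ∈ Icc 1 ⌊M⌋₊, 1 / (n : ℝ) := by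
    rw [harmonic_eq_sum_Icc]
    push_cast
    refine sum_congr rfl fun n _ => ?_
    rw [one_div]
  rw [h4] at h3
  have h5 : Real.log ⌊M⌋₊ ≤ Real.log M := by
    refine Real.log_le_log ?_ (Nat.floor_le (by linarith))
    have : 0 < ⌊M⌋₊ := Nat.floor_pos.2 hM
    exact_mod_cast this
  linarith

theorem log_diff {l m : ℤ} {L : ℝ} (hl : 1 ≤ l) (hlL : (l : ℝ) ≤ L) :
    abs (Real.log (nz (⟨l, m⟩ : ZI)) - 2 * Real.log (abs (m : ℝ))) ≤
      (if m = 0 then 2 * Real.log L else 0) + 2 * L * (1 / abs (m : ℝ)) := by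
  have hl1 : (1 : ℝ) ≤ l := by exact_mod_cast hl
  have hL1 : 1 ≤ L := hl1.trans hlL
  rw [nz_mk]
  by_cases hm : m = 0
  · subst hm
    simp only [Int.cast_zero, abs_zero, Real.log_zero, mul_zero, sub_zero, div_zero, add_zero, if_true]
    rw [zero_pow two_ne_zero, add_zero, Real.log_pow, abs_of_nonneg (by positivity)]
    push_cast
    have := Real.log_le_log (by linarith) hlL
    linarith
  · rw [if_neg hm, zero_add]
    have hm1 : (0 : ℝ) < |(m : ℝ)| := abs_pos.2 (by exact_mod_cast hm)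
    have h1 : 2 * Real.log |(m : ℝ)| = Real.log ((m : ℝ) ^ 2) := by
      rw [← sq_abs, Real.log_pow]
      push_cast
      ring
    have hmp : (0 : ℝ) < (m : ℝ) ^ 2 := by
      rw [← sq_abs]
      positivity
    rw [h1, ← Real.log_div (by positivity) hmp.ne']
    have h2 : ((l : ℝ) ^ 2 + (m : ℝ) ^ 2) / (m : ℝ) ^ 2 = 1 + ((l : ℝ) / |(m : ℝ)|) ^ 2 := by
      rw [div_pow, sq_abs]
      field_simp
      ring
    rw [h2]
    have hx : 0 ≤ (l : ℝ) / |(m : ℝ)| := by positivity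
    have h3 : 0 ≤ Real.log (1 + ((l : ℝ) / |(m : ℝ)|) ^ 2) := Real.log_nonneg (by nlinarith [sq_nonneg ((l : ℝ) / |(m : ℝ)|)])
    rw [abs_of_nonneg h3]
    have h4 : Real.log (1 + ((l : ℝ) / |(m : ℝ)|) ^ 2) ≤ 2 * ((l : ℝ) / |(m : ℝ)|) := by
      calc Real.log (1 + ((l : ℝ) / |(m : ℝ)|) ^ 2) ≤ Real.log ((1 + (l : ℝ) / |(m : ℝ)|) ^ 2) := by
            apply Real.log_le_log (by positivity)
            nlinarith
        _ = 2 * Real.log (1 + (l : ℝ) / |(m : ℝ)|) := by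
            rw [Real.log_pow]
            push_cast
            ring
        _ ≤ _ := by
            have := Real.log_le_sub_one_of_pos (show 0 < 1 + (l : ℝ) / |(m : ℝ)| by positivity)
            linarith
    calc _ ≤ 2 * ((l : ℝ) / |(m : ℝ)|) := h4
      _ ≤ 2 * (L / |(m : ℝ)|) := by gcongr
      _ = 2 * L * (1 / |(m : ℝ)|) := by ring

/-- the bound for the sum of `er3` -/
theorem er3_le {M L Y K : ℝ} {lam : ℤ → ℝ} (hM : 1 ≤ M) (hL1 : 1 ≤ L) (h : Lm L lam) (hLM : L ≤ M) (hK : 0 ≤ K)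
    (hd : ∀ z : ZI, z ≠ 0 → nz z ≤ 2 * M ^ 2 → (dv z : ℝ) ≤ K) :
    ∑ b ∈ bl Y, |er3 M L lam b| ≤ K * L * (2 * Real.log L + 4 * L * (1 + Real.log M)) := by
  classical
  set g : ℤ → ℝ := fun m => (if m = 0 then 2 * Real.log L else 0) + 2 * L * (1 / abs (m : ℝ)) with hg
  have hlogL : 0 ≤ Real.log L := Real.log_nonneg hL1
  have hg0 : ∀ m, 0 ≤ g m := fun m => by
    simp only [hg]
    split_ifs <;> positivity
  have h1 : ∀ b ∈ bl Y, |er3 M L lam b| ≤ ∑ l ∈ Icc 1 ⌊L⌋, ∑ m ∈ Icc ⌈-M⌉ ⌊M⌋,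
      if b ∣ (⟨l, m⟩ : ZI) then g m else 0 := by
    intro b _
    unfold er3
    refine (abs_sum_le_sum_abs _ _).trans (sum_le_sum fun l hl => ?_)
    rw [abs_mul, sum_filter]
    rw [mem_box] at hl
    refine (mul_le_mul_of_nonneg_right (h.1 l) (abs_nonneg _)).trans ?_
    rw [one_mul]
    refine (abs_sum_le_sum_abs _ _).trans (sum_le_sum fun m _ => ?_)
    split_ifs
    · exact log_diff hl.1 hl.2
    · rw [abs_zero]
  refine (sum_le_sum h1).trans ?_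
  rw [sum_comm]
  have h2 : ∀ l ∈ Icc 1 ⌊L⌋, ∑ b ∈ bl Y, ∑ m ∈ Icc ⌈-M⌉ ⌊M⌋, (if b ∣ (⟨l, m⟩ : ZI) then g m else 0) ≤
      K * (2 * Real.log L + 4 * L * (1 + Real.log M)) := by
    intro l hl
    rw [mem_box] at hl
    rw [sum_comm]
    have h3 : ∀ m ∈ Icc ⌈-M⌉ ⌊M⌋, ∑ b ∈ bl Y, (if b ∣ (⟨l, m⟩ : ZI) then g m else 0) ≤ K * g m := by
      intro m hm
      rw [mem_box2] at hm
      rw [← sum_filter, sum_const, nsmul_eq_mul]
      have hl1 : (1 : ℝ) ≤ l := by exact_mod_cast hl.1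
      have hz : (⟨l, m⟩ : ZI) ≠ 0 := by
        intro h0
        have h3 := congrArg Zsqrtd.re h0
        simp only [Zsqrtd.re_zero] at h3
        omega
      have hn : nz (⟨l, m⟩ : ZI) ≤ 2 * M ^ 2 := by
        rw [nz_mk]
        have h4 : (m : ℝ) ^ 2 ≤ M ^ 2 := by
          rw [← sq_abs]
          exact pow_le_pow_left₀ (abs_nonneg _) hm 2
        have h5 : (l : ℝ) ^ 2 ≤ M ^ 2 := pow_le_pow_left₀ (by linarith) (hl.2.trans hLM) 2
        linarith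
      refine mul_le_mul_of_nonneg_right (le_trans ?_ (hd _ hz hn)) (hg0 m)
      unfold dv
      rw [Nat.cast_le]
      apply card_le_card
      intro b hb
      rw [mem_filter, mem_bl] at hb
      rw [mem_filter, mem_bl]
      refine ⟨⟨hb.1.1, ?_⟩, hb.2⟩
      obtain ⟨c, hc⟩ := hb.2
      have hc0 : c ≠ 0 := by
        rintro rfl
        rw [mul_zero] at hc
        exact hz hc
      rw [hc, nz_mul]
      nlinarith [one_le_nz hc0, one_le_nz hb.1.1]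
    refine (sum_le_sum h3).trans ?_
    rw [← mul_sum]
    refine mul_le_mul_of_nonneg_left ?_ hK
    simp only [hg]
    rw [sum_add_distrib, sum_ite_eq', ← mul_sum]
    have h5 := harm2 hM
    have h7 : 2 * L * ∑ m ∈ Icc ⌈-M⌉ ⌊M⌋, 1 / abs (m : ℝ) ≤ 2 * L * (2 * (1 + Real.log M)) :=
      mul_le_mul_of_nonneg_left h5 (by linarith)
    split_ifs
    · linarith
    · linarith
  refine (sum_le_sum h2).trans ?_
  rw [sum_const, nsmul_eq_mul, Int.card_Icc]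
  have h3 : 0 ≤ ⌊L⌋ := Int.floor_nonneg.2 (by linarith)
  have h4 : (((⌊L⌋ + 1 - 1).toNat : ℕ) : ℝ) ≤ L := by
    rw [show ⌊L⌋ + 1 - 1 = ⌊L⌋ by ring]
    have h5 : ((⌊L⌋.toNat : ℕ) : ℤ) = ⌊L⌋ := Int.toNat_of_nonneg h3
    have h6 : ((⌊L⌋.toNat : ℕ) : ℝ) = (⌊L⌋ : ℝ) := by exact_mod_cast h5
    rw [h6]
    exact Int.floor_le L
  have h5 : 0 ≤ 2 * Real.log L + 4 * L * (1 + Real.log M) := by
    have := Real.log_nonneg hM
    positivity
  calc _ ≤ L * (K * (2 * Real.log L + 4 * L * (1 + Real.log M))) :=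
        mul_le_mul_of_nonneg_right h4 (mul_nonneg hK h5)
    _ = _ := by ring

/-- the bound for `V0` -/
theorem V0_le (hm : S_MUB) {M L W : ℝ} {lam : ℤ → ℝ} (hW : 1 ≤ W) (hL : 1 ≤ L) (h : Lm L lam) :
    |V0 M W lam| ≤ L * (2 * Real.sqrt W + 1) * Real.log W := by
  classical
  obtain ⟨-, -, -, -, -, h6⟩ := hm
  have hlogW : 0 ≤ Real.log W := Real.log_nonneg hW
  set T : Finset ZI := ((Icc 1 ⌊L⌋) ×ˢ (Icc (-(⌊Real.sqrt W⌋₊ : ℤ)) ⌊Real.sqrt W⌋₊)).image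
    (fun p : ℤ × ℤ => (⟨p.1, p.2⟩ : ZI)) with hT
  have h1 : V0 M W lam = ∑ z ∈ (bl W).filter (fun z => z ∈ T), LamK z * Fz lam M z := by
    unfold V0
    rw [sum_filter]
    refine sum_congr rfl fun z hz => ?_
    split_ifs with h2
    · rfl
    · have h3 : Fz lam M z = 0 := by
        unfold Fz
        split_ifs with h4
        · apply h.zero
          intro h5
          apply h2
          rw [hT, mem_image]
          refine ⟨(z.re, z.im), ?_, rfl⟩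
          rw [mem_product]
          refine ⟨h5, ?_⟩
          have h7 := bl_le hz
          rw [nz_eq] at h7
          have h8 : |(z.im : ℝ)| ≤ Real.sqrt W := Real.abs_le_sqrt (by nlinarith [sq_nonneg (z.re : ℝ)])
          have h9 : z.im.natAbs ≤ ⌊Real.sqrt W⌋₊ := by
            apply Nat.le_floor
            rw [Nat.cast_natAbs, Int.cast_abs]
            exact h8
          rw [mem_Icc]
          omega
        · rfl
      rw [h3, mul_zero]
  rw [h1]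
  refine (abs_sum_le_sum_abs _ _).trans ?_
  have h2 : ∀ z ∈ (bl W).filter (fun z => z ∈ T), |LamK z * Fz lam M z| ≤ Real.log W := by
    intro z hz
    rw [mem_filter] at hz
    have hz0 := bl_ne hz.1
    rw [abs_mul, abs_of_nonneg (h6 z).1]
    have h3 : |Fz lam M z| ≤ 1 := by
      unfold Fz
      split_ifs
      · exact h.1 _
      · simp
    calc LamK z * |Fz lam M z| ≤ LamK z * 1 := mul_le_mul_of_nonneg_left h3 (h6 z).1
      _ = LamK z := mul_one _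
      _ ≤ Real.log (nz z) := (h6 z).2 hz0
      _ ≤ Real.log W := Real.log_le_log (by linarith [one_le_nz hz0]) (bl_le hz.1)
  refine (sum_le_sum h2).trans ?_
  rw [sum_const, nsmul_eq_mul]
  refine mul_le_mul_of_nonneg_right ?_ hlogW
  have h3 : ((bl W).filter (fun z => z ∈ T)).card ≤ (Icc 1 ⌊L⌋).card * (Icc (-(⌊Real.sqrt W⌋₊ : ℤ)) ⌊Real.sqrt W⌋₊).card := by
    rw [← card_product]
    refine (card_le_card (t := T) fun z hz => (mem_filter.1 hz).2).trans ?_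
    exact card_image_le
  have h4 : ((Icc 1 ⌊L⌋).card : ℝ) ≤ L := by
    rw [Int.card_Icc, show ⌊L⌋ + 1 - 1 = ⌊L⌋ by ring]
    have h5 : ((⌊L⌋.toNat : ℕ) : ℤ) = ⌊L⌋ := Int.toNat_of_nonneg (Int.floor_nonneg.2 (by linarith))
    have h6 : ((⌊L⌋.toNat : ℕ) : ℝ) = (⌊L⌋ : ℝ) := by exact_mod_cast h5
    rw [h6]
    exact Int.floor_le L
  have h5 : ((Icc (-(⌊Real.sqrt W⌋₊ : ℤ)) ⌊Real.sqrt W⌋₊).card : ℝ) ≤ 2 * Real.sqrt W + 1 := by
    rw [Int.card_Icc]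
    have h6 : (((⌊Real.sqrt W⌋₊ : ℤ) + 1 - -(⌊Real.sqrt W⌋₊ : ℤ)).toNat : ℤ) = 2 * (⌊Real.sqrt W⌋₊ : ℤ) + 1 := by
      rw [Int.toNat_of_nonneg (by omega)]
      ring
    have h7 : ((((⌊Real.sqrt W⌋₊ : ℤ) + 1 - -(⌊Real.sqrt W⌋₊ : ℤ)).toNat : ℕ) : ℝ) = 2 * (⌊Real.sqrt W⌋₊ : ℝ) + 1 := by
      exact_mod_cast h6
    rw [h7]
    linarith [Nat.floor_le (Real.sqrt_nonneg W)]
  calc (((bl W).filter (fun z => z ∈ T)).card : ℝ)
      ≤ ((Icc 1 ⌊L⌋).card : ℝ) * ((Icc (-(⌊Real.sqrt W⌋₊ : ℤ)) ⌊Real.sqrt W⌋₊).card : ℝ) := by exact_mod_cast h3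
    _ ≤ L * (2 * Real.sqrt W + 1) := mul_le_mul h4 h5 (by positivity) (by linarith)

end Pool.Agent.N782.GN
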