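import Pool.Agent.N782.GN.MainB

/-!
# Project GN (helper782): assembly, part C: the theorem on average over `l ≤ L`.
-/

set_option autoImplicit false

namespace Pool.Agent.N782.GN

open Finset Filter Topology
open Pool.Agent.H304R3.HK (UH bb LamK)

/-- powers beat logarithms -/
theorem pow_log (η : ℝ) (n : ℕ) (hη : 0 < η) : ∃ C : ℝ, 0 < C ∧ ∀ M : ℝ, 1 ≤ M →
    (Real.log M) ^ n ≤ C * M ^ η := by
  have h1 := isLittleO_log_rpow_atTop (show 0 < η / (n + 1) by positivity)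
  have h2 := h1.bound (show (0 : ℝ) < 1 by norm_num)
  rw [eventually_atTop] at h2
  obtain ⟨x0, hx0⟩ := h2
  set x1 : ℝ := max x0 1 with hx1
  have hl1 : 0 ≤ Real.log x1 := Real.log_nonneg (le_max_right _ _)
  refine ⟨(Real.log x1) ^ n + 1, by positivity, fun M hM => ?_⟩
  have hM1 : 1 ≤ M ^ η := Real.one_le_rpow hM hη.le
  have hlM : 0 ≤ Real.log M := Real.log_nonneg hM
  by_cases hc : x1 ≤ M
  · have h3 := hx0 M ((le_max_left _ _).trans hc)
    rw [Real.norm_of_nonneg hlM, Real.norm_of_nonneg (by positivity), one_mul] at h3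
    have h4 : (Real.log M) ^ n ≤ (M ^ (η / (n + 1))) ^ n := pow_le_pow_left₀ hlM h3 n
    have h5 : (M ^ (η / (n + 1))) ^ n ≤ M ^ η := by
      rw [← Real.rpow_natCast, ← Real.rpow_mul (by linarith)]
      apply Real.rpow_le_rpow_of_exponent_le hM
      rw [div_mul_eq_mul_div, div_le_iff₀ (by positivity)]
      nlinarith
    have h6 : 0 ≤ (Real.log x1) ^ n := by positivity
    nlinarith
  · push Not at hc
    have h3 : (Real.log M) ^ n ≤ (Real.log x1) ^ n :=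
      pow_le_pow_left₀ hlM (Real.log_le_log (by linarith) hc.le) n
    have h6 : 0 ≤ (Real.log x1) ^ n := by positivity
    nlinarith

/-- the parameters -/
noncomputable def Yp (ε M L : ℝ) : ℝ := (M / L) ^ 2 * M ^ (3 * (ε / 8))

noncomputable def Wp (ε M : ℝ) : ℝ := M ^ (1 + ε / 8)

structure Pr (ε M L : ℝ) : Prop where
  e0 : 0 < ε
  e1 : ε ≤ 1 / 6
  M3 : 3 ≤ M
  L1 : M ^ (2 / 3 + ε) ≤ L
  L2 : L ≤ M ^ (1 - ε)

theorem Pr.hM {ε M L : ℝ} (h : Pr ε M L) : 1 ≤ M := by linarith [h.M3]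

theorem Pr.hL {ε M L : ℝ} (h : Pr ε M L) : 1 ≤ L :=
  (Real.one_le_rpow h.hM (by linarith [h.e0])).trans h.L1

theorem Pr.hLM {ε M L : ℝ} (h : Pr ε M L) : L ≤ M := by
  refine h.L2.trans ?_
  calc M ^ (1 - ε) ≤ M ^ (1 : ℝ) := Real.rpow_le_rpow_of_exponent_le h.hM (by linarith [h.e0])
    _ = M := Real.rpow_one M

theorem Pr.hW {ε M L : ℝ} (h : Pr ε M L) : 1 ≤ Wp ε M := Real.one_le_rpow h.hM (by linarith [h.e0])

theorem Pr.hY0 {ε M L : ℝ} (h : Pr ε M L) : M ^ (3 * (ε / 8)) ≤ Yp ε M L := by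
  unfold Yp
  have h1 : 1 ≤ M / L := by
    rw [le_div_iff₀ (by linarith [h.hL]), one_mul]
    exact h.hLM
  have h2 : 1 ≤ (M / L) ^ 2 := one_le_pow₀ h1
  have h3 : 0 ≤ M ^ (3 * (ε / 8)) := Real.rpow_nonneg (by linarith [h.hM]) _
  nlinarith

theorem Pr.hY {ε M L : ℝ} (h : Pr ε M L) : 1 ≤ Yp ε M L :=
  (Real.one_le_rpow h.hM (by linarith [h.e0])).trans h.hY0

theorem Pr.hYW {ε M L : ℝ} (h : Pr ε M L) : Yp ε M L * Wp ε M ≤ L * M ^ (1 - ε) := by
  unfold Yp Wp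
  have hM := h.hM
  have hL := h.hL
  have hM0 : 0 < M := by linarith
  have h1 : M ^ (2 + 3 * ε) ≤ L ^ 3 := by
    have h2 : (M ^ (2 / 3 + ε)) ^ 3 ≤ L ^ 3 := pow_le_pow_left₀ (by positivity) h.L1 3
    rw [← Real.rpow_natCast, ← Real.rpow_mul hM0.le] at h2
    refine le_trans (le_of_eq ?_) h2
    congr 1
    push_cast
    ring
  have h3 : (M / L) ^ 2 * M ^ (3 * (ε / 8)) * M ^ (1 + ε / 8) = M ^ (3 + ε / 2) / L ^ 2 := by
    rw [div_pow, mul_assoc, ← Real.rpow_add hM0, ← Real.rpow_natCast M 2, div_mul_eq_mul_div, ← Real.rpow_add hM0]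
    congr 2
    push_cast
    ring
  rw [h3, div_le_iff₀ (by positivity)]
  have h4 : M ^ (3 + ε / 2) ≤ M ^ (2 + 3 * ε) * M ^ (1 - ε) := by
    rw [← Real.rpow_add hM0]
    apply Real.rpow_le_rpow_of_exponent_le hM
    linarith [h.e0]
  calc M ^ (3 + ε / 2) ≤ M ^ (2 + 3 * ε) * M ^ (1 - ε) := h4
    _ ≤ L ^ 3 * M ^ (1 - ε) := mul_le_mul_of_nonneg_right h1 (by positivity)
    _ = _ := by ring

theorem Pr.hYD {ε M L : ℝ} (h : Pr ε M L) : Yp ε M L ≤ L * M ^ (1 - ε) := by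
  refine le_trans ?_ h.hYW
  have := h.hY
  have := h.hW
  nlinarith

theorem Pr.hlog {ε M L : ℝ} (h : Pr ε M L) : 1 ≤ Real.log M := by
  rw [Real.le_log_iff_exp_le (by linarith [h.hM])]
  have := Real.exp_one_lt_d9
  linarith [h.M3]

theorem Pr.hlogYW {ε M L : ℝ} (h : Pr ε M L) : Real.log (Yp ε M L * Wp ε M) ≤ 2 * Real.log M := by
  have h1 : Yp ε M L * Wp ε M ≤ M ^ 2 := by
    refine h.hYW.trans ?_
    rw [sq]
    refine mul_le_mul h.hLM ?_ (Real.rpow_nonneg (by linarith [h.hM]) _) (by linarith [h.hM])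
    calc M ^ (1 - ε) ≤ M ^ (1 : ℝ) := Real.rpow_le_rpow_of_exponent_le h.hM (by linarith [h.e0])
      _ = M := Real.rpow_one M
  have h2 : 0 < Yp ε M L * Wp ε M := mul_pos (by linarith [h.hY]) (by linarith [h.hW])
  refine (Real.log_le_log h2 h1).trans ?_
  rw [Real.log_pow]
  push_cast
  exact le_rfl

theorem Pr.hlogY {ε M L : ℝ} (h : Pr ε M L) : Real.log (Yp ε M L) ≤ 2 * Real.log M := by
  refine le_trans (Real.log_le_log (by linarith [h.hY]) ?_) h.hlogYW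
  have := h.hY
  have := h.hW
  nlinarith

theorem Pr.hlogW {ε M L : ℝ} (h : Pr ε M L) : Real.log (Wp ε M) ≤ 2 * Real.log M := by
  refine le_trans (Real.log_le_log (by linarith [h.hW]) ?_) h.hlogYW
  have := h.hY
  have := h.hW
  nlinarith

/-- all the errors of Vaughan's identity -/
theorem err_all (hm : S_MUB) (hd : S_DVB) (hii : S_II) (hti : S_TI) (htil : S_TIL) (ε : ℝ) (A : ℕ) (hε : 0 < ε) :
    ∃ C : ℝ, 0 < C ∧ ∀ (M L : ℝ) (lam : ℤ → ℝ), Pr ε M L → Lm L lam →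
      |V0 M (Wp ε M) lam + 1 / 4 * V1 M L (Yp ε M L) lam - 1 / 16 * V2 M L (Yp ε M L) (Wp ε M) lam +
        1 / 16 * V3 M (Yp ε M L) (Wp ε M) lam| ≤ C * (L * M / (Real.log M) ^ A) := by
  obtain ⟨C3, hC3, h3⟩ := hii (ε / 8) A (by positivity)
  obtain ⟨C1, hC1, h1⟩ := hti ε hε
  obtain ⟨C2, hC2, h2⟩ := htil ε hε
  obtain ⟨K, hK, hdv⟩ := hd (ε / 4) (by positivity)
  obtain ⟨C4, hC4, h4⟩ := pow_log (ε / 20) (A + 1) (by positivity)
  refine ⟨C4 * (6 + (C2 + 12 * K + 2 * C1) + 8 * C1) + C3, by positivity, fun M L lam hP hlam => ?_⟩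
  have hM := hP.hM
  have hL := hP.hL
  have hM0 : 0 < M := by linarith
  have hlog := hP.hlog
  have hM3 := hP.M3
  set W := Wp ε M with hWd
  set Y := Yp ε M L with hYd
  set ℓ := Real.log M with hℓ
  -- the power saving
  set Q : ℝ := L * M ^ (1 - ε / 20) * ℓ with hQ
  have hQ0 : 0 < Q := by positivity
  have hQA : Q ≤ C4 * (L * M / ℓ ^ A) := by
    have h5 := h4 M hM
    have h6 : ℓ * ℓ ^ A ≤ C4 * M ^ (ε / 20) := by
      refine le_trans (le_of_eq ?_) h5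
      rw [pow_succ]
      ring
    rw [hQ, mul_div_assoc', le_div_iff₀ (by positivity)]
    calc L * M ^ (1 - ε / 20) * ℓ * ℓ ^ A = L * M ^ (1 - ε / 20) * (ℓ * ℓ ^ A) := by ring
      _ ≤ L * M ^ (1 - ε / 20) * (C4 * M ^ (ε / 20)) := mul_le_mul_of_nonneg_left h6 (by positivity)
      _ = C4 * (L * (M ^ (1 - ε / 20) * M ^ (ε / 20))) := by ring
      _ = C4 * (L * M) := by
        rw [← Real.rpow_add hM0, sub_add_cancel, Real.rpow_one]
  have hpw : ∀ a : ℝ, a ≤ 1 - ε / 20 → L * M ^ a * ℓ ≤ Q := by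
    intro a ha
    rw [hQ]
    have : M ^ a ≤ M ^ (1 - ε / 20) := Real.rpow_le_rpow_of_exponent_le hM ha
    gcongr
  have he0 := hP.e0
  have he1 := hP.e1
  -- V0
  have hV0 : |V0 M W lam| ≤ 6 * Q := by
    refine (V0_le hm hP.hW hL hlam).trans ?_
    have h5 : Real.sqrt W ≤ M ^ (1 - ε / 20) := by
      rw [hWd, Wp, Real.sqrt_eq_rpow, ← Real.rpow_mul hM0.le]
      apply Real.rpow_le_rpow_of_exponent_le hM
      linarith
    have h6 : 1 ≤ M ^ (1 - ε / 20) := Real.one_le_rpow hM (by linarith)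
    have h7 := hP.hlogW
    have h8 : 0 ≤ Real.log W := Real.log_nonneg hP.hW
    calc L * (2 * Real.sqrt W + 1) * Real.log W ≤ L * (2 * M ^ (1 - ε / 20) + M ^ (1 - ε / 20)) * (2 * ℓ) := by
          gcongr
      _ = 6 * Q := by
        rw [hQ]
        ring
  -- er1
  have hT1 : ∀ D : ℝ, 1 ≤ D → D ≤ L * M ^ (1 - ε) → ∑ a ∈ bl D, |er1 M L lam a| ≤ C1 * L * M ^ (1 - ε / 10) :=
    fun D hD1 hD2 => h1 M L D lam (by linarith) hL hP.L2 hD1 hD2 hlam
  have hT2 : ∀ D : ℝ, 1 ≤ D → D ≤ L * M ^ (1 - ε) → ∑ a ∈ bl D, |er2 M L lam a| ≤ C2 * L * M ^ (1 - ε / 20) :=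
    fun D hD1 hD2 => h2 M L D lam (by linarith) hL hP.L2 hD1 hD2 hlam
  have hV2 : |V2 M L Y W lam| ≤ 8 * C1 * Q := by
    refine (V2_le hm hP.hY hP.hW).trans ?_
    have h5 := hT1 (Y * W) (by nlinarith [hP.hY, hP.hW]) hP.hYW
    have h6 : 0 ≤ ∑ a ∈ bl (Y * W), |er1 M L lam a| := sum_nonneg fun _ _ => abs_nonneg _
    calc 4 * Real.log (Y * W) * ∑ a ∈ bl (Y * W), |er1 M L lam a|
        ≤ 4 * (2 * ℓ) * (C1 * L * M ^ (1 - ε / 10)) := by
          refine mul_le_mul ?_ h5 h6 (by positivity)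
          linarith [hP.hlogYW]
      _ = 8 * C1 * (L * M ^ (1 - ε / 10) * ℓ) := by ring
      _ ≤ 8 * C1 * Q := mul_le_mul_of_nonneg_left (hpw _ (by linarith)) (by positivity)
  have hV1 : |V1 M L Y lam| ≤ (C2 + 12 * K + 2 * C1) * Q := by
    refine (V1_le hP.hY).trans ?_
    have h5 := hT1 Y hP.hY hP.hYD
    have h6 := hT2 Y hP.hY hP.hYD
    have h7 : ∑ b ∈ bl Y, |er3 M L lam b| ≤ (K * (2 * M ^ 2) ^ (ε / 4)) * L * (2 * Real.log L + 4 * L * (1 + Real.log M)) := by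
      refine er3_le hM hL hlam hP.hLM (by positivity) fun z hz hz2 => (hdv z hz).trans ?_
      exact mul_le_mul_of_nonneg_left (Real.rpow_le_rpow (nz_nonneg z) hz2 (by positivity)) hK.le
    have h8 : Real.log L ≤ ℓ := Real.log_le_log (by linarith) hP.hLM
    have h9 : (2 * M ^ 2) ^ (ε / 4) ≤ M ^ (3 * ε / 4) := by
      have h10 : 2 * M ^ 2 ≤ M ^ (3 : ℝ) := by
        rw [show (3 : ℝ) = ((3 : ℕ) : ℝ) by norm_num, Real.rpow_natCast]
        nlinarith [sq_nonneg M]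
      calc (2 * M ^ 2) ^ (ε / 4) ≤ (M ^ (3 : ℝ)) ^ (ε / 4) := Real.rpow_le_rpow (by positivity) h10 (by positivity)
        _ = M ^ (3 * ε / 4) := by
          rw [← Real.rpow_mul hM0.le]
          congr 1
          ring
    have h10 : (K * (2 * M ^ 2) ^ (ε / 4)) * L * (2 * Real.log L + 4 * L * (1 + Real.log M)) ≤ 12 * K * Q := by
      have h11 : 2 * Real.log L + 4 * L * (1 + Real.log M) ≤ 12 * (M ^ (1 - ε) * ℓ) := by
        have h12 := hP.L2
        have h13 : 1 ≤ M ^ (1 - ε) := Real.one_le_rpow hM (by linarith)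
        have h14 : ℓ ≤ M ^ (1 - ε) * ℓ := by nlinarith
        have h15 : L * (1 + ℓ) ≤ M ^ (1 - ε) * (2 * ℓ) := mul_le_mul h12 (by linarith) (by linarith) (by linarith)
        nlinarith
      calc (K * (2 * M ^ 2) ^ (ε / 4)) * L * (2 * Real.log L + 4 * L * (1 + Real.log M))
          ≤ (K * M ^ (3 * ε / 4)) * L * (12 * (M ^ (1 - ε) * ℓ)) := by
            refine mul_le_mul ?_ h11 ?_ (by positivity)
            · gcongr
            · have := Real.log_nonneg hL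
              positivity
        _ = 12 * K * (L * (M ^ (3 * ε / 4) * M ^ (1 - ε)) * ℓ) := by ring
        _ = 12 * K * (L * M ^ (1 - ε / 4) * ℓ) := by
            rw [← Real.rpow_add hM0]
            congr 4
            ring
        _ ≤ 12 * K * Q := mul_le_mul_of_nonneg_left (hpw _ (by linarith)) (by positivity)
    have h11 : Real.log Y * ∑ b ∈ bl Y, |er1 M L lam b| ≤ 2 * C1 * Q := by
      have h12 : 0 ≤ ∑ a ∈ bl Y, |er1 M L lam a| := sum_nonneg fun _ _ => abs_nonneg _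
      calc Real.log Y * ∑ b ∈ bl Y, |er1 M L lam b| ≤ (2 * ℓ) * (C1 * L * M ^ (1 - ε / 10)) :=
            mul_le_mul hP.hlogY h5 h12 (by positivity)
        _ = 2 * C1 * (L * M ^ (1 - ε / 10) * ℓ) := by ring
        _ ≤ 2 * C1 * Q := mul_le_mul_of_nonneg_left (hpw _ (by linarith)) (by positivity)
    have h12 : C2 * L * M ^ (1 - ε / 20) ≤ C2 * Q := by
      rw [hQ]
      have : 0 ≤ C2 * (L * M ^ (1 - ε / 20)) := by positivity
      nlinarith
    linarith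
  have hV3 : |V3 M Y W lam| ≤ C3 * (L * M / ℓ ^ A) := by
    have h5 := h3 M L Y W lam hM3 ?_ ?_ ?_ ?_ hlam
    · unfold V3
      refine h5.trans (le_of_eq ?_)
      rw [mul_assoc, mul_div_assoc]
    · refine le_trans (Real.rpow_le_rpow_of_exponent_le hM ?_) hP.L1
      linarith
    · refine hP.L2.trans (Real.rpow_le_rpow_of_exponent_le hM ?_)
      linarith
    · exact le_rfl
    · exact le_rfl
  have hQ1 : (6 + (C2 + 12 * K + 2 * C1) + 8 * C1) * Q ≤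
      (6 + (C2 + 12 * K + 2 * C1) + 8 * C1) * (C4 * (L * M / ℓ ^ A)) :=
    mul_le_mul_of_nonneg_left hQA (by positivity)
  have hX : 0 ≤ C3 * (L * M / ℓ ^ A) := by positivity
  have e1 := abs_add_le (V0 M W lam + 1 / 4 * V1 M L Y lam - 1 / 16 * V2 M L Y W lam) (1 / 16 * V3 M Y W lam)
  have e2 := abs_sub (V0 M W lam + 1 / 4 * V1 M L Y lam) (1 / 16 * V2 M L Y W lam)
  have e3 := abs_add_le (V0 M W lam) (1 / 4 * V1 M L Y lam)
  have e4 : |1 / 4 * V1 M L Y lam| = 1 / 4 * |V1 M L Y lam| := by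
    rw [abs_mul, abs_of_pos (by norm_num : (0 : ℝ) < 1 / 4)]
  have e5 : |1 / 16 * V2 M L Y W lam| = 1 / 16 * |V2 M L Y W lam| := by
    rw [abs_mul, abs_of_pos (by norm_num : (0 : ℝ) < 1 / 16)]
  have e6 : |1 / 16 * V3 M Y W lam| = 1 / 16 * |V3 M Y W lam| := by
    rw [abs_mul, abs_of_pos (by norm_num : (0 : ℝ) < 1 / 16)]
  rw [e4] at e3
  rw [e5] at e2
  rw [e6] at e1
  have f1 : 0 ≤ |V1 M L Y lam| := abs_nonneg _
  have f2 : 0 ≤ |V2 M L Y W lam| := abs_nonneg _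
  have f3 : 0 ≤ |V3 M Y W lam| := abs_nonneg _
  calc _ ≤ |V0 M W lam| + |V1 M L Y lam| + |V2 M L Y W lam| + |V3 M Y W lam| := by linarith
    _ ≤ 6 * Q + (C2 + 12 * K + 2 * C1) * Q + 8 * C1 * Q + C3 * (L * M / ℓ ^ A) := by linarith
    _ = (6 + (C2 + 12 * K + 2 * C1) + 8 * C1) * Q + C3 * (L * M / ℓ ^ A) := by ring
    _ ≤ (6 + (C2 + 12 * K + 2 * C1) + 8 * C1) * (C4 * (L * M / ℓ ^ A)) + C3 * (L * M / ℓ ^ A) := by linarith
    _ = _ := by ring

end Pool.Agent.N782.GN
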