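import Pool.Agent.N782.GN.MainC

/-!
# Project GN (helper782): assembly, part D: the main term, and the end of the proof of `S_MAIN`.
-/

set_option autoImplicit false

namespace Pool.Agent.N782.GN

open Finset Filter Topology
open Pool.Agent.H304R3.HK (UH bb LamK)

/-- the main term -/
theorem em_eq (l : ℤ) (M Y W : ℝ) : Em l M Y W - 2 * M * SS l =
    M * (Real.log M - 1) * (∑ b ∈ bl Y, mu b * (kap l b / nz b)) -
    2 * M * (1 / 4 * ∑ b ∈ bl Y, mu b * (kap l b / nz b) * Real.log (nz b) + SS l) -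
    M / 8 * ∑ b ∈ bl Y, ∑ c ∈ bl W, mu b * LamK c * (kap l (b * c) / nz (b * c)) := by
  unfold Em
  have h1 : ∑ b ∈ bl Y, mu b * (kap l b / nz b) * (4 * M * (Real.log M - 1) - 2 * M * Real.log (nz b)) =
      4 * M * (Real.log M - 1) * (∑ b ∈ bl Y, mu b * (kap l b / nz b)) -
      2 * M * ∑ b ∈ bl Y, mu b * (kap l b / nz b) * Real.log (nz b) := by
    rw [mul_sum, mul_sum, ← sum_sub_distrib]
    refine sum_congr rfl fun b _ => ?_
    ring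
  rw [h1]
  ring

theorem em_bd (h1 : S_MT1) (h2 : S_MT2) (ε : ℝ) (A : ℕ) (hε : 0 < ε) :
    ∃ C : ℝ, 0 < C ∧ ∀ (M L : ℝ), Pr ε M L → 3 ≤ M ^ (3 * (ε / 8)) →
      ∑ l ∈ Icc 1 ⌊L⌋, |Em l M (Yp ε M L) (Wp ε M) - 2 * M * SS l| ≤ C * (L * M / (Real.log M) ^ A) := by
  obtain ⟨C1, hC1, h1⟩ := h1 (A + 1)
  obtain ⟨C2, hC2, h2⟩ := h2 (A + 1)
  set c : ℝ := 3 * (ε / 8) with hc
  have hc0 : 0 < c := by positivity
  refine ⟨(C1 + 2 * C1 + C2) / c ^ (A + 1), by positivity, fun M L hP h3 => ?_⟩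
  have hM := hP.hM
  have hL := hP.hL
  have hM0 : 0 < M := by linarith
  have hlog := hP.hlog
  set W := Wp ε M with hWd
  set Y := Yp ε M L with hYd
  set ℓ := Real.log M with hℓ
  have hY3 : 3 ≤ Y := h3.trans hP.hY0
  have hW3 : 3 ≤ W := by
    refine h3.trans ?_
    rw [hWd, Wp]
    apply Real.rpow_le_rpow_of_exponent_le hM
    linarith [hP.e1, hP.e0]
  have hlY : c * ℓ ≤ Real.log Y := by
    have h4 := Real.log_le_log (Real.rpow_pos_of_pos hM0 _) hP.hY0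
    rwa [Real.log_rpow hM0] at h4
  have hcl : 0 < c * ℓ := by positivity
  have h4 : ∀ B : ℝ, 0 ≤ B → B / (Real.log Y) ^ (A + 1) ≤ B / (c ^ (A + 1) * ℓ ^ (A + 1)) := by
    intro B hB
    rw [← mul_pow]
    exact div_le_div_of_nonneg_left hB (by positivity) (pow_le_pow_left₀ hcl.le hlY _)
  obtain ⟨g1, g2⟩ := h1 L Y hL hY3
  have g3 := h2 L Y W hL hY3 hW3
  have e1 : ∑ l ∈ Icc 1 ⌊L⌋, |Em l M Y W - 2 * M * SS l| ≤
      M * ℓ * ∑ l ∈ Icc 1 ⌊L⌋, |∑ b ∈ bl Y, mu b * (kap l b / nz b)| +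
      2 * M * ∑ l ∈ Icc 1 ⌊L⌋, |1 / 4 * ∑ b ∈ bl Y, mu b * (kap l b / nz b) * Real.log (nz b) + SS l| +
      M / 8 * ∑ l ∈ Icc 1 ⌊L⌋, |∑ b ∈ bl Y, ∑ c ∈ bl W, mu b * LamK c * (kap l (b * c) / nz (b * c))| := by
    rw [mul_sum, mul_sum, mul_sum, ← sum_add_distrib, ← sum_add_distrib]
    refine sum_le_sum fun l _ => ?_
    rw [em_eq]
    refine (abs_sub _ _).trans (add_le_add ((abs_sub _ _).trans (add_le_add ?_ ?_)) ?_)
    · rw [abs_mul, abs_of_nonneg (mul_nonneg hM0.le (by linarith))]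
      refine mul_le_mul_of_nonneg_right ?_ (abs_nonneg _)
      nlinarith
    · rw [abs_mul, abs_of_nonneg (by positivity)]
    · rw [abs_mul, abs_of_nonneg (by positivity)]
  refine e1.trans ?_
  have hLM0 : 0 < L * M := by nlinarith
  have k1 : M * ℓ * ∑ l ∈ Icc 1 ⌊L⌋, |∑ b ∈ bl Y, mu b * (kap l b / nz b)| ≤
      C1 / c ^ (A + 1) * (L * M / ℓ ^ A) := by
    calc _ ≤ M * ℓ * (C1 * L / (c ^ (A + 1) * ℓ ^ (A + 1))) :=
          mul_le_mul_of_nonneg_left (g1.trans (h4 _ (by positivity))) (by positivity)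
      _ = C1 / c ^ (A + 1) * (L * M / ℓ ^ A) := by
          rw [pow_succ ℓ A]
          field_simp
  have k2 : 2 * M * ∑ l ∈ Icc 1 ⌊L⌋, |1 / 4 * ∑ b ∈ bl Y, mu b * (kap l b / nz b) * Real.log (nz b) + SS l| ≤
      2 * C1 / c ^ (A + 1) * (L * M / ℓ ^ A) := by
    calc _ ≤ 2 * M * (C1 * L / (c ^ (A + 1) * ℓ ^ (A + 1))) :=
          mul_le_mul_of_nonneg_left (g2.trans (h4 _ (by positivity))) (by positivity)
      _ ≤ 2 * M * (C1 * L / (c ^ (A + 1) * ℓ ^ A)) := by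
          refine mul_le_mul_of_nonneg_left ?_ (by positivity)
          refine div_le_div_of_nonneg_left (by positivity) (by positivity) ?_
          refine mul_le_mul_of_nonneg_left ?_ (by positivity)
          exact pow_le_pow_right₀ hlog (by omega)
      _ = 2 * C1 / c ^ (A + 1) * (L * M / ℓ ^ A) := by
          field_simp
  have k3 : M / 8 * ∑ l ∈ Icc 1 ⌊L⌋, |∑ b ∈ bl Y, ∑ c ∈ bl W, mu b * LamK c * (kap l (b * c) / nz (b * c))| ≤
      C2 / c ^ (A + 1) * (L * M / ℓ ^ A) := by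
    have hlW := hP.hlogW
    have hlW0 : 0 ≤ Real.log W := Real.log_nonneg hP.hW
    calc _ ≤ M / 8 * (C2 * L * Real.log W / (c ^ (A + 1) * ℓ ^ (A + 1))) :=
          mul_le_mul_of_nonneg_left (g3.trans (h4 _ (by positivity))) (by positivity)
      _ ≤ M / 8 * (C2 * L * (8 * ℓ) / (c ^ (A + 1) * ℓ ^ (A + 1))) := by
          refine mul_le_mul_of_nonneg_left ?_ (by positivity)
          refine div_le_div_of_nonneg_right ?_ (by positivity)
          refine mul_le_mul_of_nonneg_left ?_ (by positivity)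
          linarith
      _ = C2 / c ^ (A + 1) * (L * M / ℓ ^ A) := by
          rw [pow_succ ℓ A]
          field_simp
  calc _ ≤ C1 / c ^ (A + 1) * (L * M / ℓ ^ A) + 2 * C1 / c ^ (A + 1) * (L * M / ℓ ^ A) +
        C2 / c ^ (A + 1) * (L * M / ℓ ^ A) := by linarith
    _ = _ := by ring

/-- from `|m| ≤ M` to `1 ≤ m ≤ M` -/
theorem two_sided {M : ℝ} (hM : 1 ≤ M) (f : ℤ → ℝ) (hf : ∀ m, f (-m) = f m) :
    ∑ m ∈ Icc ⌈-M⌉ ⌊M⌋, f m = 2 * ∑ m ∈ Icc 1 ⌊M⌋, f m + f 0 := by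
  have h1 : ⌈-M⌉ = -⌊M⌋ := Int.ceil_neg
  have h2 : 0 ≤ ⌊M⌋ := Int.floor_nonneg.2 (by linarith)
  rw [h1]
  have h3 : Icc (-⌊M⌋) ⌊M⌋ = (Icc (-⌊M⌋) (-1) ∪ Icc 1 ⌊M⌋) ∪ {0} := by
    ext m
    simp only [mem_Icc, mem_union, mem_singleton]
    omega
  have h4 : Disjoint (Icc (-⌊M⌋) (-1) ∪ Icc 1 ⌊M⌋) ({0} : Finset ℤ) := by
    rw [disjoint_singleton_right, mem_union, mem_Icc, mem_Icc]
    omega
  have h5 : Disjoint (Icc (-⌊M⌋) (-1)) (Icc 1 ⌊M⌋) := by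
    rw [disjoint_left]
    intro m hm
    rw [mem_Icc] at hm ⊢
    omega
  rw [h3, sum_union h4, sum_union h5, sum_singleton]
  have h6 : ∑ m ∈ Icc (-⌊M⌋) (-1), f m = ∑ m ∈ Icc 1 ⌊M⌋, f m := by
    apply sum_nbij' (fun m => -m) (fun m => -m)
    · intro m hm
      rw [mem_Icc] at hm ⊢
      omega
    · intro m hm
      rw [mem_Icc] at hm ⊢
      omega
    · intro m _
      simp
    · intro m _
      simp
    · intro m _
      exact (hf m).symm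
  rw [h6]
  ring

/-- the sign -/
noncomputable def sgn (x : ℝ) : ℝ := if 0 ≤ x then 1 else -1

theorem sgn_mul (x : ℝ) : sgn x * x = |x| := by
  unfold sgn
  split_ifs with h
  · rw [one_mul, abs_of_nonneg h]
  · rw [abs_of_neg (not_le.1 h)]
    ring

theorem abs_sgn (x : ℝ) : |sgn x| ≤ 1 := by
  unfold sgn
  split_ifs <;> simp

/-- the sum over `l` for `Λ` of `ℤ[i]` -/
theorem sumK (hm : S_MUB) (hd : S_DVB) (hv : S_VAU) (hii : S_II) (hti : S_TI) (htil : S_TIL) (ε : ℝ) (A : ℕ)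
    (hε : 0 < ε) : ∃ C : ℝ, 0 < C ∧ ∀ (M L : ℝ), Pr ε M L →
      ∑ l ∈ Icc 1 ⌊L⌋, |∑ m ∈ Icc ⌈-M⌉ ⌊M⌋, LamK (⟨l, m⟩ : ZI) - Em l M (Yp ε M L) (Wp ε M)| ≤
        C * (L * M / (Real.log M) ^ A) := by
  obtain ⟨C, hC, h⟩ := err_all hm hd hii hti htil ε A hε
  refine ⟨C, hC, fun M L hP => ?_⟩
  set X : ℤ → ℝ := fun l => ∑ m ∈ Icc ⌈-M⌉ ⌊M⌋, LamK (⟨l, m⟩ : ZI) - Em l M (Yp ε M L) (Wp ε M) with hX
  set lam : ℤ → ℝ := fun l => if l ∈ Icc 1 ⌊L⌋ then sgn (X l) else 0 with hlam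
  have hLm : Lm L lam := by
    constructor
    · intro l
      simp only [hlam]
      split_ifs
      · exact abs_sgn _
      · simp
    · intro l hl
      simp only [hlam]
      rw [if_neg]
      intro h1
      rw [mem_box] at h1
      rcases hl with h2 | h2
      · omega
      · linarith [h1.2]
  have h1 := vaughan_l hv hP.hM hLm hP.hLM hP.hY hP.hW
  have h2 := h M L lam hP hLm
  rw [← h1] at h2
  refine le_trans (le_of_eq ?_) ((le_abs_self _).trans h2)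
  refine sum_congr rfl fun l hl => ?_
  simp only [hlam]
  rw [if_pos hl, sgn_mul]

theorem vM_sq {l : ℤ} {L : ℝ} (hl : l ∈ Icc 1 ⌊L⌋) :
    |ArithmeticFunction.vonMangoldt (l ^ 2 + 0 ^ 2).natAbs| ≤ 2 * Real.log L := by
  rw [mem_box] at hl
  have hl1 : (1 : ℝ) ≤ l := by exact_mod_cast hl.1
  rw [abs_of_nonneg ArithmeticFunction.vonMangoldt_nonneg]
  refine ArithmeticFunction.vonMangoldt_le_log.trans ?_
  have h1 : (((l ^ 2 + 0 ^ 2 : ℤ).natAbs : ℕ) : ℝ) = (l : ℝ) ^ 2 := by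
    rw [Nat.cast_natAbs]
    push_cast
    rw [abs_of_nonneg (by positivity)]
    ring
  rw [h1, Real.log_pow]
  push_cast
  have := Real.log_le_log (by linarith) hl.2
  linarith

/-- the theorem for large `M` -/
theorem main_large (hm : S_MUB) (hd : S_DVB) (hv : S_VAU) (hii : S_II) (hti : S_TI) (htil : S_TIL) (hm1 : S_MT1)
    (hm2 : S_MT2) (hlk : S_LK) (ε : ℝ) (A : ℕ) (hε : 0 < ε) :
    ∃ C : ℝ, 0 < C ∧ ∀ (M L : ℝ), Pr ε M L → 3 ≤ M ^ (3 * (ε / 8)) →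
      ∑ l ∈ Icc 1 ⌊L⌋, |∑ m ∈ Icc 1 ⌊M⌋, ArithmeticFunction.vonMangoldt (l ^ 2 + m ^ 2).natAbs - M * SS l| ≤
        C * (L * M / (Real.log M) ^ A) := by
  obtain ⟨C1, hC1, h1⟩ := sumK hm hd hv hii hti htil ε A hε
  obtain ⟨C2, hC2, h2⟩ := em_bd hm1 hm2 ε A hε
  obtain ⟨C3, hC3, h3⟩ := hlk
  obtain ⟨C4, hC4, h4⟩ := pow_log (1 / 2) (A + 3) (by norm_num)
  obtain ⟨C5, hC5, h5⟩ := pow_log 1 (A + 1) (by norm_num)
  refine ⟨(C1 + C2 + C3 * C4 + 2 * C5) / 2, by positivity, fun M L hP hM8 => ?_⟩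
  have hM := hP.hM
  have hL := hP.hL
  have hM0 : 0 < M := by linarith
  have hlog := hP.hlog
  set ℓ := Real.log M with hℓ
  have g1 := h1 M L hP
  have g2 := h2 M L hP hM8
  have g3 := h3 M L (by linarith [hP.M3]) hL hP.hLM
  have k3 : C3 * M * ℓ ^ 3 ≤ C3 * C4 * (L * M / ℓ ^ A) := by
    have h6 := h4 M hM
    have h7 : M ^ (1 / 2 : ℝ) ≤ L := (Real.rpow_le_rpow_of_exponent_le hM (by linarith [hP.e0])).trans hP.L1
    rw [mul_div_assoc', le_div_iff₀ (by positivity)]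
    calc C3 * M * ℓ ^ 3 * ℓ ^ A = C3 * M * ℓ ^ (A + 3) := by ring
      _ ≤ C3 * M * (C4 * L) := by
        refine mul_le_mul_of_nonneg_left (h6.trans ?_) (by positivity)
        exact mul_le_mul_of_nonneg_left h7 hC4.le
      _ = _ := by ring
  have k4 : L * (2 * ℓ) ≤ 2 * C5 * (L * M / ℓ ^ A) := by
    have h6 := h5 M hM
    rw [Real.rpow_one] at h6
    rw [mul_div_assoc', le_div_iff₀ (by positivity)]
    calc L * (2 * ℓ) * ℓ ^ A = 2 * L * ℓ ^ (A + 1) := by ring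
      _ ≤ 2 * L * (C5 * M) := mul_le_mul_of_nonneg_left h6 (by positivity)
      _ = _ := by ring
  have k5 : ∀ l ∈ Icc 1 ⌊L⌋, 2 * |∑ m ∈ Icc 1 ⌊M⌋, ArithmeticFunction.vonMangoldt (l ^ 2 + m ^ 2).natAbs - M * SS l| ≤
      |∑ m ∈ Icc ⌈-M⌉ ⌊M⌋, LamK (⟨l, m⟩ : ZI) - Em l M (Yp ε M L) (Wp ε M)| +
      |Em l M (Yp ε M L) (Wp ε M) - 2 * M * SS l| +
      ∑ m ∈ Icc ⌈-M⌉ ⌊M⌋, |LamK (⟨l, m⟩ : ZI) - ArithmeticFunction.vonMangoldt (l ^ 2 + m ^ 2).natAbs| +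
      2 * ℓ := by
    intro l hl
    have e1 := two_sided hM (fun m => ArithmeticFunction.vonMangoldt (l ^ 2 + m ^ 2).natAbs) (fun m => by
      simp only [neg_sq])
    have e2 := vM_sq hl
    have e3 : Real.log L ≤ ℓ := Real.log_le_log (by linarith) hP.hLM
    have e4 : |∑ m ∈ Icc ⌈-M⌉ ⌊M⌋, LamK (⟨l, m⟩ : ZI) -
        ∑ m ∈ Icc ⌈-M⌉ ⌊M⌋, ArithmeticFunction.vonMangoldt (l ^ 2 + m ^ 2).natAbs| ≤
        ∑ m ∈ Icc ⌈-M⌉ ⌊M⌋, |LamK (⟨l, m⟩ : ZI) - ArithmeticFunction.vonMangoldt (l ^ 2 + m ^ 2).natAbs| := by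
      rw [← sum_sub_distrib]
      exact abs_sum_le_sum_abs _ _
    rw [show 2 * |∑ m ∈ Icc 1 ⌊M⌋, ArithmeticFunction.vonMangoldt (l ^ 2 + m ^ 2).natAbs - M * SS l| =
      |2 * (∑ m ∈ Icc 1 ⌊M⌋, ArithmeticFunction.vonMangoldt (l ^ 2 + m ^ 2).natAbs - M * SS l)| by
        rw [abs_mul, abs_of_pos (by norm_num : (0 : ℝ) < 2)]]
    have e5 : 2 * (∑ m ∈ Icc 1 ⌊M⌋, ArithmeticFunction.vonMangoldt (l ^ 2 + m ^ 2).natAbs - M * SS l) =
        (∑ m ∈ Icc ⌈-M⌉ ⌊M⌋, LamK (⟨l, m⟩ : ZI) - Em l M (Yp ε M L) (Wp ε M)) +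
        (Em l M (Yp ε M L) (Wp ε M) - 2 * M * SS l) -
        (∑ m ∈ Icc ⌈-M⌉ ⌊M⌋, LamK (⟨l, m⟩ : ZI) -
          ∑ m ∈ Icc ⌈-M⌉ ⌊M⌋, ArithmeticFunction.vonMangoldt (l ^ 2 + m ^ 2).natAbs) -
        ArithmeticFunction.vonMangoldt (l ^ 2 + 0 ^ 2).natAbs := by
      rw [e1]
      ring
    rw [e5]
    refine (abs_sub _ _).trans (add_le_add ((abs_sub _ _).trans (add_le_add (abs_add_le _ _) e4)) ?_)
    linarith
  have k6 := sum_le_sum k5
  rw [← mul_sum, sum_add_distrib, sum_add_distrib, sum_add_distrib, sum_const, nsmul_eq_mul] at k6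
  have k7 : ((Icc 1 ⌊L⌋).card : ℝ) ≤ L := by
    rw [Int.card_Icc, show ⌊L⌋ + 1 - 1 = ⌊L⌋ by ring]
    have h5 : ((⌊L⌋.toNat : ℕ) : ℤ) = ⌊L⌋ := Int.toNat_of_nonneg (Int.floor_nonneg.2 (by linarith))
    have h6 : ((⌊L⌋.toNat : ℕ) : ℝ) = (⌊L⌋ : ℝ) := by exact_mod_cast h5
    rw [h6]
    exact Int.floor_le L
  have k8 : ((Icc 1 ⌊L⌋).card : ℝ) * (2 * ℓ) ≤ L * (2 * ℓ) := mul_le_mul_of_nonneg_right k7 (by linarith)
  have k9 : 2 * ∑ l ∈ Icc 1 ⌊L⌋, |∑ m ∈ Icc 1 ⌊M⌋, ArithmeticFunction.vonMangoldt (l ^ 2 + m ^ 2).natAbs - M * SS l| ≤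
      (C1 + C2 + C3 * C4 + 2 * C5) * (L * M / ℓ ^ A) := by
    calc _ ≤ C1 * (L * M / ℓ ^ A) + C2 * (L * M / ℓ ^ A) + C3 * C4 * (L * M / ℓ ^ A) + 2 * C5 * (L * M / ℓ ^ A) := by
          linarith
      _ = _ := by ring
  linarith

/-- **the theorem** -/
theorem main_all (hm : S_MUB) (hd : S_DVB) (hv : S_VAU) (hii : S_II) (hti : S_TI) (htil : S_TIL) (hm1 : S_MT1)
    (hm2 : S_MT2) (hlk : S_LK) : S_MAIN := by
  intro ε A hε
  obtain ⟨C1, hC1, h1⟩ := main_large hm hd hv hii hti htil hm1 hm2 hlk ε A hε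
  set M0 : ℝ := max 3 ((3 : ℝ) ^ (1 / (3 * (ε / 8)))) with hM0
  have hM03 : 3 ≤ M0 := le_max_left _ _
  set K : ℝ := ∑ l ∈ Icc 1 ⌊M0⌋, (∑ m ∈ Icc 1 ⌊M0⌋, ArithmeticFunction.vonMangoldt (l ^ 2 + m ^ 2).natAbs +
    M0 * |SS l|) with hK
  have hK0 : 0 ≤ K := sum_nonneg fun l _ => add_nonneg
    (sum_nonneg fun m _ => ArithmeticFunction.vonMangoldt_nonneg) (by positivity)
  have hlM0 : 0 ≤ Real.log M0 := Real.log_nonneg (by linarith)
  refine ⟨C1 + K * (Real.log M0) ^ A, by positivity, fun M L hM3 hL1 hL2 => ?_⟩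
  have hM1 : 1 < M := by linarith
  have hε6 : ε ≤ 1 / 6 := by
    have h2 : M ^ (2 / 3 + ε) ≤ M ^ (1 - ε) := hL1.trans hL2
    have h3 := (Real.rpow_le_rpow_left_iff hM1).1 h2
    linarith
  have hP : Pr ε M L := ⟨hε, hε6, hM3, hL1, hL2⟩
  have hL := hP.hL
  have hlog := hP.hlog
  have hX : 0 ≤ L * M / (Real.log M) ^ A := by positivity
  rw [show (C1 + K * (Real.log M0) ^ A) * L * M / (Real.log M) ^ A =
    (C1 + K * (Real.log M0) ^ A) * (L * M / (Real.log M) ^ A) by ring]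
  by_cases hc : 3 ≤ M ^ (3 * (ε / 8))
  · refine (h1 M L hP hc).trans ?_
    refine mul_le_mul_of_nonneg_right ?_ hX
    have : 0 ≤ K * (Real.log M0) ^ A := by positivity
    linarith
  · push Not at hc
    have hMM0 : M ≤ M0 := by
      refine le_trans ?_ (le_max_right _ _)
      have h2 : (M ^ (3 * (ε / 8))) ^ (1 / (3 * (ε / 8))) ≤ (3 : ℝ) ^ (1 / (3 * (ε / 8))) :=
        Real.rpow_le_rpow (by positivity) hc.le (by positivity)
      rw [← Real.rpow_mul (by linarith), mul_one_div_cancel (by positivity), Real.rpow_one] at h2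
      exact h2
    have h2 : ∑ l ∈ Icc 1 ⌊L⌋, |∑ m ∈ Icc 1 ⌊M⌋, ArithmeticFunction.vonMangoldt (l ^ 2 + m ^ 2).natAbs - M * SS l| ≤ K := by
      rw [hK]
      have hLM0 : L ≤ M0 := hP.hLM.trans hMM0
      calc _ ≤ ∑ l ∈ Icc 1 ⌊L⌋, (∑ m ∈ Icc 1 ⌊M0⌋, ArithmeticFunction.vonMangoldt (l ^ 2 + m ^ 2).natAbs +
            M0 * |SS l|) := by
            refine sum_le_sum fun l _ => (abs_sub _ _).trans (add_le_add ?_ ?_)
            · rw [abs_of_nonneg (sum_nonneg fun m _ => ArithmeticFunction.vonMangoldt_nonneg)]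
              refine sum_le_sum_of_subset_of_nonneg ?_ fun m _ _ => ArithmeticFunction.vonMangoldt_nonneg
              exact Icc_subset_Icc le_rfl (Int.floor_le_floor hMM0)
            · rw [abs_mul, abs_of_nonneg (by linarith)]
              exact mul_le_mul_of_nonneg_right hMM0 (abs_nonneg _)
        _ ≤ _ := by
            refine sum_le_sum_of_subset_of_nonneg ?_ fun l _ _ => add_nonneg
              (sum_nonneg fun m _ => ArithmeticFunction.vonMangoldt_nonneg) (by positivity)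
            exact Icc_subset_Icc le_rfl (Int.floor_le_floor hLM0)
    refine h2.trans ?_
    have h3 : (Real.log M) ^ A ≤ (Real.log M0) ^ A :=
      pow_le_pow_left₀ (by linarith) (Real.log_le_log (by linarith) hMM0) A
    have h4 : 1 ≤ L * M := by nlinarith
    have h5 : K ≤ K * (Real.log M0) ^ A * (L * M / (Real.log M) ^ A) := by
      rw [mul_assoc]
      refine le_mul_of_one_le_right hK0 ?_
      rw [mul_div_assoc', le_div_iff₀ (by positivity), one_mul]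
      have : 0 ≤ (Real.log M0) ^ A := by positivity
      nlinarith
    have h6 : 0 ≤ C1 * (L * M / (Real.log M) ^ A) := by positivity
    calc K ≤ K * (Real.log M0) ^ A * (L * M / (Real.log M) ^ A) := h5
      _ ≤ _ := by
        rw [add_mul]
        linarith

end Pool.Agent.N782.GN
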