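import Pool.Agent.N782.GN.MainD
import Pool.Agent.N782.GN.StmX

/-!
# Project GN (helper782), stage 2: assembly for a class modulo `q₀`, part A
-/

set_option autoImplicit false

namespace Pool.Agent.N782.GN

open Finset Filter Topology
open Pool.Agent.H304R3.HK (UH bb LamK)

/-- `λ(Re z)` for `|Im z| ≤ M`, `Im z ≡ m₀ (mod q₀)` -/
noncomputable def Fx (q : ℕ) (m0 : ℤ) (lam : ℤ → ℝ) (M : ℝ) (z : ZI) : ℝ :=
  if (q : ℤ) ∣ z.im - m0 then Fz lam M z else 0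

/-- `λ` is supported on the class of `l₀` -/
def Sl (q : ℕ) (l0 : ℤ) (lam : ℤ → ℝ) : Prop := ∀ l, ¬ (q : ℤ) ∣ l - l0 → lam l = 0

theorem dvd_iff (q : ℕ) (z w : ZI) : ((q : ℕ) : ZI) ∣ z - w ↔ (q : ℤ) ∣ z.re - w.re ∧ (q : ℤ) ∣ z.im - w.im := by
  constructor
  · rintro ⟨c, hc⟩
    have h1 := congrArg Zsqrtd.re hc
    have h2 := congrArg Zsqrtd.im hc
    simp at h1 h2
    exact ⟨⟨c.re, h1⟩, ⟨c.im, h2⟩⟩
  · rintro ⟨⟨a, ha⟩, ⟨b, hb⟩⟩
    refine ⟨⟨a, b⟩, ?_⟩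
    apply Zsqrtd.ext
    · simp [ha]
    · simp [hb]

/-- if `Fx` is not zero, then `z` is in the class of `z₀`, and is coprime to `q₀` -/
theorem Fx_cop {q : ℕ} {l0 m0 : ℤ} {lam : ℤ → ℝ} (hs : Sl q l0 lam) (hc : IsCoprime (⟨l0, m0⟩ : ZI) ((q : ℕ) : ZI))
    {M : ℝ} {z : ZI} (hz : Fx q m0 lam M z ≠ 0) :
    ((q : ℕ) : ZI) ∣ z - ⟨l0, m0⟩ ∧ IsCoprime z ((q : ℕ) : ZI) := by
  unfold Fx at hz
  split_ifs at hz with h1
  · unfold Fz at hz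
    split_ifs at hz with h2
    · have h3 : (q : ℤ) ∣ z.re - l0 := by
        by_contra hc
        exact hz (hs _ hc)
      have h4 : ((q : ℕ) : ZI) ∣ z - ⟨l0, m0⟩ := (dvd_iff q z ⟨l0, m0⟩).2 ⟨h3, h1⟩
      refine ⟨h4, ?_⟩
      obtain ⟨c, hc'⟩ := h4
      have h5 : z = ⟨l0, m0⟩ + ((q : ℕ) : ZI) * c := by
        rw [← hc']
        ring
      rw [h5]
      exact IsCoprime.add_mul_left_left hc c
    · exact absurd rfl hz
  · exact absurd rfl hz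

theorem Fx_zero {L M X : ℝ} {q : ℕ} {m0 : ℤ} {lam : ℤ → ℝ} (h : Lm L lam) (hLM : L ≤ M) (hX : 2 * M ^ 2 ≤ X) {z : ZI}
    (hz : X < nz z) : Fx q m0 lam M z = 0 := by
  unfold Fx
  rw [Fz_zero h hLM hX hz, ite_self]

open Classical in
theorem sum_dvdx {L M : ℝ} {q : ℕ} {m0 : ℤ} {lam : ℤ → ℝ} (h : Lm L lam) (hLM : L ≤ M) {b : ZI} (hb : b ≠ 0)
    (k : ZI → ℝ) :
    ∑ u ∈ bl (2 * M ^ 2), k (b * u) * Fx q m0 lam M (b * u) =
      ∑ l ∈ Icc 1 ⌊L⌋, lam l * ∑ m ∈ (Icc ⌈-M⌉ ⌊M⌋).filter (fun m : ℤ => (q : ℤ) ∣ m - m0 ∧ b ∣ (⟨l, m⟩ : ZI)),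
        k (⟨l, m⟩ : ZI) := by
  have h1 := sum_dvd h hLM hb (fun z => if (q : ℤ) ∣ z.im - m0 then k z else 0)
  have e1 : ∑ u ∈ bl (2 * M ^ 2), k (b * u) * Fx q m0 lam M (b * u) =
      ∑ u ∈ bl (2 * M ^ 2), (if (q : ℤ) ∣ (b * u).im - m0 then k (b * u) else 0) * Fz lam M (b * u) := by
    refine sum_congr rfl fun u _ => ?_
    unfold Fx
    split_ifs <;> simp
  rw [e1, h1]
  refine sum_congr rfl fun l _ => ?_
  congr 1
  rw [sum_filter, sum_filter]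
  refine sum_congr rfl fun m _ => ?_
  by_cases h1 : b ∣ (⟨l, m⟩ : ZI)
  · by_cases h2 : (q : ℤ) ∣ m - m0
    · simp [h1, h2]
    · simp [h1, h2]
  · simp [h1]

/-- the errors of the linear sums -/
noncomputable def er1x (q : ℕ) (m0 : ℤ) (M L : ℝ) (lam : ℤ → ℝ) (a : ZI) : ℝ :=
  ∑ l ∈ Icc 1 ⌊L⌋, lam l * (nmx q m0 M a l - 2 * M / q * (kap l a / nz a))

noncomputable def er2x (q : ℕ) (m0 : ℤ) (M L : ℝ) (lam : ℤ → ℝ) (a : ZI) : ℝ :=
  ∑ l ∈ Icc 1 ⌊L⌋, lam l * (nmlx q m0 M a l - 4 * M * (Real.log M - 1) / q * (kap l a / nz a))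

open Classical in
/-- the difference between `log (l² + m²)` and `log m²` -/
noncomputable def er3x (q : ℕ) (m0 : ℤ) (M L : ℝ) (lam : ℤ → ℝ) (a : ZI) : ℝ :=
  ∑ l ∈ Icc 1 ⌊L⌋, lam l * ∑ m ∈ (Icc ⌈-M⌉ ⌊M⌋).filter (fun m : ℤ => (q : ℤ) ∣ m - m0 ∧ a ∣ (⟨l, m⟩ : ZI)),
    (Real.log (nz (⟨l, m⟩ : ZI)) - 2 * Real.log |(m : ℝ)|)

theorem sum_onex {L M : ℝ} {q : ℕ} {m0 : ℤ} {lam : ℤ → ℝ} (h : Lm L lam) (hLM : L ≤ M) {b : ZI} (hb : b ≠ 0) :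
    ∑ u ∈ bl (2 * M ^ 2), Fx q m0 lam M (b * u) =
      er1x q m0 M L lam b + ∑ l ∈ Icc 1 ⌊L⌋, lam l * (2 * M / q * (kap l b / nz b)) := by
  have h1 := sum_dvdx (q := q) (m0 := m0) h hLM hb (fun _ => 1)
  simp only [one_mul] at h1
  rw [h1, er1x, ← sum_add_distrib]
  refine sum_congr rfl fun l _ => ?_
  rw [← mul_add]
  congr 1
  unfold nmx
  rw [sum_const, nsmul_eq_mul, mul_one]
  ring

theorem sum_logx {L M : ℝ} {q : ℕ} {m0 : ℤ} {lam : ℤ → ℝ} (h : Lm L lam) (hLM : L ≤ M) {b : ZI} (hb : b ≠ 0) :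
    ∑ u ∈ bl (2 * M ^ 2), Real.log (nz u) * Fx q m0 lam M (b * u) =
      er2x q m0 M L lam b + er3x q m0 M L lam b - Real.log (nz b) * er1x q m0 M L lam b +
        ∑ l ∈ Icc 1 ⌊L⌋, lam l * ((kap l b / nz b) *
          (4 * M * (Real.log M - 1) / q - 2 * M / q * Real.log (nz b))) := by
  classical
  have h0 : ∑ u ∈ bl (2 * M ^ 2), Real.log (nz u) * Fx q m0 lam M (b * u) =
      ∑ u ∈ bl (2 * M ^ 2), (Real.log (nz (b * u)) - Real.log (nz b)) * Fx q m0 lam M (b * u) := by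
    refine sum_congr rfl fun u hu => ?_
    rw [mem_bl] at hu
    have h1 := one_le_nz hb
    have h2 := one_le_nz hu.1
    rw [nz_mul, Real.log_mul (by linarith) (by linarith)]
    ring
  rw [h0, sum_dvdx h hLM hb (fun z => Real.log (nz z) - Real.log (nz b)), er1x, er2x, er3x, mul_sum,
    ← sum_add_distrib, ← sum_sub_distrib, ← sum_add_distrib]
  refine sum_congr rfl fun l _ => ?_
  have e1 : ∑ m ∈ (Icc ⌈-M⌉ ⌊M⌋).filter (fun m : ℤ => (q : ℤ) ∣ m - m0 ∧ b ∣ (⟨l, m⟩ : ZI)),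
      (Real.log (nz (⟨l, m⟩ : ZI)) - Real.log (nz b)) =
      ∑ m ∈ (Icc ⌈-M⌉ ⌊M⌋).filter (fun m : ℤ => (q : ℤ) ∣ m - m0 ∧ b ∣ (⟨l, m⟩ : ZI)),
        (Real.log (nz (⟨l, m⟩ : ZI)) - 2 * Real.log |(m : ℝ)|) + nmlx q m0 M b l -
        nmx q m0 M b l * Real.log (nz b) := by
    have e2 : nmlx q m0 M b l = ∑ m ∈ (Icc ⌈-M⌉ ⌊M⌋).filter (fun m : ℤ => (q : ℤ) ∣ m - m0 ∧ b ∣ (⟨l, m⟩ : ZI)),
        2 * Real.log |(m : ℝ)| := by
      unfold nmlx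
      rw [sum_filter, sum_filter]
      refine sum_congr rfl fun m _ => ?_
      by_cases hm : m = 0
      · subst hm
        simp
      · by_cases hd : b ∣ (⟨l, m⟩ : ZI) <;> simp [hm, hd]
    rw [e2, ← sum_add_distrib]
    unfold nmx
    rw [sum_sub_distrib, sum_const, nsmul_eq_mul]
    congr 1
    refine sum_congr rfl fun m _ => ?_
    ring
  rw [e1]
  ring

/-- the main term -/
noncomputable def Emx (q : ℕ) (l : ℤ) (M Y W : ℝ) : ℝ := by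
  classical
  exact 1 / 4 * ∑ b ∈ (bl Y).filter (fun b => IsCoprime b ((q : ℕ) : ZI)), mu b * (kap l b / nz b) *
      (4 * M * (Real.log M - 1) / q - 2 * M / q * Real.log (nz b)) -
    1 / 16 * (2 * M / q) * ∑ b ∈ (bl Y).filter (fun b => IsCoprime b ((q : ℕ) : ZI)),
      ∑ c ∈ (bl W).filter (fun c => IsCoprime c ((q : ℕ) : ZI)), mu b * LamK c * (kap l (b * c) / nz (b * c))

/-- the parts of Vaughan's identity -/
noncomputable def V0x (q : ℕ) (m0 : ℤ) (M W : ℝ) (lam : ℤ → ℝ) : ℝ := ∑ z ∈ bl W, LamK z * Fx q m0 lam M z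

noncomputable def V3x (q : ℕ) (m0 : ℤ) (M Y W : ℝ) (lam : ℤ → ℝ) : ℝ :=
  ∑ b ∈ (bl (2 * M ^ 2)).filter (fun b => Y < nz b), ∑ v ∈ bl (2 * M ^ 2), mu b * aW W v * Fx q m0 lam M (b * v)

open Classical in
noncomputable def V1x (q : ℕ) (m0 : ℤ) (M L Y : ℝ) (lam : ℤ → ℝ) : ℝ :=
  ∑ b ∈ (bl Y).filter (fun b => IsCoprime b ((q : ℕ) : ZI)),
    mu b * (er2x q m0 M L lam b + er3x q m0 M L lam b - Real.log (nz b) * er1x q m0 M L lam b)

open Classical in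
noncomputable def V2x (q : ℕ) (m0 : ℤ) (M L Y W : ℝ) (lam : ℤ → ℝ) : ℝ :=
  ∑ b ∈ (bl Y).filter (fun b => IsCoprime b ((q : ℕ) : ZI)),
    ∑ c ∈ (bl W).filter (fun c => IsCoprime c ((q : ℕ) : ZI)), mu b * LamK c * er1x q m0 M L lam (b * c)

theorem vaughan_lx (hv : S_VAU) {M L Y W : ℝ} {q : ℕ} {l0 m0 : ℤ} {lam : ℤ → ℝ} (hM : 1 ≤ M) (h : Lm L lam)
    (hs : Sl q l0 lam) (hc : IsCoprime (⟨l0, m0⟩ : ZI) ((q : ℕ) : ZI)) (hLM : L ≤ M) (hY : 1 ≤ Y) (hW : 1 ≤ W) :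
    ∑ l ∈ Icc 1 ⌊L⌋, lam l * (∑ m ∈ (Icc ⌈-M⌉ ⌊M⌋).filter (fun m => (q : ℤ) ∣ m - m0), LamK (⟨l, m⟩ : ZI) -
      Emx q l M Y W) =
      V0x q m0 M W lam + 1 / 4 * V1x q m0 M L Y lam - 1 / 16 * V2x q m0 M L Y W lam + 1 / 16 * V3x q m0 M Y W lam := by
  classical
  have hM2 : (1 : ℝ) ≤ 2 * M ^ 2 := by nlinarith
  have h0 : Fx q m0 lam M 0 = 0 := by
    unfold Fx
    rw [ite_eq_right_iff]
    intro _
    unfold Fz
    split_ifs
    · apply h.zero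
      intro h1
      rw [mem_Icc] at h1
      simp at h1
    · rfl
  have hV := hv (Fx q m0 lam M) (2 * M ^ 2) Y W hY hW hM2 h0 (fun z hz => Fx_zero h hLM le_rfl hz)
  have hbox : ∑ z ∈ bl (2 * M ^ 2), LamK z * Fx q m0 lam M z =
      ∑ l ∈ Icc 1 ⌊L⌋, ∑ m ∈ (Icc ⌈-M⌉ ⌊M⌋).filter (fun m => (q : ℤ) ∣ m - m0), lam l * LamK (⟨l, m⟩ : ZI) := by
    have h1 := sum_box h hLM (fun z => if (q : ℤ) ∣ z.im - m0 then LamK z else 0)
    have e1 : ∑ z ∈ bl (2 * M ^ 2), LamK z * Fx q m0 lam M z =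
        ∑ z ∈ bl (2 * M ^ 2), (if (q : ℤ) ∣ z.im - m0 then LamK z else 0) * Fz lam M z := by
      refine sum_congr rfl fun z _ => ?_
      unfold Fx
      split_ifs <;> simp
    rw [e1, h1]
    refine sum_congr rfl fun l _ => ?_
    rw [sum_filter]
    refine sum_congr rfl fun m _ => ?_
    split_ifs <;> simp
  rw [hbox] at hV
  have e0 : ∑ l ∈ Icc 1 ⌊L⌋, lam l * (∑ m ∈ (Icc ⌈-M⌉ ⌊M⌋).filter (fun m => (q : ℤ) ∣ m - m0), LamK (⟨l, m⟩ : ZI) -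
      Emx q l M Y W) =
      ∑ l ∈ Icc 1 ⌊L⌋, ∑ m ∈ (Icc ⌈-M⌉ ⌊M⌋).filter (fun m => (q : ℤ) ∣ m - m0), lam l * LamK (⟨l, m⟩ : ZI) -
      ∑ l ∈ Icc 1 ⌊L⌋, lam l * Emx q l M Y W := by
    rw [← sum_sub_distrib]
    refine sum_congr rfl fun l _ => ?_
    rw [mul_sub, mul_sum]
  rw [e0, hV]
  -- only `b` coprime to `q`
  have hcop : ∀ b u : ZI, ¬ IsCoprime b ((q : ℕ) : ZI) → Fx q m0 lam M (b * u) = 0 := by
    intro b u hb
    by_contra hne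
    exact hb ((Fx_cop hs hc hne).2.of_mul_left_left)
  have f1 : ∑ b ∈ bl Y, ∑ u ∈ bl (2 * M ^ 2), mu b * Real.log (nz u) * Fx q m0 lam M (b * u) =
      ∑ b ∈ (bl Y).filter (fun b => IsCoprime b ((q : ℕ) : ZI)),
        ∑ u ∈ bl (2 * M ^ 2), mu b * Real.log (nz u) * Fx q m0 lam M (b * u) := by
    rw [sum_filter]
    refine sum_congr rfl fun b _ => ?_
    split_ifs with hb
    · rfl
    · exact sum_eq_zero fun u _ => by rw [hcop b u hb, mul_zero]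
  have f2 : ∑ b ∈ bl Y, ∑ c ∈ bl W, ∑ u ∈ bl (2 * M ^ 2), mu b * LamK c * Fx q m0 lam M (b * c * u) =
      ∑ b ∈ (bl Y).filter (fun b => IsCoprime b ((q : ℕ) : ZI)),
        ∑ c ∈ (bl W).filter (fun c => IsCoprime c ((q : ℕ) : ZI)),
        ∑ u ∈ bl (2 * M ^ 2), mu b * LamK c * Fx q m0 lam M (b * c * u) := by
    rw [sum_filter]
    refine sum_congr rfl fun b _ => ?_
    split_ifs with hb
    · rw [sum_filter]
      refine sum_congr rfl fun c _ => ?_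
      split_ifs with hc'
      · rfl
      · refine sum_eq_zero fun u _ => ?_
        rw [mul_comm b c, mul_assoc c b u, hcop c _ hc', mul_zero]
    · refine sum_eq_zero fun c _ => sum_eq_zero fun u _ => ?_
      rw [mul_assoc b c u, hcop b _ hb, mul_zero]
  rw [f1, f2]
  have e1 : ∑ b ∈ (bl Y).filter (fun b => IsCoprime b ((q : ℕ) : ZI)),
      ∑ u ∈ bl (2 * M ^ 2), mu b * Real.log (nz u) * Fx q m0 lam M (b * u) =
      V1x q m0 M L Y lam + ∑ l ∈ Icc 1 ⌊L⌋, lam l * ∑ b ∈ (bl Y).filter (fun b => IsCoprime b ((q : ℕ) : ZI)),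
        mu b * (kap l b / nz b) * (4 * M * (Real.log M - 1) / q - 2 * M / q * Real.log (nz b)) := by
    have e2 : ∀ b ∈ (bl Y).filter (fun b => IsCoprime b ((q : ℕ) : ZI)),
        ∑ u ∈ bl (2 * M ^ 2), mu b * Real.log (nz u) * Fx q m0 lam M (b * u) =
        mu b * (er2x q m0 M L lam b + er3x q m0 M L lam b - Real.log (nz b) * er1x q m0 M L lam b) +
        ∑ l ∈ Icc 1 ⌊L⌋, lam l * (mu b * (kap l b / nz b) *
          (4 * M * (Real.log M - 1) / q - 2 * M / q * Real.log (nz b))) := by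
      intro b hb
      rw [mem_filter] at hb
      have e3 := sum_logx (q := q) (m0 := m0) h hLM (bl_ne hb.1)
      have e4 : ∑ u ∈ bl (2 * M ^ 2), mu b * Real.log (nz u) * Fx q m0 lam M (b * u) =
          mu b * ∑ u ∈ bl (2 * M ^ 2), Real.log (nz u) * Fx q m0 lam M (b * u) := by
        rw [mul_sum]
        refine sum_congr rfl fun u _ => ?_
        ring
      rw [e4, e3, mul_add]
      congr 1
      rw [mul_sum]
      refine sum_congr rfl fun l _ => ?_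
      ring
    rw [sum_congr rfl e2, sum_add_distrib, V1x]
    congr 1
    rw [sum_comm]
    refine sum_congr rfl fun l _ => ?_
    rw [mul_sum]
  have e5 : ∑ b ∈ (bl Y).filter (fun b => IsCoprime b ((q : ℕ) : ZI)),
        ∑ c ∈ (bl W).filter (fun c => IsCoprime c ((q : ℕ) : ZI)),
        ∑ u ∈ bl (2 * M ^ 2), mu b * LamK c * Fx q m0 lam M (b * c * u) =
      V2x q m0 M L Y W lam + ∑ l ∈ Icc 1 ⌊L⌋, lam l * (2 * M / q *
        ∑ b ∈ (bl Y).filter (fun b => IsCoprime b ((q : ℕ) : ZI)),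
        ∑ c ∈ (bl W).filter (fun c => IsCoprime c ((q : ℕ) : ZI)),
        mu b * LamK c * (kap l (b * c) / nz (b * c))) := by
    have e6 : ∀ b ∈ (bl Y).filter (fun b => IsCoprime b ((q : ℕ) : ZI)),
        ∀ c ∈ (bl W).filter (fun c => IsCoprime c ((q : ℕ) : ZI)),
        ∑ u ∈ bl (2 * M ^ 2), mu b * LamK c * Fx q m0 lam M (b * c * u) =
        mu b * LamK c * er1x q m0 M L lam (b * c) +
        ∑ l ∈ Icc 1 ⌊L⌋, lam l * (2 * M / q * (mu b * LamK c * (kap l (b * c) / nz (b * c)))) := by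
      intro b hb c hc
      rw [mem_filter] at hb hc
      rw [← mul_sum, sum_onex h hLM (mul_ne_zero (bl_ne hb.1) (bl_ne hc.1)), mul_add]
      congr 1
      rw [mul_sum]
      refine sum_congr rfl fun l _ => ?_
      ring
    rw [sum_congr rfl fun b hb => sum_congr rfl fun c hc => e6 b hb c hc]
    rw [V2x]
    set Bs := (bl Y).filter (fun b => IsCoprime b ((q : ℕ) : ZI)) with hBs
    set Cs := (bl W).filter (fun c => IsCoprime c ((q : ℕ) : ZI)) with hCs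
    rw [show ∑ b ∈ Bs, ∑ c ∈ Cs, (mu b * LamK c * er1x q m0 M L lam (b * c) +
        ∑ l ∈ Icc 1 ⌊L⌋, lam l * (2 * M / q * (mu b * LamK c * (kap l (b * c) / nz (b * c))))) =
        ∑ b ∈ Bs, ∑ c ∈ Cs, mu b * LamK c * er1x q m0 M L lam (b * c) +
        ∑ b ∈ Bs, ∑ c ∈ Cs, ∑ l ∈ Icc 1 ⌊L⌋, lam l * (2 * M / q * (mu b * LamK c * (kap l (b * c) / nz (b * c)))) by
      rw [← sum_add_distrib]
      refine sum_congr rfl fun b _ => ?_
      rw [← sum_add_distrib]]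
    congr 1
    rw [show ∑ b ∈ Bs, ∑ c ∈ Cs, ∑ l ∈ Icc 1 ⌊L⌋, lam l * (2 * M / q * (mu b * LamK c *
        (kap l (b * c) / nz (b * c)))) = ∑ b ∈ Bs, ∑ l ∈ Icc 1 ⌊L⌋, ∑ c ∈ Cs, lam l * (2 * M / q * (mu b * LamK c *
        (kap l (b * c) / nz (b * c)))) from sum_congr rfl fun b _ => sum_comm]
    rw [sum_comm]
    refine sum_congr rfl fun l _ => ?_
    simp only [mul_sum]
  rw [e1, e5]
  have e7 : ∑ l ∈ Icc 1 ⌊L⌋, lam l * Emx q l M Y W =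
      1 / 4 * ∑ l ∈ Icc 1 ⌊L⌋, lam l * ∑ b ∈ (bl Y).filter (fun b => IsCoprime b ((q : ℕ) : ZI)),
        mu b * (kap l b / nz b) * (4 * M * (Real.log M - 1) / q - 2 * M / q * Real.log (nz b)) -
      1 / 16 * ∑ l ∈ Icc 1 ⌊L⌋, lam l * (2 * M / q * ∑ b ∈ (bl Y).filter (fun b => IsCoprime b ((q : ℕ) : ZI)),
        ∑ c ∈ (bl W).filter (fun c => IsCoprime c ((q : ℕ) : ZI)),
        mu b * LamK c * (kap l (b * c) / nz (b * c))) := by
    rw [mul_sum, mul_sum, ← sum_sub_distrib]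
    refine sum_congr rfl fun l _ => ?_
    unfold Emx
    ring
  rw [e7, V0x, V3x]
  ring

end Pool.Agent.N782.GN
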