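import Pool.Agent.N782.GN.MainXA

/-!
# Project GN (helper782), stage 2: assembly for a class modulo `q₀`, part B: the bounds
-/

set_option autoImplicit false

namespace Pool.Agent.N782.GN

open Finset Filter Topology
open Pool.Agent.H304R3.HK (UH bb LamK)

/-- the convolution with `Λ` -/
theorem lam_conv (hm : S_MUB) {Y W : ℝ} (hY : 1 ≤ Y) (g : ZI → ℝ) (hg : ∀ a, 0 ≤ g a) :
    ∑ b ∈ bl Y, ∑ c ∈ bl W, LamK c * g (b * c) ≤ 4 * Real.log (Y * W) * ∑ a ∈ bl (Y * W), g a := by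
  classical
  obtain ⟨-, -, -, -, h5, h6⟩ := hm
  have h2 : ∑ b ∈ bl Y, ∑ c ∈ bl W, LamK c * g (b * c) ≤
      ∑ a ∈ bl (Y * W), ∑ c ∈ (bl (nz a)).filter (fun c => c ∣ a), LamK c * g a := by
    rw [← sum_product', sum_sigma']
    refine le_of_eq_of_le (b := ∑ p ∈ ((bl Y) ×ˢ (bl W)).image
      (fun p : ZI × ZI => (⟨p.1 * p.2, p.2⟩ : Σ _ : ZI, ZI)), LamK p.2 * g p.1) ?_ ?_
    · rw [sum_image]
      rintro ⟨b, c⟩ hbc ⟨b', c'⟩ hbc' he
      simp only [Sigma.mk.injEq, heq_eq_eq] at he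
      obtain ⟨he1, he2⟩ := he
      subst he2
      rw [mem_coe, mem_product] at hbc
      have := mul_right_cancel₀ (bl_ne hbc.2) he1
      rw [this]
    · refine sum_le_sum_of_subset_of_nonneg ?_ ?_
      · intro p hp
        rw [mem_image] at hp
        obtain ⟨⟨b, c⟩, hbc, rfl⟩ := hp
        rw [mem_product] at hbc
        obtain ⟨hb, hc⟩ := hbc
        simp only at hb hc
        have hb0 := bl_ne hb
        have hc0 := bl_ne hc
        have h7 := one_le_nz hb0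
        have h8 := one_le_nz hc0
        rw [mem_sigma, mem_bl, mem_filter, mem_bl]
        refine ⟨⟨mul_ne_zero hb0 hc0, ?_⟩, ⟨hc0, ?_⟩, dvd_mul_left _ _⟩
        · rw [nz_mul]
          exact mul_le_mul (bl_le hb) (bl_le hc) (by linarith) (by linarith)
        · simp only
          rw [nz_mul]
          nlinarith
      · intro p _ _
        exact mul_nonneg (h6 _).1 (hg _)
  refine h2.trans ?_
  rw [mul_sum]
  refine sum_le_sum fun a ha => ?_
  rw [← sum_mul, h5 a (bl_ne ha)]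
  have h3 : Real.log (nz a) ≤ Real.log (Y * W) :=
    Real.log_le_log (by linarith [one_le_nz (bl_ne ha)]) (bl_le ha)
  exact mul_le_mul_of_nonneg_right (by linarith) (hg a)

open Classical in
theorem V2x_le (hm : S_MUB) {M L Y W : ℝ} {q : ℕ} {m0 : ℤ} {lam : ℤ → ℝ} (hY : 1 ≤ Y) :
    |V2x q m0 M L Y W lam| ≤ 4 * Real.log (Y * W) *
      ∑ a ∈ (bl (Y * W)).filter (fun a => IsCoprime a ((q : ℕ) : ZI)), |er1x q m0 M L lam a| := by
  set g : ZI → ℝ := fun a => if IsCoprime a ((q : ℕ) : ZI) then |er1x q m0 M L lam a| else 0 with hg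
  have hg0 : ∀ a, 0 ≤ g a := fun a => by
    simp only [hg]
    split_ifs
    · exact abs_nonneg _
    · exact le_rfl
  have h1 := lam_conv hm (W := W) hY g hg0
  have h6 := hm.2.2.2.2.2
  rw [sum_filter]
  refine le_trans ?_ h1
  unfold V2x
  refine (abs_sum_le_sum_abs _ _).trans ?_
  rw [sum_filter]
  refine sum_le_sum fun b _ => ?_
  split_ifs with hb
  · refine (abs_sum_le_sum_abs _ _).trans ?_
    rw [sum_filter]
    refine sum_le_sum fun c _ => ?_
    split_ifs with hc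
    · have : g (b * c) = |er1x q m0 M L lam (b * c)| := by
        simp only [hg]
        rw [if_pos (IsCoprime.mul_left hb hc)]
      rw [this, abs_mul, abs_mul, abs_of_nonneg (h6 c).1]
      refine mul_le_mul_of_nonneg_right ?_ (abs_nonneg _)
      calc |mu b| * LamK c ≤ 1 * LamK c := mul_le_mul_of_nonneg_right (abs_mu_le b) (h6 c).1
        _ = LamK c := one_mul _
    · exact mul_nonneg (h6 c).1 (hg0 _)
  · exact sum_nonneg fun c _ => mul_nonneg (h6 c).1 (hg0 _)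

open Classical in
theorem V1x_le {M L Y : ℝ} {q : ℕ} {m0 : ℤ} {lam : ℤ → ℝ} (hY : 1 ≤ Y) :
    |V1x q m0 M L Y lam| ≤ ∑ b ∈ (bl Y).filter (fun a => IsCoprime a ((q : ℕ) : ZI)), |er2x q m0 M L lam b| +
      ∑ b ∈ bl Y, |er3x q m0 M L lam b| +
      Real.log Y * ∑ b ∈ (bl Y).filter (fun a => IsCoprime a ((q : ℕ) : ZI)), |er1x q m0 M L lam b| := by
  unfold V1x
  refine (abs_sum_le_sum_abs _ _).trans ?_
  have h0 : ∑ b ∈ (bl Y).filter (fun a => IsCoprime a ((q : ℕ) : ZI)), |er3x q m0 M L lam b| ≤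
      ∑ b ∈ bl Y, |er3x q m0 M L lam b| :=
    sum_le_sum_of_subset_of_nonneg (filter_subset _ _) fun _ _ _ => abs_nonneg _
  have h00 : ∑ b ∈ (bl Y).filter (fun a => IsCoprime a ((q : ℕ) : ZI)),
      |mu b * (er2x q m0 M L lam b + er3x q m0 M L lam b - Real.log (nz b) * er1x q m0 M L lam b)| ≤
      ∑ b ∈ (bl Y).filter (fun a => IsCoprime a ((q : ℕ) : ZI)), |er2x q m0 M L lam b| +
      ∑ b ∈ (bl Y).filter (fun a => IsCoprime a ((q : ℕ) : ZI)), |er3x q m0 M L lam b| +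
      Real.log Y * ∑ b ∈ (bl Y).filter (fun a => IsCoprime a ((q : ℕ) : ZI)), |er1x q m0 M L lam b| := by
    rw [mul_sum, ← sum_add_distrib, ← sum_add_distrib]
    refine sum_le_sum fun b hb => ?_
    rw [mem_filter] at hb
    rw [abs_mul]
    have h1 : 1 ≤ nz b := one_le_nz (bl_ne hb.1)
    have h2 : 0 ≤ Real.log (nz b) := Real.log_nonneg h1
    have h3 : Real.log (nz b) ≤ Real.log Y := Real.log_le_log (by linarith) (bl_le hb.1)
    calc |mu b| * |er2x q m0 M L lam b + er3x q m0 M L lam b - Real.log (nz b) * er1x q m0 M L lam b|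
        ≤ 1 * |er2x q m0 M L lam b + er3x q m0 M L lam b - Real.log (nz b) * er1x q m0 M L lam b| :=
          mul_le_mul_of_nonneg_right (abs_mu_le b) (abs_nonneg _)
      _ = |er2x q m0 M L lam b + er3x q m0 M L lam b - Real.log (nz b) * er1x q m0 M L lam b| := one_mul _
      _ ≤ |er2x q m0 M L lam b + er3x q m0 M L lam b| + |Real.log (nz b) * er1x q m0 M L lam b| := abs_sub _ _
      _ ≤ |er2x q m0 M L lam b| + |er3x q m0 M L lam b| + Real.log Y * |er1x q m0 M L lam b| := by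
          refine add_le_add (abs_add_le _ _) ?_
          rw [abs_mul, abs_of_nonneg h2]
          exact mul_le_mul_of_nonneg_right h3 (abs_nonneg _)
  linarith

/-- the bound for the sum of `er3x` -/
theorem er3x_le {M L Y K : ℝ} {q : ℕ} {m0 : ℤ} {lam : ℤ → ℝ} (hM : 1 ≤ M) (hL1 : 1 ≤ L) (h : Lm L lam) (hLM : L ≤ M)
    (hK : 0 ≤ K) (hd : ∀ z : ZI, z ≠ 0 → nz z ≤ 2 * M ^ 2 → (dv z : ℝ) ≤ K) :
    ∑ b ∈ bl Y, |er3x q m0 M L lam b| ≤ K * L * (2 * Real.log L + 4 * L * (1 + Real.log M)) := by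
  classical
  set g : ℤ → ℝ := fun m => (if m = 0 then 2 * Real.log L else 0) + 2 * L * (1 / abs (m : ℝ)) with hg
  have hlogL : 0 ≤ Real.log L := Real.log_nonneg hL1
  have hg0 : ∀ m, 0 ≤ g m := fun m => by
    simp only [hg]
    split_ifs <;> positivity
  have h1 : ∀ b ∈ bl Y, |er3x q m0 M L lam b| ≤ ∑ l ∈ Icc 1 ⌊L⌋, ∑ m ∈ Icc ⌈-M⌉ ⌊M⌋,
      if b ∣ (⟨l, m⟩ : ZI) then g m else 0 := by
    intro b _
    unfold er3x
    refine (abs_sum_le_sum_abs _ _).trans (sum_le_sum fun l hl => ?_)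
    rw [abs_mul, sum_filter]
    rw [mem_box] at hl
    refine (mul_le_mul_of_nonneg_right (h.1 l) (abs_nonneg _)).trans ?_
    rw [one_mul]
    refine (abs_sum_le_sum_abs _ _).trans (sum_le_sum fun m _ => ?_)
    by_cases hb : b ∣ (⟨l, m⟩ : ZI)
    · rw [if_pos hb]
      split_ifs
      · exact log_diff hl.1 hl.2
      · rw [abs_zero]
        exact hg0 m
    · rw [if_neg hb, if_neg (fun h => hb h.2), abs_zero]
  refine (sum_le_sum h1).trans ?_
  rw [sum_comm]
  have h2 : ∀ l ∈ Icc 1 ⌊L⌋, ∑ b ∈ bl Y, ∑ m ∈ Icc ⌈-M⌉ ⌊M⌋, (if b ∣ (⟨l, m⟩ : ZI) then g m else 0) ≤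
      K * (2 * Real.log L + 4 * L * (1 + Real.log M)) := by
    intro l hl
    rw [mem_box] at hl
    rw [sum_comm]
    have h3 : ∀ m ∈ Icc ⌈-M⌉ ⌊M⌋, ∑ b ∈ bl Y, (if b ∣ (⟨l, m⟩ : ZI) then g m else 0) ≤ K * g m := by
      intro m hm
      rw [mem_box2] at hm
      rw [← sum_filter, sum_const, nsmul_eq_mul]
      have hl1 : (1 : ℝ) ≤ l := by exact_mod_cast hl.1
      have hz : (⟨l, m⟩ : ZI) ≠ 0 := by
        intro h0
        have h3 := congrArg Zsqrtd.re h0
        simp only [Zsqrtd.re_zero] at h3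
        omega
      have hn : nz (⟨l, m⟩ : ZI) ≤ 2 * M ^ 2 := by
        rw [nz_mk]
        have h4 : (m : ℝ) ^ 2 ≤ M ^ 2 := by
          rw [← sq_abs]
          exact pow_le_pow_left₀ (abs_nonneg _) hm 2
        have h5 : (l : ℝ) ^ 2 ≤ M ^ 2 := pow_le_pow_left₀ (by linarith) (hl.2.trans hLM) 2
        linarith
      refine mul_le_mul_of_nonneg_right (le_trans ?_ (hd _ hz hn)) (hg0 m)
      unfold dv
      rw [Nat.cast_le]
      apply card_le_card
      intro b hb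
      rw [mem_filter, mem_bl] at hb
      rw [mem_filter, mem_bl]
      refine ⟨⟨hb.1.1, ?_⟩, hb.2⟩
      obtain ⟨c, hc⟩ := hb.2
      have hc0 : c ≠ 0 := by
        rintro rfl
        rw [mul_zero] at hc
        exact hz hc
      rw [hc, nz_mul]
      nlinarith [one_le_nz hc0, one_le_nz hb.1.1]
    refine (sum_le_sum h3).trans ?_
    rw [← mul_sum]
    refine mul_le_mul_of_nonneg_left ?_ hK
    simp only [hg]
    rw [sum_add_distrib, sum_ite_eq', ← mul_sum]
    have h5 := harm2 hM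
    have h7 : 2 * L * ∑ m ∈ Icc ⌈-M⌉ ⌊M⌋, 1 / abs (m : ℝ) ≤ 2 * L * (2 * (1 + Real.log M)) :=
      mul_le_mul_of_nonneg_left h5 (by linarith)
    split_ifs
    · linarith
    · linarith
  refine (sum_le_sum h2).trans ?_
  rw [sum_const, nsmul_eq_mul, Int.card_Icc]
  have h3 : 0 ≤ ⌊L⌋ := Int.floor_nonneg.2 (by linarith)
  have h4 : (((⌊L⌋ + 1 - 1).toNat : ℕ) : ℝ) ≤ L := by
    rw [show ⌊L⌋ + 1 - 1 = ⌊L⌋ by ring]
    have h5 : ((⌊L⌋.toNat : ℕ) : ℤ) = ⌊L⌋ := Int.toNat_of_nonneg h3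
    have h6 : ((⌊L⌋.toNat : ℕ) : ℝ) = (⌊L⌋ : ℝ) := by exact_mod_cast h5
    rw [h6]
    exact Int.floor_le L
  have h5 : 0 ≤ 2 * Real.log L + 4 * L * (1 + Real.log M) := by
    have := Real.log_nonneg hM
    positivity
  calc _ ≤ L * (K * (2 * Real.log L + 4 * L * (1 + Real.log M))) :=
        mul_le_mul_of_nonneg_right h4 (mul_nonneg hK h5)
    _ = _ := by ring

theorem V0x_le (hm : S_MUB) {M L W : ℝ} {q : ℕ} {m0 : ℤ} {lam : ℤ → ℝ} (hW : 1 ≤ W) (hL : 1 ≤ L) (h : Lm L lam) :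
    |V0x q m0 M W lam| ≤ L * (2 * Real.sqrt W + 1) * Real.log W := by
  have h6 := hm.2.2.2.2.2
  have h1 : Lm L (fun l => |lam l|) := by
    constructor
    · intro l
      rw [abs_abs]
      exact h.1 l
    · intro l hl
      simp only
      rw [h.2 l hl, abs_zero]
  refine le_trans ?_ (V0_le hm (M := M) hW hL h1)
  refine le_trans ?_ (le_abs_self _)
  unfold V0x V0
  refine (abs_sum_le_sum_abs _ _).trans (sum_le_sum fun z _ => ?_)
  rw [abs_mul, abs_of_nonneg (h6 z).1]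
  refine mul_le_mul_of_nonneg_left ?_ (h6 z).1
  unfold Fx Fz
  split_ifs <;> simp

/-- representatives modulo `q` -/
noncomputable def reps (q : ℕ) : Finset ZI := by
  classical
  exact ((range q) ×ˢ (range q)).image (fun p : ℕ × ℕ => (⟨p.1, p.2⟩ : ZI))

theorem card_reps (q : ℕ) : ((reps q).card : ℝ) ≤ (q : ℝ) ^ 2 := by
  classical
  have h1 : (reps q).card ≤ q * q := by
    unfold reps
    refine card_image_le.trans ?_
    rw [card_product, card_range]
  calc ((reps q).card : ℝ) ≤ ((q * q : ℕ) : ℝ) := by exact_mod_cast h1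
    _ = (q : ℝ) ^ 2 := by push_cast; ring

/-- the representative of a class -/
theorem exists_rep {q : ℕ} (hq : 1 ≤ q) (z : ZI) : ∃! r, r ∈ reps q ∧ ((q : ℕ) : ZI) ∣ z - r := by
  classical
  have hq0 : (0 : ℤ) < q := by exact_mod_cast hq
  refine ⟨⟨z.re % q, z.im % q⟩, ⟨?_, ?_⟩, ?_⟩
  · unfold reps
    rw [mem_image]
    refine ⟨((z.re % q).toNat, (z.im % q).toNat), ?_, ?_⟩
    · rw [mem_product, mem_range, mem_range]
      have h1 := Int.emod_nonneg z.re hq0.ne'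
      have h2 := Int.emod_nonneg z.im hq0.ne'
      have h3 := Int.emod_lt_of_pos z.re hq0
      have h4 := Int.emod_lt_of_pos z.im hq0
      simp only
      omega
    · simp only
      rw [Int.toNat_of_nonneg (Int.emod_nonneg z.re hq0.ne'), Int.toNat_of_nonneg (Int.emod_nonneg z.im hq0.ne')]
  · rw [dvd_iff]
    exact ⟨Int.dvd_self_sub_emod, Int.dvd_self_sub_emod⟩
  · rintro r ⟨hr, hd⟩
    unfold reps at hr
    rw [mem_image] at hr
    obtain ⟨⟨a, b⟩, hab, rfl⟩ := hr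
    rw [mem_product, mem_range, mem_range] at hab
    rw [dvd_iff] at hd
    simp only at hab hd
    apply Zsqrtd.ext
    · simp only
      have h1 : z.re % q = (a : ℤ) % q := (Int.emod_emod_of_dvd z.re (dvd_refl (q : ℤ))).symm.trans (by
        rw [Int.emod_emod_of_dvd z.re (dvd_refl (q : ℤ))]
        exact Int.emod_eq_emod_iff_emod_sub_eq_zero.2 (Int.emod_eq_zero_of_dvd hd.1))
      rw [h1, Int.emod_eq_of_lt (by omega) (by omega)]
    · simp only
      have h1 : z.im % q = (b : ℤ) % q := Int.emod_eq_emod_iff_emod_sub_eq_zero.2 (Int.emod_eq_zero_of_dvd hd.2)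
      rw [h1, Int.emod_eq_of_lt (by omega) (by omega)]

open Classical in
/-- the bilinear part, in terms of the classes -/
theorem V3x_eq {M Y W : ℝ} {q : ℕ} {l0 m0 : ℤ} {lam : ℤ → ℝ} (hq : 1 ≤ q) (hs : Sl q l0 lam)
    (hc : IsCoprime (⟨l0, m0⟩ : ZI) ((q : ℕ) : ZI)) :
    V3x q m0 M Y W lam = ∑ p ∈ ((reps q) ×ˢ (reps q)).filter (fun p : ZI × ZI => ((q : ℕ) : ZI) ∣ p.1 * p.2 - ⟨l0, m0⟩),
      ∑ b ∈ (bl (2 * M ^ 2)).filter (fun b => Y < nz b ∧ ((q : ℕ) : ZI) ∣ b - p.1),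
        ∑ v ∈ (bl (2 * M ^ 2)).filter (fun v => ((q : ℕ) : ZI) ∣ v - p.2), mu b * aW W v * Fz lam M (b * v) := by
  unfold V3x
  -- pointwise
  have hpt : ∀ b v : ZI, mu b * aW W v * Fx q m0 lam M (b * v) =
      ∑ p ∈ ((reps q) ×ˢ (reps q)).filter (fun p : ZI × ZI => ((q : ℕ) : ZI) ∣ p.1 * p.2 - ⟨l0, m0⟩),
        (if ((q : ℕ) : ZI) ∣ b - p.1 then (if ((q : ℕ) : ZI) ∣ v - p.2 then mu b * aW W v * Fz lam M (b * v) else 0) else 0) := by
    intro b v
    obtain ⟨rb, ⟨hrb1, hrb2⟩, hrbu⟩ := exists_rep hq b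
    obtain ⟨rv, ⟨hrv1, hrv2⟩, hrvu⟩ := exists_rep hq v
    have hbv : ((q : ℕ) : ZI) ∣ b * v - rb * rv := by
      have : b * v - rb * rv = (b - rb) * v + rb * (v - rv) := by ring
      rw [this]
      exact dvd_add (Dvd.dvd.mul_right hrb2 v) (Dvd.dvd.mul_left hrv2 rb)
    have h1 : ∀ p ∈ ((reps q) ×ˢ (reps q)).filter (fun p : ZI × ZI => ((q : ℕ) : ZI) ∣ p.1 * p.2 - ⟨l0, m0⟩),
        (if ((q : ℕ) : ZI) ∣ b - p.1 then (if ((q : ℕ) : ZI) ∣ v - p.2 then mu b * aW W v * Fz lam M (b * v) else 0) else 0) =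
        if p = (rb, rv) then mu b * aW W v * Fz lam M (b * v) else 0 := by
      intro p hp
      rw [mem_filter, mem_product] at hp
      by_cases h2 : p = (rb, rv)
      · subst h2
        rw [if_pos hrb2, if_pos hrv2, if_pos rfl]
      · rw [if_neg h2]
        split_ifs with h3 h4
        · exfalso
          apply h2
          exact Prod.ext (hrbu _ ⟨hp.1.1, h3⟩) (hrvu _ ⟨hp.1.2, h4⟩)
        · rfl
        · rfl
    rw [sum_congr rfl h1, sum_ite_eq']
    by_cases h2 : Fx q m0 lam M (b * v) = 0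
    · rw [h2, mul_zero]
      split_ifs with h3
      · rw [mem_filter] at h3
        have h4 : ((q : ℕ) : ZI) ∣ b * v - ⟨l0, m0⟩ := by
          have : b * v - ⟨l0, m0⟩ = (b * v - rb * rv) + (rb * rv - ⟨l0, m0⟩) := by ring
          rw [this]
          exact dvd_add hbv h3.2
        have h5 := ((dvd_iff q (b * v) ⟨l0, m0⟩).1 h4).2
        unfold Fx at h2
        rw [if_pos h5] at h2
        rw [h2, mul_zero]
      · rfl
    · have h3 := (Fx_cop hs hc h2).1
      have h4 : (rb, rv) ∈ ((reps q) ×ˢ (reps q)).filter (fun p : ZI × ZI => ((q : ℕ) : ZI) ∣ p.1 * p.2 - ⟨l0, m0⟩) := by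
        rw [mem_filter, mem_product]
        refine ⟨⟨hrb1, hrv1⟩, ?_⟩
        have : rb * rv - ⟨l0, m0⟩ = (b * v - ⟨l0, m0⟩) - (b * v - rb * rv) := by ring
        simp only
        rw [this]
        exact dvd_sub h3 hbv
      rw [if_pos h4]
      have h5 := ((dvd_iff q (b * v) ⟨l0, m0⟩).1 h3).2
      unfold Fx
      rw [if_pos h5]
  rw [sum_congr rfl fun b _ => sum_congr rfl fun v _ => hpt b v]
  rw [sum_congr rfl fun b _ => sum_comm, sum_comm]
  refine sum_congr rfl fun p _ => ?_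
  have e1 : ∀ b, (∑ v ∈ bl (2 * M ^ 2), (if ((q : ℕ) : ZI) ∣ b - p.1 then
      (if ((q : ℕ) : ZI) ∣ v - p.2 then mu b * aW W v * Fz lam M (b * v) else 0) else 0)) =
      if ((q : ℕ) : ZI) ∣ b - p.1 then ∑ v ∈ (bl (2 * M ^ 2)).filter (fun v => ((q : ℕ) : ZI) ∣ v - p.2),
        mu b * aW W v * Fz lam M (b * v) else 0 := by
    intro b
    split_ifs
    · rw [sum_filter]
    · simp
  rw [sum_congr rfl fun b _ => e1 b, ← sum_filter, filter_filter]

end Pool.Agent.N782.GN
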