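import Pool.Agent.N782.GN.StmV

/-!
# Project GN (helper782), part B: the bilinear sums.  Statements.
-/

set_option autoImplicit false

namespace Pool.Agent.N782.GN

open Finset
open Pool.Agent.H304R3.HK (UH bb LamK)

/-- a trapezoid: `1` on `[1, 2]`, `0` outside `[1/2, 3]` -/
noncomputable def Phi (x : ℝ) : ℝ := max 0 (min 1 (min (2 * x - 1) (3 - x)))

/-- a cut-off: `0` for `x ≥ 1`, `1` for `x ≤ 1 - 1/D` -/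
noncomputable def psi (D x : ℝ) : ℝ := max 0 (min 1 (D * (1 - x)))

/-- a cut-off: `0` for `x ≤ 1`, `1` for `x ≥ 2` -/
noncomputable def om (x : ℝ) : ℝ := max 0 (min 1 (x - 1))

/-- the determinant of `w₁`, `w₂` -/
def dl (w1 w2 : ZI) : ℤ := w1.re * w2.im - w1.im * w2.re

open Classical in
/-- the primitive Gaussian integers with `R² < N(w) ≤ 4 R²` -/
noncomputable def cw (R : ℝ) : Finset ZI := (bl (4 * R ^ 2)).filter (fun w => R ^ 2 < nz w ∧ ct w = 1)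

/-- (CHR) the lattice of the pairs `(Re w₁v, Re w₂v)` -/
def S_CHR : Prop := ∀ w1 w2 : ZI, ct w1 = 1 → ct w2 = 1 → dl w1 w2 ≠ 0 → ∃ t : ℤ, IsCoprime t (dl w1 w2) ∧
  ((dl w1 w2 : ℤ) : ZI) ∣ w2 - (t : ZI) * w1 ∧
  (∀ l1 l2 : ℤ, (∃ v : ZI, (w1 * v).re = l1 ∧ (w2 * v).re = l2) ↔ dl w1 w2 ∣ l2 - t * l1) ∧
  ∀ v : ZI, nz v * (dl w1 w2 : ℝ) ^ 2 =
    ‖(w2 : ℂ) * (((w1 * v).re : ℤ) : ℂ) - (w1 : ℂ) * (((w2 * v).re : ℤ) : ℂ)‖ ^ 2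

open Classical in
/-- (CNT) counting -/
def S_CNT : Prop := ∃ C : ℝ, 0 < C ∧ ∀ R : ℝ, 1 ≤ R →
  ((cw R).card : ℝ) ≤ C * R ^ 2 ∧
  (∀ w ∈ cw R, ∀ D : ℤ, (((cw R).filter (fun w2 => dl w w2 = D)).card : ℝ) ≤ C) ∧
  ∀ w ∈ cw R, ∀ P L : ℝ, R ≤ P → 1 ≤ L →
    (((bl (9 * P ^ 2)).filter (fun v => 1 ≤ (w * v).re ∧ (((w * v).re : ℤ) : ℝ) ≤ L)).card : ℝ) ≤ C * L * P / R

/-- `e(x) = exp(2πix)` -/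
noncomputable def ee (x : ℝ) : ℂ := Complex.exp (2 * Real.pi * Complex.I * (x : ℂ))

/-- (LSD) the large sieve over the moduli `d > Q` -/
def S_LSD : Prop := ∃ C : ℝ, 0 < C ∧ ∀ (Q D n : ℕ) (x : ℤ) (lam : ℤ → ℝ), 1 ≤ Q → (∀ l, |lam l| ≤ 1) →
  ∑ d ∈ Ioc Q D, (1 / (d : ℝ)) * ∑ a ∈ (range d).filter (fun a => Nat.Coprime a d),
    ‖∑ l ∈ Ioc x (x + n), (lam l : ℂ) * ee (a * l / d)‖ ^ 2 ≤ C * (D * n + (n : ℝ) ^ 2 / Q)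

/-- the imaginary part of `z̄₁ z₂` -/
noncomputable def dlc (z1 z2 : ℂ) : ℝ := ((starRingEnd ℂ) z1 * z2).im

/-- the properties of the kernel: bounded by `κ₀`, zero for `|Im z̄₁z₂| > s R²`, variation at most `κ₁` if the
arguments change by at most `δ` and the absolute values by a factor in `[1 - η, 1 + η]`; zero if
`Im z̄₁z₂ = 0` -/
structure Ker (R κ₀ κ₁ s δ η : ℝ) (K : ℂ → ℂ → ℝ) : Prop where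
  bd : ∀ z1 z2 : ℂ, R ≤ ‖z1‖ → ‖z1‖ ≤ 2 * R → R ≤ ‖z2‖ → ‖z2‖ ≤ 2 * R → |K z1 z2| ≤ κ₀
  supp : ∀ z1 z2 : ℂ, R ≤ ‖z1‖ → ‖z1‖ ≤ 2 * R → R ≤ ‖z2‖ → ‖z2‖ ≤ 2 * R → s * R ^ 2 < |dlc z1 z2| → K z1 z2 = 0
  var : ∀ (z1 z2 : ℂ) (ρ1 ρ2 θ1 θ2 : ℝ), R ≤ ‖z1‖ → ‖z1‖ ≤ 2 * R → R ≤ ‖z2‖ → ‖z2‖ ≤ 2 * R →
    R ≤ ρ1 * ‖z1‖ → ρ1 * ‖z1‖ ≤ 2 * R → R ≤ ρ2 * ‖z2‖ → ρ2 * ‖z2‖ ≤ 2 * R →
    |ρ1 - 1| ≤ η → |ρ2 - 1| ≤ η → |θ1| ≤ δ → |θ2| ≤ δ →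
    |K (z1 * ρ1 * Complex.exp (θ1 * Complex.I)) (z2 * ρ2 * Complex.exp (θ2 * Complex.I)) - K z1 z2| ≤ κ₁
  zero : ∀ z1 z2 : ℂ, dlc z1 z2 = 0 → K z1 z2 = 0
  meas : ∀ r1 r2 : ℝ, Measurable fun p : ℝ × ℝ =>
    K (r1 * Complex.exp (p.1 * Complex.I)) (r2 * Complex.exp (p.2 * Complex.I))

/-- (KER) from the kernel to narrow sectors -/
def S_KER : Prop := ∃ C : ℝ, 0 < C ∧ ∀ (R κ₀ κ₁ s δ η E : ℝ) (K : ℂ → ℂ → ℝ) (β1 β2 : ZI → ℝ), 1 ≤ R → 0 < s → s ≤ 1 →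
  0 < δ → δ ≤ 1 / 100 → 0 < η → η ≤ 1 / 100 → 0 ≤ κ₀ → 0 ≤ κ₁ → 0 ≤ E → Ker R κ₀ κ₁ s δ η K →
  (∀ w, |β1 w| ≤ 1) → (∀ w, |β2 w| ≤ 1) →
  (∀ Y1 Y2 : ℝ, R ^ 2 ≤ Y1 → Y1 ≤ Y2 → Y2 ≤ 4 * R ^ 2 →
    ∫ x in (0 : ℝ)..(2 * Real.pi), (∑ t ∈ (cw R).filter (fun t => Y1 < nz t ∧ nz t ≤ Y2), β1 t * sc δ x t) ^ 2 ≤ E) →
  (∀ Y1 Y2 : ℝ, R ^ 2 ≤ Y1 → Y1 ≤ Y2 → Y2 ≤ 4 * R ^ 2 →
    ∫ x in (0 : ℝ)..(2 * Real.pi), (∑ t ∈ (cw R).filter (fun t => Y1 < nz t ∧ nz t ≤ Y2), β2 t * sc δ x t) ^ 2 ≤ E) →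
  |∑ w1 ∈ cw R, ∑ w2 ∈ cw R, β1 w1 * β2 w2 * K w1 w2| ≤
    C * (κ₁ * R ^ 2 * ((s + δ) * R ^ 2 + 1) + κ₀ * s * E / (δ ^ 2 * η ^ 2))

open Classical in
/-- the weighted number of the pairs `(l₁, l₂) = (Re w₁v, Re w₂v)` -/
noncomputable def A2 (lam : ℤ → ℝ) (I1 I2 : Finset ℤ) (w1 w2 : ZI) : ℝ :=
  ∑ l1 ∈ I1, ∑ l2 ∈ I2, if ∃ v : ZI, (w1 * v).re = l1 ∧ (w2 * v).re = l2 then lam l1 * lam l2 else 0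

open Classical in
/-- (BIL) the bilinear form with a kernel -/
def S_BIL : Prop := ∃ C : ℝ, 0 < C ∧ ∀ (R κ₀ κ₁ s δ η E : ℝ) (Q n : ℕ) (x1 x2 : ℤ) (K : ℂ → ℂ → ℝ) (β : ZI → ℝ)
  (lam : ℤ → ℝ), 1 ≤ R → 0 < s → s ≤ 1 → 1 ≤ s * R ^ 2 → 0 < δ → δ ≤ 1 / 100 → 0 < η → η ≤ 1 / 100 → 0 ≤ κ₀ → 0 ≤ κ₁ →
  0 ≤ E → 1 ≤ Q → 1 ≤ n → Ker R κ₀ κ₁ s δ η K →
  (∀ z1 z2 : ℂ, R ≤ ‖z1‖ → ‖z1‖ ≤ 2 * R → R ≤ ‖z2‖ → ‖z2‖ ≤ 2 * R → |K z1 z2| * |dlc z1 z2| ≤ 1) →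
  (∀ w, |β w| ≤ 1) → (∀ l, |lam l| ≤ 1) →
  (∀ (q : ℕ) (r : ZI) (Y1 Y2 : ℝ), 1 ≤ q → q ≤ Q → R ^ 2 ≤ Y1 → Y1 ≤ Y2 → Y2 ≤ 4 * R ^ 2 →
    ∫ x in (0 : ℝ)..(2 * Real.pi), (∑ t ∈ (cw R).filter (fun t => Y1 < nz t ∧ nz t ≤ Y2 ∧ ((q : ℕ) : ZI) ∣ t - r),
      β t * sc δ x t) ^ 2 ≤ E) →
  |∑ w1 ∈ cw R, ∑ w2 ∈ cw R, β w1 * β w2 * (|(dl w1 w2 : ℝ)| * K w1 w2) *
      A2 lam (Ioc x1 (x1 + n)) (Ioc x2 (x2 + n)) w1 w2| ≤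
    C * (R ^ 2 * (1 + Real.log (s * R ^ 2)) * (s * R ^ 2 * n + (n : ℝ) ^ 2 / Q) +
      (Q : ℝ) ^ 5 * (n : ℝ) ^ 2 * (κ₁ * R ^ 2 * ((s + δ) * R ^ 2) + κ₀ * s * E / (δ ^ 2 * η ^ 2)))

/-- `|z₂ x - z₁ y| / |Im z̄₁z₂|`, the absolute value of the `v` with `Re (z₁v) = x`, `Re (z₂v) = y` -/
noncomputable def rh (x y : ℝ) (z1 z2 : ℂ) : ℝ := ‖z2 * x - z1 * y‖ / |dlc z1 z2|

/-- the weight of the pair `(x, y)` -/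
noncomputable def Hf (D M P x y : ℝ) (z1 z2 : ℂ) : ℝ :=
  Phi (rh x y z1 z2 / P) * psi D (‖z1‖ * rh x y z1 z2 / M) * psi D (‖z2‖ * rh x y z1 z2 / M)

/-- the kernel -/
noncomputable def Kf (D M P D1 x y : ℝ) (z1 z2 : ℂ) : ℝ :=
  om (|dlc z1 z2| / D1) * Hf D M P x y z1 z2 / |dlc z1 z2|

/-- (LIP) the properties of the kernel (`D₀ = R L / P`) -/
def S_LIP : Prop := ∃ C : ℝ, 1 ≤ C ∧ ∀ (D M P D1 x y R L δ η : ℝ), 1 ≤ D → 1 ≤ R → 0 < P → 0 < L → 0 < D1 →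
  R * P ≤ M → D1 ≤ R * L / P → 0 ≤ x → x ≤ L → 0 ≤ y → y ≤ L → 0 < η → η ≤ 1 / 100 → 0 < δ → δ ≤ η →
  R ^ 2 * δ ≤ η * (R * L / P) →
  Ker R (1 / D1) (C * D * η * (R * L / P) ^ 3 / D1 ^ 4) (8 * L / (P * R)) δ η (Kf D M P D1 x y) ∧
  ∀ z1 z2 : ℂ, R ≤ ‖z1‖ → ‖z1‖ ≤ 2 * R → R ≤ ‖z2‖ → ‖z2‖ ≤ 2 * R →
    |Kf D M P D1 x y z1 z2| * |dlc z1 z2| ≤ 1

/-- the weight `λ` is bounded by one and supported on `[1, L]` -/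
def Lm (L : ℝ) (lam : ℤ → ℝ) : Prop := (∀ l, |lam l| ≤ 1) ∧ ∀ l : ℤ, l < 1 ∨ L < (l : ℝ) → lam l = 0

/-- (TG) the dispersion -/
def S_TG : Prop := ∀ (ε : ℝ) (A B : ℕ), 0 < ε → ∃ (A' B' : ℕ) (C : ℝ), 0 < C ∧ ∀ (M L R P D : ℝ) (β : ZI → ℝ)
  (lam : ℤ → ℝ), 3 ≤ M → 1 ≤ L → L ≤ M ^ (1 - ε) → M / L * M ^ ε ≤ R → R ^ 2 ≤ M ^ (1 - ε) →
  M / (Real.log M) ^ B ≤ R * P → R * P ≤ M → 1 ≤ D → D ≤ (Real.log M) ^ B →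
  (∀ w, |β w| ≤ 1) → (∀ w, ct w ≠ 1 → β w = 0) → Lm L lam →
  (∀ (q : ℕ) (r : ZI) (Y1 Y2 : ℝ), 1 ≤ q → (q : ℝ) ≤ (Real.log M) ^ B' → 0 ≤ Y1 → Y1 ≤ Y2 → Y2 ≤ 4 * R ^ 2 →
    ∫ x in (0 : ℝ)..(2 * Real.pi), (∑ t ∈ (cls q r Y2).filter (fun t => Y1 < nz t),
      β t * sc (L / M / (Real.log M) ^ B') x t) ^ 2 ≤ (L / M) ^ 2 * R ^ 4 / (Real.log M) ^ A') →
  ∑ v ∈ bl (9 * P ^ 2), Phi (Real.sqrt (nz v) / P) * (∑ w ∈ (bl (4 * R ^ 2)).filter (fun w => R ^ 2 < nz w),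
    β w * lam (w * v).re * psi D (Real.sqrt (nz (w * v)) / M)) ^ 2 ≤ C * L ^ 2 * R ^ 2 / (Real.log M) ^ A

/-- (T) the dispersion for the Moebius function -/
def S_T : Prop := ∀ (ε : ℝ) (A B : ℕ), 0 < ε → ∃ C : ℝ, 0 < C ∧ ∀ (M L R P D : ℝ) (g : ℕ)
  (lam : ℤ → ℝ), 3 ≤ M → 1 ≤ L → L ≤ M ^ (1 - ε) → M / L * M ^ ε ≤ R → R ^ 2 ≤ M ^ (1 - ε) →
  M / (Real.log M) ^ B ≤ R * P → R * P ≤ M → 1 ≤ D → D ≤ (Real.log M) ^ B → 1 ≤ g → (g : ℝ) ≤ (Real.log M) ^ B →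
  Lm L lam →
  ∑ v ∈ bl (9 * P ^ 2), Phi (Real.sqrt (nz v) / P) * (∑ w ∈ (bl (4 * R ^ 2)).filter (fun w => R ^ 2 < nz w),
    be g w * lam (w * v).re * psi D (Real.sqrt (nz (w * v)) / M)) ^ 2 ≤ C * L ^ 2 * R ^ 2 / (Real.log M) ^ A

/-- (DIV) divisors of the Gaussian integers in a rectangle -/
def S_DIV : Prop := ∃ C : ℝ, 0 < C ∧ ∀ (L M : ℝ) (m1 m2 : ℤ), 2 ≤ M → 1 ≤ L → L ≤ M → m1 ≤ m2 →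
  |(m1 : ℝ)| ≤ M → |(m2 : ℝ)| ≤ M →
  ∑ l ∈ Icc 1 ⌊L⌋, ∑ m ∈ Ioc m1 m2, (dv (⟨l, m⟩ : ZI) : ℝ) ≤
    C * (L * (m2 - m1) * Real.log M + M * Real.sqrt M)

open Classical in
/-- `∑_{c ∣ v, N(c) > W} Λ(c)` -/
noncomputable def aW (W : ℝ) (v : ZI) : ℝ := ∑ c ∈ (bl (nz v)).filter (fun c => c ∣ v ∧ W < nz c), LamK c

/-- `λ(Re z)` for `|Im z| ≤ M` -/
noncomputable def Fz (lam : ℤ → ℝ) (M : ℝ) (z : ZI) : ℝ := if |(z.im : ℝ)| ≤ M then lam z.re else 0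

/-- (II) the bilinear sums -/
def S_II : Prop := ∀ (ε : ℝ) (A : ℕ), 0 < ε → ∃ C : ℝ, 0 < C ∧ ∀ (M L Y W : ℝ) (lam : ℤ → ℝ), 3 ≤ M →
  M ^ (1 / 2 + ε) ≤ L → L ≤ M ^ (1 - ε) → (M / L) ^ 2 * M ^ (3 * ε) ≤ Y → M ^ (1 + ε) ≤ W → Lm L lam →
  |∑ b ∈ (bl (2 * M ^ 2)).filter (fun b => Y < nz b), ∑ v ∈ bl (2 * M ^ 2), mu b * aW W v * Fz lam M (b * v)| ≤
    C * L * M / (Real.log M) ^ A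

end Pool.Agent.N782.GN
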