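import Pool.Agent.N782.GN.StmB

/-!
# Project GN (helper782), part T: Vaughan's identity, the linear sums and the main term.  Statements.
-/

set_option autoImplicit false

namespace Pool.Agent.N782.GN

open Finset Filter Topology
open Pool.Agent.H304R3.HK (UH bb LamK)

open Classical in
/-- (MUB) basic properties of the Moebius function and of the von Mangoldt function of `ℤ[i]` -/
def S_MUB : Prop := (∀ a b : ZI, IsCoprime a b → mu (a * b) = mu a * mu b) ∧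
  (∀ a b : ZI, a ≠ 0 → b ≠ 0 → ¬ IsCoprime a b → mu (a * b) = 0) ∧
  (∀ u a : ZI, IsUnit u → mu (u * a) = mu a) ∧
  (∀ z : ZI, z ≠ 0 → ∑ d ∈ (bl (nz z)).filter (fun d => d ∣ z), mu d = if IsUnit z then 4 else 0) ∧
  (∀ z : ZI, z ≠ 0 → ∑ c ∈ (bl (nz z)).filter (fun c => c ∣ z), LamK c = 4 * Real.log (nz z)) ∧
  (∀ z : ZI, 0 ≤ LamK z ∧ (z ≠ 0 → LamK z ≤ Real.log (nz z)))

/-- (DVB) the divisor bound -/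
def S_DVB : Prop := ∀ δ : ℝ, 0 < δ → ∃ C : ℝ, 0 < C ∧ ∀ z : ZI, z ≠ 0 → (dv z : ℝ) ≤ C * (nz z) ^ δ

/-- (VAU) Vaughan's identity (sums over elements, not over ideals) -/
def S_VAU : Prop := ∀ (F : ZI → ℝ) (X Y W : ℝ), 1 ≤ Y → 1 ≤ W → 1 ≤ X → F 0 = 0 → (∀ z, X < nz z → F z = 0) →
  ∑ z ∈ bl X, LamK z * F z = ∑ z ∈ bl W, LamK z * F z +
    1 / 4 * ∑ b ∈ bl Y, ∑ u ∈ bl X, mu b * Real.log (nz u) * F (b * u) -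
    1 / 16 * ∑ b ∈ bl Y, ∑ c ∈ bl W, ∑ u ∈ bl X, mu b * LamK c * F (b * c * u) +
    1 / 16 * ∑ b ∈ (bl X).filter (fun b => Y < nz b), ∑ v ∈ bl X, mu b * aW W v * F (b * v)

/-- the content of `a` if it divides `l`: `κ_l(a) / N(a)` is the density of the `m` with `a ∣ l + i m` -/
noncomputable def kap (l : ℤ) (a : ZI) : ℝ := if ((ct a : ℕ) : ℤ) ∣ l then (ct a : ℝ) else 0

open Classical in
/-- the root `ν` with `a ∣ l + i m ↔ N(a) ∣ m - ν l`, for primitive `a` -/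
noncomputable def nu (a : ZI) : ℤ :=
  if h : ∃ ν : ℤ, ∀ l m : ℤ, a ∣ (⟨l, m⟩ : ZI) ↔ Zsqrtd.norm a ∣ m - ν * l then h.choose else 0

/-- (RLS) the roots, and the large sieve for the fractions `ν / N(a)` -/
def S_RLS : Prop := (∀ a : ZI, ct a = 1 → ∀ l m : ℤ, a ∣ (⟨l, m⟩ : ZI) ↔ Zsqrtd.norm a ∣ m - nu a * l) ∧
  ∃ C : ℝ, 0 < C ∧ ∀ (D : ℝ) (N : ℕ) (α : ℤ → ℂ), 1 ≤ D → 1 ≤ N →
    ∑ a ∈ (bl D).filter (fun a => ct a = 1), ‖∑ n ∈ Icc (-(N : ℤ)) N, α n * ee (n * nu a / nz a)‖ ^ 2 ≤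
      C * (D + N) * Real.log (D + 2) * ∑ n ∈ Icc (-(N : ℤ)) N, ‖α n‖ ^ 2

open Classical in
/-- the number of the `m`, `|m| ≤ M`, with `a ∣ l + i m` -/
noncomputable def nm (M : ℝ) (a : ZI) (l : ℤ) : ℝ :=
  (((Icc ⌈-M⌉ ⌊M⌋).filter (fun m : ℤ => a ∣ (⟨l, m⟩ : ZI))).card : ℝ)

open Classical in
/-- the same with the weight `log m²` -/
noncomputable def nml (M : ℝ) (a : ZI) (l : ℤ) : ℝ :=
  ∑ m ∈ (Icc ⌈-M⌉ ⌊M⌋).filter (fun m : ℤ => m ≠ 0 ∧ a ∣ (⟨l, m⟩ : ZI)), 2 * Real.log |(m : ℝ)|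

/-- (TI) linear sums -/
def S_TI : Prop := ∀ ε : ℝ, 0 < ε → ∃ C : ℝ, 0 < C ∧ ∀ (M L D : ℝ) (lam : ℤ → ℝ), 2 ≤ M → 1 ≤ L →
  L ≤ M ^ (1 - ε) → 1 ≤ D → D ≤ L * M ^ (1 - ε) → Lm L lam →
  ∑ a ∈ bl D, |∑ l ∈ Icc 1 ⌊L⌋, lam l * (nm M a l - 2 * M * (kap l a / nz a))| ≤ C * L * M ^ (1 - ε / 10)

/-- (TIL) linear sums with a logarithmic weight -/
def S_TIL : Prop := ∀ ε : ℝ, 0 < ε → ∃ C : ℝ, 0 < C ∧ ∀ (M L D : ℝ) (lam : ℤ → ℝ), 2 ≤ M → 1 ≤ L →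
  L ≤ M ^ (1 - ε) → 1 ≤ D → D ≤ L * M ^ (1 - ε) → Lm L lam →
  ∑ a ∈ bl D, |∑ l ∈ Icc 1 ⌊L⌋, lam l * (nml M a l - 4 * M * (Real.log M - 1) * (kap l a / nz a))| ≤
    C * L * M ^ (1 - ε / 20)

/-- the partial products of the singular series -/
noncomputable def pp (l : ℤ) (z : ℕ) : ℝ :=
  ∏ p ∈ (Icc 3 z).filter (fun p : ℕ => p.Prime ∧ ¬ (p : ℤ) ∣ l), (1 - ((ZMod.χ₄ (p : ZMod 4) : ℤ) : ℝ) / ((p : ℝ) - 1))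

/-- the singular series -/
noncomputable def SS (l : ℤ) : ℝ := limUnder atTop (pp l)

/-- (SSL) the singular series converges -/
def S_SSL : Prop := ∀ l : ℤ, l ≠ 0 → Tendsto (pp l) atTop (𝓝 (SS l)) ∧ 0 < SS l

/-- the main term -/
noncomputable def Em (l : ℤ) (M Y W : ℝ) : ℝ :=
  1 / 4 * ∑ b ∈ bl Y, mu b * (kap l b / nz b) * (4 * M * (Real.log M - 1) - 2 * M * Real.log (nz b)) -
    1 / 16 * (2 * M) * ∑ b ∈ bl Y, ∑ c ∈ bl W, mu b * LamK c * (kap l (b * c) / nz (b * c))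

/-- (MT1) sums of the Moebius function with the densities -/
def S_MT1 : Prop := ∀ A : ℕ, ∃ C : ℝ, 0 < C ∧ ∀ (L y : ℝ), 1 ≤ L → 3 ≤ y →
  ∑ l ∈ Icc 1 ⌊L⌋, |∑ b ∈ bl y, mu b * (kap l b / nz b)| ≤ C * L / (Real.log y) ^ A ∧
  ∑ l ∈ Icc 1 ⌊L⌋, |1 / 4 * ∑ b ∈ bl y, mu b * (kap l b / nz b) * Real.log (nz b) + SS l| ≤
    C * L / (Real.log y) ^ A

/-- (MT2) the sums with `Λ` -/
def S_MT2 : Prop := ∀ A : ℕ, ∃ C : ℝ, 0 < C ∧ ∀ (L y w : ℝ), 1 ≤ L → 3 ≤ y → 3 ≤ w →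
  ∑ l ∈ Icc 1 ⌊L⌋, |∑ b ∈ bl y, ∑ c ∈ bl w, mu b * LamK c * (kap l (b * c) / nz (b * c))| ≤
    C * L * Real.log w / (Real.log y) ^ A

/-- (LK) from `ℤ[i]` to the rational integers -/
def S_LK : Prop := ∃ C : ℝ, 0 < C ∧ ∀ M L : ℝ, 2 ≤ M → 1 ≤ L → L ≤ M →
  ∑ l ∈ Icc 1 ⌊L⌋, ∑ m ∈ Icc ⌈-M⌉ ⌊M⌋, |LamK (⟨l, m⟩ : ZI) - ArithmeticFunction.vonMangoldt (l ^ 2 + m ^ 2).natAbs| ≤
    C * M * (Real.log M) ^ 3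

/-- (MAIN) the theorem on average over `l ≤ L` -/
def S_MAIN : Prop := ∀ (ε : ℝ) (A : ℕ), 0 < ε → ∃ C : ℝ, 0 < C ∧ ∀ (M L : ℝ), 3 ≤ M →
  M ^ (2 / 3 + ε) ≤ L → L ≤ M ^ (1 - ε) →
  ∑ l ∈ Icc 1 ⌊L⌋, |∑ m ∈ Icc 1 ⌊M⌋, ArithmeticFunction.vonMangoldt (l ^ 2 + m ^ 2).natAbs - M * SS l| ≤
    C * L * M / (Real.log M) ^ A

end Pool.Agent.N782.GN
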